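import Pool.Agent.Q281.BK.Pres

set_option autoImplicit false

namespace Pool.Agent.Q281.BK

/-- inverse monoids with an inverse operation (Wagner's identities) -/
class WInv (M : Type) [Monoid M] extends Inv M where
  inv_inv' : ∀ x : M, x⁻¹⁻¹ = x
  mul_inv' : ∀ x y : M, (x * y)⁻¹ = y⁻¹ * x⁻¹
  reg : ∀ x : M, x * x⁻¹ * x = x
  comm : ∀ x y : M, x * x⁻¹ * (y * y⁻¹) = y * y⁻¹ * (x * x⁻¹)

namespace WInv

variable {M : Type} [Monoid M] [WInv M]

theorem reg' (x : M) : x⁻¹ * x * x⁻¹ = x⁻¹ := by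
  have := reg (x⁻¹)
  rwa [inv_inv'] at this

theorem comm2 (x y : M) : x * x⁻¹ * (y⁻¹ * y) = y⁻¹ * y * (x * x⁻¹) := by
  have := comm x (y⁻¹)
  rwa [inv_inv'] at this

theorem comm3 (x y : M) : x⁻¹ * x * (y⁻¹ * y) = y⁻¹ * y * (x⁻¹ * x) := by
  have := comm (x⁻¹) (y⁻¹)
  rwa [inv_inv', inv_inv'] at this

/-- idempotents are self-inverse -/
theorem idem_inv (e : M) (h : e * e = e) : e⁻¹ = e := by
  have h1 : e⁻¹ = (e⁻¹ * e) * (e * e⁻¹) := by
    calc e⁻¹ = e⁻¹ * e * e⁻¹ := (reg' e).symm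
      _ = e⁻¹ * (e * e) * e⁻¹ := by rw [h]
      _ = (e⁻¹ * e) * (e * e⁻¹) := by simp only [mul_assoc]
  have h2 : e⁻¹⁻¹ = (e * e⁻¹) * (e⁻¹ * e) := by
    conv_lhs => rw [h1]
    rw [mul_inv', mul_inv', mul_inv', inv_inv']
  rw [inv_inv', comm2, ← h1] at h2
  exact h2.symm

theorem idem_comm (e f : M) (he : e * e = e) (hf : f * f = f) : e * f = f * e := by
  have h := comm e f
  rw [idem_inv e he, idem_inv f hf, he, hf] at h
  exact h

theorem idem_mul_inv (x : M) : x * x⁻¹ * (x * x⁻¹) = x * x⁻¹ := by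
  rw [← mul_assoc, reg]

theorem isInverse : IsInverse M := by
  intro s
  refine ⟨s⁻¹, ⟨reg s, reg' s⟩, ?_⟩
  rintro y ⟨h1, h2⟩
  have i1 : (s * y) * (s * y) = s * y := by rw [← mul_assoc, h1]
  have i2 : (y * s) * (y * s) = y * s := by rw [← mul_assoc, h2]
  have i3 : (s * s⁻¹) * (s * s⁻¹) = s * s⁻¹ := idem_mul_inv s
  have i4 : (s⁻¹ * s) * (s⁻¹ * s) = s⁻¹ * s := by rw [← mul_assoc, reg']
  calc y = y * (s * y) := by rw [← mul_assoc, h2]
    _ = y * (s * s⁻¹ * s * y) := by rw [reg]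
    _ = y * ((s * s⁻¹) * (s * y)) := by simp only [mul_assoc]
    _ = y * ((s * y) * (s * s⁻¹)) := by rw [idem_comm _ _ i3 i1]
    _ = (y * s * y) * (s * s⁻¹) := by simp only [mul_assoc]
    _ = y * (s * s⁻¹) := by rw [h2]
    _ = (y * s) * (s⁻¹ * s * s⁻¹) := by rw [reg']; simp only [mul_assoc]
    _ = (y * s) * (s⁻¹ * s) * s⁻¹ := by simp only [mul_assoc]
    _ = (s⁻¹ * s) * (y * s) * s⁻¹ := by rw [idem_comm _ _ i2 i4]
    _ = s⁻¹ * (s * y * s) * s⁻¹ := by simp only [mul_assoc]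
    _ = s⁻¹ := by rw [h1, reg']

/-- Green's relation `R` -/
def RR (s t : M) : Prop := s * s⁻¹ = t * t⁻¹

theorem RR.refl (s : M) : RR s s := rfl
theorem RR.symm {s t : M} (h : RR s t) : RR t s := Eq.symm h
theorem RR.trans {s t r : M} (h : RR s t) (h' : RR t r) : RR s r := Eq.trans h h'

theorem fix_of_mul {s m n : M} (h : s * m * n = s) : s * (m * m⁻¹) = s := by
  set x := m * n with hx
  have hs : s * x = s := by rw [hx, ← mul_assoc, h]
  have h1 : s * s⁻¹ = s * x * x⁻¹ * s⁻¹ := by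
    conv_lhs => rw [← hs]
    rw [mul_inv']; simp only [mul_assoc]
  have h2 : s * (x * x⁻¹) = s := by
    calc s * (x * x⁻¹) = s * s⁻¹ * s * (x * x⁻¹) := by rw [reg]
      _ = s * ((s⁻¹ * s) * (x * x⁻¹)) := by simp only [mul_assoc]
      _ = s * ((x * x⁻¹) * (s⁻¹ * s)) := by rw [comm2]
      _ = s * x * x⁻¹ * s⁻¹ * s := by simp only [mul_assoc]
      _ = s * s⁻¹ * s := by rw [← h1]
      _ = s := reg s
  have h3 : (m * m⁻¹) * (x * x⁻¹) = x * x⁻¹ := by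
    rw [hx]
    calc m * m⁻¹ * (m * n * (m * n)⁻¹) = (m * m⁻¹ * m) * n * (m * n)⁻¹ := by simp only [mul_assoc]
      _ = m * n * (m * n)⁻¹ := by rw [reg]
  calc s * (m * m⁻¹) = s * (x * x⁻¹) * (m * m⁻¹) := by rw [h2]
    _ = s * ((x * x⁻¹) * (m * m⁻¹)) := by simp only [mul_assoc]
    _ = s * ((m * m⁻¹) * (x * x⁻¹)) := by rw [comm]
    _ = s := by rw [h3, h2]

theorem RR_of_fix {s m : M} (h : s * (m * m⁻¹) = s) : RR s (s * m) := by
  show s * s⁻¹ = s * m * (s * m)⁻¹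
  rw [mul_inv']
  calc s * s⁻¹ = s * (m * m⁻¹) * s⁻¹ := by rw [h]
    _ = s * m * (m⁻¹ * s⁻¹) := by simp only [mul_assoc]

theorem fix_of_RR {s m : M} (h : RR s (s * m)) : s * (m * m⁻¹) = s := by
  have h1 : s * s⁻¹ = s * m * (s * m)⁻¹ := h
  rw [mul_inv'] at h1
  calc s * (m * m⁻¹) = s * s⁻¹ * s * (m * m⁻¹) := by rw [reg]
    _ = s * ((s⁻¹ * s) * (m * m⁻¹)) := by simp only [mul_assoc]
    _ = s * ((m * m⁻¹) * (s⁻¹ * s)) := by rw [comm2]
    _ = s * m * (m⁻¹ * s⁻¹) * s := by simp only [mul_assoc]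
    _ = s * s⁻¹ * s := by rw [← h1]
    _ = s := reg s

theorem RR_of_mul {s m n : M} (h : s * m * n = s) : RR s (s * m) := RR_of_fix (fix_of_mul h)

theorem RR_prefix {s m n : M} (h : RR s (s * m * n)) : RR s (s * m) := by
  have h1 : RR s (s * (m * n)) := by rwa [← mul_assoc]
  have h2 := fix_of_RR h1
  refine RR_of_mul (n := n * (m * n)⁻¹) ?_
  rw [← h2]
  conv_rhs => rw [← h2]
  rw [h2]
  simp only [mul_assoc]

theorem mul_of_RR {s t : M} (h : RR s t) : s * (s⁻¹ * t) = t := by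
  rw [← mul_assoc]
  have : s * s⁻¹ = t * t⁻¹ := h
  rw [this, reg]

/-- going back -/
theorem back {s m : M} (h : RR s (s * m)) : s * m * m⁻¹ = s := by
  rw [mul_assoc]; exact fix_of_RR h

end WInv

end Pool.Agent.Q281.BK
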