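import Pool.Agent.Q281.BK.Alg1

set_option autoImplicit false

namespace Pool.Agent.Q281.BK

variable {A : Type}

theorem winv_mul (u v : Word A) : winv (u * v) = winv v * winv u := by
  unfold winv
  rw [FreeMonoid.toList_mul, List.map_append, List.reverse_append, FreeMonoid.ofList_append]

theorem winv_winv (u : Word A) : winv (winv u) = u := by
  unfold winv
  rw [FreeMonoid.toList_ofList, List.map_reverse, List.reverse_reverse, List.map_map]
  have : ((fun x : A × Bool => (x.1, !x.2)) ∘ fun x => (x.1, !x.2)) = id := by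
    funext x; simp
  rw [this, List.map_id, FreeMonoid.ofList_toList]

theorem winv_one : winv (1 : Word A) = 1 := rfl

theorem winv_of (x : A × Bool) : winv (FreeMonoid.of x) = FreeMonoid.of (x.1, !x.2) := rfl

variable (R : Set (Word A × Word A))

theorem elt_eq_iff (u v : Word A) : elt R u = elt R v ↔ conGen (Rel R) u v :=
  Con.eq _

theorem elt_rel {u v : Word A} (h : Rel R u v) : elt R u = elt R v :=
  (elt_eq_iff R u v).2 (ConGen.Rel.of _ _ h)

theorem elt_of {u v : Word A} (h : (u, v) ∈ R) : elt R u = elt R v := elt_rel R (.of u v h)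

theorem elt_surj (m : InvPres R) : ∃ u, elt R u = m := Con.mk'_surjective m

theorem elt_reg (u : Word A) : elt R u * elt R (winv u) * elt R u = elt R u := by
  rw [← map_mul, ← map_mul]; exact elt_rel R (.reg u)

theorem elt_reg' (u : Word A) : elt R (winv u) * elt R u * elt R (winv u) = elt R (winv u) := by
  have := elt_reg R (winv u)
  rwa [winv_winv] at this

theorem elt_comm (u v : Word A) : elt R u * elt R (winv u) * (elt R v * elt R (winv v)) =
    elt R v * elt R (winv v) * (elt R u * elt R (winv u)) := by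
  simp only [← map_mul]; exact elt_rel R (.comm u v)

theorem elt_winv_congr {u v : Word A} (h : elt R u = elt R v) :
    elt R (winv u) = elt R (winv v) := by
  set x := elt R u with hx
  set y := elt R (winv u) with hy
  set y' := elt R (winv v) with hy'
  have h1 : x * y * x = x := elt_reg R u
  have h2 : y * x * y = y := elt_reg' R u
  have h3 : x * y' * x = x := by rw [h]; exact elt_reg R v
  have h4 : y' * x * y' = y' := by rw [h]; exact elt_reg' R v
  have h5 : x * y * (x * y') = x * y' * (x * y) := by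
    have := elt_comm R u v
    rwa [← h] at this
  have h6 : y * x * (y' * x) = y' * x * (y * x) := by
    have := elt_comm R (winv u) (winv v)
    rw [winv_winv, winv_winv, ← h] at this
    exact this
  calc y = y * (x * y' * x) * y := by rw [h3, h2]
    _ = (y * x * (y' * x)) * y := by simp only [mul_assoc]
    _ = (y' * x) * (y * x * y) := by rw [h6]; simp only [mul_assoc]
    _ = y' * x * y := by rw [h2]
    _ = (y' * x * y') * x * y := by rw [h4]
    _ = y' * ((x * y') * (x * y)) := by simp only [mul_assoc]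
    _ = y' * ((x * y) * (x * y')) := by rw [h5]
    _ = y' * (x * y * x) * y' := by simp only [mul_assoc]
    _ = y' := by rw [h1, h4]

/-- the inverse on the presented monoid -/
noncomputable instance : Inv (InvPres R) := ⟨fun m => elt R (winv (elt_surj R m).choose)⟩

theorem elt_inv (u : Word A) : (elt R u)⁻¹ = elt R (winv u) :=
  elt_winv_congr R (elt_surj R (elt R u)).choose_spec

noncomputable instance : WInv (InvPres R) where
  inv_inv' := by
    intro x
    obtain ⟨u, rfl⟩ := elt_surj R x
    rw [elt_inv, elt_inv, winv_winv]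
  mul_inv' := by
    intro x y
    obtain ⟨u, rfl⟩ := elt_surj R x
    obtain ⟨v, rfl⟩ := elt_surj R y
    rw [← map_mul, elt_inv, elt_inv, elt_inv, winv_mul, map_mul]
  reg := by
    intro x
    obtain ⟨u, rfl⟩ := elt_surj R x
    rw [elt_inv]; exact elt_reg R u
  comm := by
    intro x y
    obtain ⟨u, rfl⟩ := elt_surj R x
    obtain ⟨v, rfl⟩ := elt_surj R y
    rw [elt_inv, elt_inv]; exact elt_comm R u v

open WInv

theorem reach_of_word (s : InvPres R) (u : Word A) :
    Relation.ReflTransGen (Step R) s (s * elt R u) := by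
  induction u using FreeMonoid.recOn generalizing s with
  | one => rw [map_one, mul_one]
  | of_mul x u ih =>
    rw [map_mul, ← mul_assoc]
    exact Relation.ReflTransGen.head ⟨x, rfl⟩ (ih _)

theorem word_of_reach {s t : InvPres R} (h : Relation.ReflTransGen (Step R) s t) :
    ∃ u, t = s * elt R u := by
  induction h with
  | refl => exact ⟨1, by rw [map_one, mul_one]⟩
  | tail _ h2 ih =>
    obtain ⟨u, rfl⟩ := ih
    obtain ⟨x, rfl⟩ := h2
    exact ⟨u * FreeMonoid.of x, by rw [map_mul, mul_assoc]⟩

/-- the strongly connected components are the classes of Green's relation R -/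
theorem comp_iff (s t : InvPres R) : (Relation.ReflTransGen (Step R) s t ∧
    Relation.ReflTransGen (Step R) t s) ↔ RR s t := by
  constructor
  · rintro ⟨h1, h2⟩
    obtain ⟨u, hu⟩ := word_of_reach R h1
    obtain ⟨v, hv⟩ := word_of_reach R h2
    rw [hu]
    apply RR_of_mul (n := elt R v)
    rw [← hu]; exact hv.symm
  · intro h
    constructor
    · obtain ⟨u, hu⟩ := elt_surj R (s⁻¹ * t)
      have := reach_of_word R s u
      rwa [hu, mul_of_RR h] at this
    · obtain ⟨u, hu⟩ := elt_surj R (t⁻¹ * s)
      have := reach_of_word R t u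
      rwa [hu, mul_of_RR h.symm] at this

variable {R}

def toComp {s t : InvPres R} (h : RR s t) : SchComp R s := ⟨t, (comp_iff R s t).2 h⟩

theorem SchComp.rr {s : InvPres R} (v : SchComp R s) : RR s v.1 := (comp_iff R s v.1).1 v.2

theorem SchComp.rr2 {s : InvPres R} (v w : SchComp R s) : RR v.1 w.1 := v.rr.symm.trans w.rr

theorem SchComp.ext {s : InvPres R} {v w : SchComp R s} (h : v.1 = w.1) : v = w := Subtype.ext h

theorem Sch_adj {s : InvPres R} (v w : SchComp R s) : (Sch R s).Adj v w ↔
    v ≠ w ∧ ∃ x : A, w.1 = v.1 * elt R (FreeMonoid.of (x, true)) ∨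
      v.1 = w.1 * elt R (FreeMonoid.of (x, true)) := by
  unfold Sch
  rw [SimpleGraph.fromRel_adj]
  refine and_congr_right fun _ => ?_
  have key : ∀ v w : SchComp R s, ∀ x : A, w.1 = v.1 * elt R (FreeMonoid.of (x, false)) →
      v.1 = w.1 * elt R (FreeMonoid.of (x, true)) := by
    intro v w x h
    have h1 : RR v.1 (v.1 * elt R (FreeMonoid.of (x, false))) := h ▸ v.rr2 w
    have h2 := back h1
    rw [elt_inv, winv_of, ← h] at h2
    exact h2.symm
  constructor
  · rintro (⟨⟨x, b⟩, h⟩ | ⟨⟨x, b⟩, h⟩)
    · cases b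
      · exact ⟨x, Or.inr (key v w x h)⟩
      · exact ⟨x, Or.inl h⟩
    · cases b
      · exact ⟨x, Or.inl (key w v x h)⟩
      · exact ⟨x, Or.inr h⟩
  · rintro ⟨x, h | h⟩
    · exact Or.inl ⟨(x, true), h⟩
    · exact Or.inr ⟨(x, true), h⟩

theorem Sch_reach {s : InvPres R} (v : SchComp R s) (u : Word A)
    (h : RR v.1 (v.1 * elt R u)) (w : SchComp R s) (hw : w.1 = v.1 * elt R u) :
    (Sch R s).Reachable v w := by
  induction u using FreeMonoid.recOn generalizing v with
  | one =>
    rw [map_one, mul_one] at hw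
    rw [SchComp.ext hw]
  | of_mul x u ih =>
    rw [map_mul, ← mul_assoc] at h hw
    have h1 : RR v.1 (v.1 * elt R (FreeMonoid.of x)) := RR_prefix h
    let v' : SchComp R s := toComp (v.rr.trans h1)
    have h2 : (Sch R s).Reachable v v' := by
      by_cases hv : v = v'
      · rw [← hv]
      · refine SimpleGraph.Adj.reachable ?_
        unfold Sch
        rw [SimpleGraph.fromRel_adj]
        exact ⟨hv, Or.inl ⟨x, rfl⟩⟩
    exact h2.trans (ih v' (h1.symm.trans h) hw)

theorem Sch_connected (s : InvPres R) : (Sch R s).Connected := by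
  have : Nonempty (SchComp R s) := ⟨toComp (RR.refl s)⟩
  refine SimpleGraph.Connected.mk ?_
  intro v w
  obtain ⟨u, hu⟩ := elt_surj R (v.1⁻¹ * w.1)
  have h : v.1 * elt R u = w.1 := by rw [hu]; exact mul_of_RR (v.rr2 w)
  exact Sch_reach v u (by rw [h]; exact v.rr2 w) w h.symm

/-! ### Representations by partial injections -/

/-- the partial injection of a letter -/
def letterP {Y : Type} (E : A → Y ≃. Y) (x : A × Bool) : Y ≃. Y :=
  if x.2 then E x.1 else (E x.1).symm

/-- the partial injection of a word -/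
def rho {Y : Type} (E : A → Y ≃. Y) (u : Word A) : Y ≃. Y :=
  (FreeMonoid.toList u).foldr (fun x f => (letterP E x).trans f) (PEquiv.refl Y)

theorem rho_one {Y : Type} (E : A → Y ≃. Y) : rho E 1 = PEquiv.refl Y := rfl

theorem rho_of {Y : Type} (E : A → Y ≃. Y) (x : A × Bool) :
    rho E (FreeMonoid.of x) = letterP E x := by
  show (letterP E x).trans (PEquiv.refl Y) = _
  rw [PEquiv.trans_refl]

theorem rho_of_mul {Y : Type} (E : A → Y ≃. Y) (x : A × Bool) (u : Word A) :
    rho E (FreeMonoid.of x * u) = (letterP E x).trans (rho E u) := rfl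

theorem rho_mul {Y : Type} (E : A → Y ≃. Y) (u v : Word A) :
    rho E (u * v) = (rho E u).trans (rho E v) := by
  induction u using FreeMonoid.recOn with
  | one => rw [one_mul, rho_one, PEquiv.refl_trans]
  | of_mul x u ih => rw [mul_assoc, rho_of_mul, rho_of_mul, ih, PEquiv.trans_assoc]

theorem letterP_symm {Y : Type} (E : A → Y ≃. Y) (x : A × Bool) :
    letterP E (x.1, !x.2) = (letterP E x).symm := by
  rcases x with ⟨x, b⟩
  cases b
  · show E x = (E x).symm.symm
    rw [PEquiv.symm_symm]
  · rfl

theorem rho_winv {Y : Type} (E : A → Y ≃. Y) (u : Word A) :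
    rho E (winv u) = (rho E u).symm := by
  induction u using FreeMonoid.recOn with
  | one => rw [winv_one, rho_one, PEquiv.symm_refl]
  | of_mul x u ih =>
    rw [winv_mul, rho_mul, ih, winv_of, rho_of, rho_of_mul, PEquiv.symm_trans_rev, letterP_symm]

theorem mem_self {Y : Type} (f : Y ≃. Y) (a c : Y) :
    c ∈ (f.trans f.symm) a ↔ c = a ∧ ∃ d, d ∈ f a := by
  rw [PEquiv.mem_trans]
  constructor
  · rintro ⟨d, h1, h2⟩
    rw [PEquiv.mem_iff_mem] at h2
    exact ⟨f.inj h2 h1, d, h1⟩
  · rintro ⟨rfl, d, h⟩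
    exact ⟨d, h, by rw [PEquiv.mem_iff_mem]; exact h⟩

theorem pe_ext {Y : Type} {f g : Y ≃. Y} (h : ∀ a c, c ∈ f a ↔ c ∈ g a) : f = g :=
  PEquiv.ext fun a => Option.ext fun c => h a c

theorem pe_reg {Y : Type} (f : Y ≃. Y) : (f.trans f.symm).trans f = f := by
  refine pe_ext fun a c => ?_
  rw [PEquiv.mem_trans]
  constructor
  · rintro ⟨b, h1, h2⟩
    rw [mem_self] at h1
    rw [← h1.1]; exact h2
  · intro h
    exact ⟨a, (mem_self f a a).2 ⟨rfl, c, h⟩, h⟩

theorem pe_comm {Y : Type} (f g : Y ≃. Y) : (f.trans f.symm).trans (g.trans g.symm) =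
    (g.trans g.symm).trans (f.trans f.symm) := by
  refine pe_ext fun a c => ?_
  rw [PEquiv.mem_trans, PEquiv.mem_trans]
  constructor
  · rintro ⟨b, h1, h2⟩
    rw [mem_self] at h1 h2
    obtain ⟨rfl, h1⟩ := h1
    obtain ⟨rfl, h2⟩ := h2
    exact ⟨c, (mem_self _ _ _).2 ⟨rfl, h2⟩, (mem_self _ _ _).2 ⟨rfl, h1⟩⟩
  · rintro ⟨b, h1, h2⟩
    rw [mem_self] at h1 h2
    obtain ⟨rfl, h1⟩ := h1
    obtain ⟨rfl, h2⟩ := h2
    exact ⟨c, (mem_self _ _ _).2 ⟨rfl, h2⟩, (mem_self _ _ _).2 ⟨rfl, h1⟩⟩

variable (R)

/-- representations by partial injections factor through the presented monoid -/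
theorem rho_congr {Y : Type} (E : A → Y ≃. Y) (hE : ∀ u v, (u, v) ∈ R → rho E u = rho E v)
    {u v : Word A} (h : elt R u = elt R v) : rho E u = rho E v := by
  let c : Con (Word A) :=
    { r := fun u v => rho E u = rho E v
      iseqv := ⟨fun _ => rfl, fun h => h.symm, fun h h' => h.trans h'⟩
      mul' := by
        intro a b c d h1 h2
        show rho E (a * c) = rho E (b * d)
        have h1 : rho E a = rho E b := h1
        have h2 : rho E c = rho E d := h2
        rw [rho_mul, rho_mul, h1, h2] }
  have hc : conGen (Rel R) ≤ c := by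
    refine Con.conGen_le.2 ?_
    intro u v h
    show rho E u = rho E v
    cases h with
    | of _ _ h => exact hE _ _ h
    | reg _ => rw [rho_mul, rho_mul, rho_winv, pe_reg]
    | comm u v => simp only [rho_mul, rho_winv]; exact pe_comm _ _
  exact hc ((elt_eq_iff R u v).1 h)

end Pool.Agent.Q281.BK
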