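import Mathlib

/-!
# Project BK: a finitely presented inverse monoid with hyperbolic Schuetzenberger graphs (MP_8b7a64_al)

Metric notions and the combinatorial model (towers).
-/

set_option autoImplicit false

namespace Pool.Agent.Q281.BK

universe u v

/-- Gromov's four point condition with constant `δ` for the path metric of a graph. -/
def Hyp {V : Type u} (G : SimpleGraph V) (δ : ℝ) : Prop :=
  ∀ x y z w : V, (G.dist x y : ℝ) + G.dist z w ≤
    max ((G.dist x z : ℝ) + G.dist y w) ((G.dist x w : ℝ) + G.dist y z) + 2 * δ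

/-- `f` is a quasi-isometric embedding with respect to the distance functions `dX` and `dY`. -/
def QIEmb {X : Type u} {Y : Type v} (dX : X → X → ℝ) (dY : Y → Y → ℝ) (f : X → Y) : Prop :=
  ∃ L C : ℝ, 1 ≤ L ∧ 0 ≤ C ∧
    ∀ x y, dX x y / L - C ≤ dY (f x) (f y) ∧ dY (f x) (f y) ≤ L * dX x y + C

/-- The graph `G` (with its path metric) is quasi-isometric to a tree. -/
def QITree {V : Type} (G : SimpleGraph V) : Prop :=
  ∃ (W : Type u) (T : SimpleGraph W) (f : V → W), T.IsTree ∧
    QIEmb (fun x y => (G.dist x y : ℝ)) (fun x y => (T.dist x y : ℝ)) f ∧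
    ∃ C : ℝ, ∀ w, ∃ x, (T.dist w (f x) : ℝ) ≤ C

/-- The graph `G` (with its path metric) contains a quasi-isometric image of the hyperbolic plane. -/
def HasH2 {V : Type} (G : SimpleGraph V) : Prop :=
  ∃ f : UpperHalfPlane → V,
    QIEmb (fun x y => dist x y) (fun x y => (G.dist x y : ℝ)) f

/-- An oriented edge of the model, from the point at level `k` and position `x` to the point at level
`k'` and position `x'`: either one step of length `2 ^ k` to the right on the same level, or a step one
level up which keeps the position or moves it by `2 ^ k` to the right. -/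
def Edge (k : ℤ) (x : ℚ) (k' : ℤ) (x' : ℚ) : Prop :=
  (k' = k ∧ x' = x + 2 ^ k) ∨ (k' = k + 1 ∧ (x' = x ∨ x' = x + 2 ^ k))

/-- A tower: a connected graph whose vertices have a level `l` and a position `q`. The vertices of one
level `k` form a subset of a coset of `2 ^ k ℤ` which is closed under going right (`right`, `lat`); if
there is a vertex at level `l s + 1` then `s` has a parent (`up`). -/
structure Tower {X : Type} (G : SimpleGraph X) (l : X → ℤ) (q : X → ℚ) : Prop where
  conn : G.Connected
  inj : ∀ s t, l s = l t → q s = q t → s = t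
  adj : ∀ s t, G.Adj s t → Edge (l s) (q s) (l t) (q t) ∨ Edge (l t) (q t) (l s) (q s)
  right : ∀ s, ∃ t, G.Adj s t ∧ l t = l s ∧ q t = q s + 2 ^ l s
  lat : ∀ s t, l s = l t → ∃ n : ℤ, q t = q s + n * 2 ^ l s
  up : ∀ s t, l t = l s + 1 →
    ∃ s', G.Adj s s' ∧ l s' = l s + 1 ∧ (q s' = q s ∨ q s' = q s + 2 ^ l s)

/-- The local structure: a total injective map `A` (right multiplication by `a`) and a partial
injection `T` (right multiplication by `t`) with `ta = aat`, and no two neighbours `s`, `A s` in the
domain of `T`. -/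
structure Loc {X : Type} (G : SimpleGraph X) (A : X → X) (T : X → X → Prop) (l : X → ℤ) (q : X → ℚ) :
    Prop where
  conn : G.Connected
  adj : ∀ s s', G.Adj s s' ↔
    s ≠ s' ∧ (s' = A s ∨ s = A s' ∨ T s s' ∨ T s' s ∨ T (A s) s' ∨ T (A s') s)
  Ainj : Function.Injective A
  Tfun : ∀ s s' s'', T s s' → T s s'' → s' = s''
  Tinj : ∀ s s' s'', T s s'' → T s' s'' → s = s'
  fwd : ∀ s s', T s s' → T (A (A s)) (A s')
  bwd : ∀ s s'', T (A (A s)) s'' → ∃ s', T s s'
  noadj : ∀ s s' s'', T s s' → ¬ T (A s) s''
  lA : ∀ s, l (A s) = l s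
  qA : ∀ s, q (A s) = q s + 2 ^ l s
  lT : ∀ s s', T s s' → l s' = l s + 1
  qT : ∀ s s', T s s' → q s' = q s

/-- The position of the ancestor of `s` on the level of `c`, relative to `c`. -/
def P {X : Type} (l : X → ℤ) (q : X → ℚ) (c s : X) : ℤ := ⌈(q s - q c) / 2 ^ l c⌉

end Pool.Agent.Q281.BK
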