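import Pool.Agent.Q281.BK.Pres

/-!
# The finitely presented inverse monoid
-/

set_option autoImplicit false

namespace Pool.Agent.Q281.BK

/-- the generators -/
inductive Gen : Type
  | a | t | b | p | z
  deriving DecidableEq

instance : Finite Gen := by
  refine Finite.of_injective (fun x : Gen => (match x with
    | .a => 0 | .t => 1 | .b => 2 | .p => 3 | .z => 4 : Fin 5)) ?_
  intro x y h
  cases x <;> cases y <;> simp_all

/-- the letter `x` as a word -/
def w (x : Gen) : Word Gen := FreeMonoid.of (x, true)

/-- the letter `x⁻¹` as a word -/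
def w' (x : Gen) : Word Gen := FreeMonoid.of (x, false)

open Gen

/-- The relations `a a⁻¹ = 1`, `t a = a a t`, `b = a t`, `p p = p`, `p = p t p t⁻¹`,
`t t⁻¹ a t t⁻¹ = z`, and `z x = z = x z` for all generators `x` (so `z` is a zero). -/
def R0 : Set (Word Gen × Word Gen) :=
  {(w a * w' a, 1), (w t * w a, w a * w a * w t), (w b, w a * w t), (w p * w p, w p),
    (w p, w p * w t * w p * w' t), (w t * w' t * w a * w t * w' t, w z)} ∪
  Set.range (fun x : Gen => (w z * w x, w z)) ∪ Set.range (fun x : Gen => (w x * w z, w z))

theorem R0_finite : R0.Finite := by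
  unfold R0
  refine Set.Finite.union (Set.Finite.union ?_ (Set.finite_range _)) (Set.finite_range _)
  exact Set.toFinite _

end Pool.Agent.Q281.BK
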