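import Pool.Agent.Q281.BK.Alg2
import Pool.Agent.Q281.BK.Mon
import Pool.Agent.Q281.BK.Def

set_option autoImplicit false

namespace Pool.Agent.Q281.BK

open Gen WInv

/-- the monoid -/
abbrev M0 : Type := InvPres R0

/-- the generators in the monoid -/
def g (x : Gen) : M0 := elt R0 (w x)

theorem g_inv (x : Gen) : (g x)⁻¹ = elt R0 (w' x) := elt_inv R0 (w x)

theorem rel_a : g a * (g a)⁻¹ = 1 := by
  rw [g_inv, g, ← map_mul, ← map_one (elt R0)]
  refine elt_of R0 ?_
  simp [R0]

theorem rel_ta : g t * g a = g a * g a * g t := by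
  rw [g, g, ← map_mul, ← map_mul, ← map_mul]
  refine elt_of R0 ?_
  simp [R0]

theorem rel_b : g b = g a * g t := by
  rw [g, g, g, ← map_mul]
  refine elt_of R0 ?_
  simp [R0]

theorem rel_p : g p * g p = g p := by
  rw [g, ← map_mul]
  refine elt_of R0 ?_
  simp [R0]

theorem rel_ptp : g p = g p * g t * g p * (g t)⁻¹ := by
  rw [g_inv, g, g, ← map_mul, ← map_mul, ← map_mul]
  refine elt_of R0 ?_
  simp [R0]

theorem rel_z : g t * (g t)⁻¹ * g a * g t * (g t)⁻¹ = g z := by
  rw [g_inv, g, g, g, ← map_mul, ← map_mul, ← map_mul, ← map_mul]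
  refine elt_of R0 ?_
  simp [R0]

theorem z_mul (x : Gen) : g z * g x = g z := by
  rw [g, g, ← map_mul]
  refine elt_of R0 ?_
  exact Or.inl (Or.inr ⟨x, rfl⟩)

theorem mul_z (x : Gen) : g x * g z = g z := by
  rw [g, g, ← map_mul]
  refine elt_of R0 ?_
  exact Or.inr ⟨x, rfl⟩

theorem z_inv : (g z)⁻¹ = g z := idem_inv _ (z_mul z)

theorem z_mul_inv (x : Gen) : g z * (g x)⁻¹ = g z := by
  have := congrArg (·⁻¹) (mul_z x)
  simpa [mul_inv', z_inv] using this

theorem mul_z_inv (x : Gen) : (g x)⁻¹ * g z = g z := by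
  have := congrArg (·⁻¹) (z_mul x)
  simpa [mul_inv', z_inv] using this

theorem elt_letter (x : Gen × Bool) : elt R0 (FreeMonoid.of x) = g x.1 ∨
    elt R0 (FreeMonoid.of x) = (g x.1)⁻¹ := by
  rcases x with ⟨x, c⟩
  cases c
  · right; rw [g_inv]; rfl
  · left; rfl

theorem zl (m : M0) : g z * m = g z := by
  obtain ⟨u, rfl⟩ := elt_surj R0 m
  induction u using FreeMonoid.recOn with
  | one => rw [map_one, mul_one]
  | of_mul x u ih =>
    rw [map_mul, ← mul_assoc]
    rcases elt_letter x with h | h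
    · rw [h, z_mul, ih]
    · rw [h, z_mul_inv, ih]

theorem zr (m : M0) : m * g z = g z := by
  obtain ⟨u, rfl⟩ := elt_surj R0 m
  induction u using FreeMonoid.recOn with
  | one => rw [map_one, one_mul]
  | of_mul x u ih =>
    rw [map_mul, mul_assoc, ih]
    rcases elt_letter x with h | h
    · rw [h, mul_z]
    · rw [h, mul_z_inv]

/-! ### the group image -/

/-- the permutation of `ℤ × ℚ` of a generator -/
def ea : Equiv.Perm (ℤ × ℚ) where
  toFun v := (v.1, v.2 + 2 ^ v.1)
  invFun v := (v.1, v.2 - 2 ^ v.1)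
  left_inv v := by simp
  right_inv v := by simp

def et : Equiv.Perm (ℤ × ℚ) where
  toFun v := (v.1 + 1, v.2)
  invFun v := (v.1 - 1, v.2)
  left_inv v := by simp
  right_inv v := by simp

def eg : Gen → Equiv.Perm (ℤ × ℚ)
  | .a => ea
  | .t => et
  | .b => ea.trans et
  | .p => Equiv.refl _
  | .z => Equiv.refl _

/-- the group image of a word -/
def th : Word Gen →* (Equiv.Perm (ℤ × ℚ))ᵐᵒᵖ :=
  FreeMonoid.lift (fun x => MulOpposite.op (if x.2 then eg x.1 else (eg x.1)⁻¹))

theorem th_w (x : Gen) : th (w x) = MulOpposite.op (eg x) := rfl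

theorem th_w' (x : Gen) : th (w' x) = (MulOpposite.op (eg x))⁻¹ := rfl

theorem th_winv (u : Word Gen) : th (winv u) = (th u)⁻¹ := by
  induction u using FreeMonoid.recOn with
  | one => rw [winv_one, map_one, inv_one]
  | of_mul x u ih =>
    rw [winv_mul, map_mul, map_mul, ih, mul_inv_rev, winv_of]
    congr 1
    rcases x with ⟨x, c⟩
    cases c
    · show MulOpposite.op (eg x) = (MulOpposite.op ((eg x)⁻¹))⁻¹
      rw [MulOpposite.op_inv, inv_inv]
    · rfl

theorem th_rel {u v : Word Gen} (h : Rel R0 u v) :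
    (elt R0 u = g z) ∨ th u = th v := by
  cases h with
  | reg u => right; rw [map_mul, map_mul, th_winv]; group
  | comm u v => right; simp only [map_mul, th_winv]; group
  | of _ _ h =>
    rcases h with (h | h) | h
    · simp only [Set.mem_insert_iff, Set.mem_singleton_iff, Prod.mk.injEq] at h
      rcases h with ⟨rfl, rfl⟩ | ⟨rfl, rfl⟩ | ⟨rfl, rfl⟩ | ⟨rfl, rfl⟩ | ⟨rfl, rfl⟩ | ⟨rfl, rfl⟩
      · right; rw [map_mul, th_w, th_w', mul_inv_cancel, map_one]
      · right
        simp only [map_mul, th_w]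
        rw [← MulOpposite.op_mul, ← MulOpposite.op_mul, ← MulOpposite.op_mul]
        congr 1
        ext v
        · rfl
        · show v.2 + (2 : ℚ) ^ (v.1 + 1) = v.2 + 2 ^ v.1 + 2 ^ v.1
          rw [zpow_add₀ (by norm_num)]; ring
      · right; rfl
      · right; rfl
      · right
        simp only [map_mul, th_w, th_w']
        show _ = MulOpposite.op (eg p) * MulOpposite.op (eg t) * 1 * _
        rw [mul_one, mul_assoc, mul_inv_cancel, mul_one]
      · left; exact (elt_of R0 (by simp [R0])).trans rfl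
    · obtain ⟨x, hx⟩ := h
      simp only [Prod.mk.injEq] at hx
      left; rw [← hx.1, map_mul]; exact z_mul x
    · obtain ⟨x, hx⟩ := h
      simp only [Prod.mk.injEq] at hx
      left; rw [← hx.1, map_mul]; exact mul_z x

theorem th_congr {u v : Word Gen} (h : elt R0 u = elt R0 v) : elt R0 u = g z ∨ th u = th v := by
  let c : Con (Word Gen) :=
    { r := fun u v => elt R0 u = elt R0 v ∧ (elt R0 u = g z ∨ th u = th v)
      iseqv := by
        refine ⟨fun _ => ⟨rfl, Or.inr rfl⟩, ?_, ?_⟩
        · rintro x y ⟨h1, h2⟩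
          refine ⟨h1.symm, ?_⟩
          rcases h2 with h2 | h2
          · left; rw [← h1]; exact h2
          · right; exact h2.symm
        · rintro x y z' ⟨h1, h2⟩ ⟨h3, h4⟩
          refine ⟨h1.trans h3, ?_⟩
          rcases h2 with h2 | h2
          · left; exact h2
          · rcases h4 with h4 | h4
            · left; rw [h1]; exact h4
            · right; exact h2.trans h4
      mul' := by
        rintro x y x' y' ⟨h1, h2⟩ ⟨h3, h4⟩
        refine ⟨by rw [map_mul, map_mul, h1, h3], ?_⟩
        rcases h2 with h2 | h2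
        · left; rw [map_mul, h2, zl]
        · rcases h4 with h4 | h4
          · left; rw [map_mul, h4, zr]
          · right; rw [map_mul, map_mul, h2, h4] }
  have hc : conGen (Rel R0) ≤ c := by
    refine Con.conGen_le.2 ?_
    intro u v h
    exact ⟨elt_rel R0 h, th_rel h⟩
  exact (hc ((elt_eq_iff R0 u v).1 h)).2

/-- the level and position of a nonzero element -/
noncomputable def pos (m : M0) : ℤ × ℚ := (th (elt_surj R0 m).choose).unop (0, 0)

theorem pos_elt (u : Word Gen) (h : elt R0 u ≠ g z) : pos (elt R0 u) = (th u).unop (0, 0) := by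
  have h1 := (elt_surj R0 (elt R0 u)).choose_spec
  rcases th_congr h1 with h2 | h2
  · rw [h1] at h2; exact absurd h2 h
  · show (th (elt_surj R0 (elt R0 u)).choose).unop (0, 0) = _
    rw [h2]

theorem pos_mul (m : M0) (x : Gen) (h : m * g x ≠ g z) : pos (m * g x) = eg x (pos m) := by
  obtain ⟨u, rfl⟩ := elt_surj R0 m
  have h1 : elt R0 u ≠ g z := fun h' => h (by rw [h', zl])
  have h2 : elt R0 u * g x = elt R0 (u * w x) := by rw [map_mul]; rfl
  rw [h2, pos_elt _ (by rw [← h2]; exact h), pos_elt _ h1, map_mul, th_w, MulOpposite.unop_mul]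
  rfl

end Pool.Agent.Q281.BK
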