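import Pool.Agent.Q281.BK.Alg3

set_option autoImplicit false

namespace Pool.Agent.Q281.BK

open Gen WInv

theorem z_not {s v : M0} (hs : s ≠ g z) (h : RR s v) : v ≠ g z := by
  intro hv
  apply hs
  have h1 : s * s⁻¹ = v * v⁻¹ := h
  rw [hv, zl] at h1
  rw [← reg s, h1, zl]

theorem RR_a (v : M0) : RR v (v * g a) := by
  apply RR_of_mul (n := (g a)⁻¹)
  rw [mul_assoc, rel_a, mul_one]

variable {s : M0}

/-- right multiplication by `a` -/
def mA (v : SchComp R0 s) : SchComp R0 s := toComp (v.rr.trans (RR_a v.1))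

/-- right multiplication by `t` -/
def mT (v w : SchComp R0 s) : Prop := w.1 = v.1 * g t

noncomputable def lv (v : SchComp R0 s) : ℤ := (pos v.1).1
noncomputable def qv (v : SchComp R0 s) : ℚ := (pos v.1).2

theorem mA_val (v : SchComp R0 s) : (mA v).1 = v.1 * g a := rfl

theorem p_fix {v w : SchComp R0 s} (h : w.1 = v.1 * g p) : w = v := by
  apply SchComp.ext
  have h1 : RR v.1 (v.1 * g p) := h ▸ v.rr2 w
  have h2 := back h1
  rw [idem_inv _ rel_p, mul_assoc, rel_p, ← h] at h2
  exact h2

theorem noadj_aux {v : M0} (h1 : RR v (v * g t)) (h2 : RR v (v * g a * g t)) : v = g z := by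
  have e1 := fix_of_RR h1
  have e2 := fix_of_RR ((RR_a v).symm.trans h2)
  have e3 : v * g a = g z := by
    calc v * g a = v * g a * (g t * (g t)⁻¹) := e2.symm
      _ = v * (g t * (g t)⁻¹) * g a * (g t * (g t)⁻¹) := by rw [e1]
      _ = v * (g t * (g t)⁻¹ * g a * g t * (g t)⁻¹) := by simp only [mul_assoc]
      _ = g z := by rw [rel_z, zr]
  have e4 := back (RR_a v)
  rw [e3, zl] at e4
  exact e4.symm

theorem loc (hs : s ≠ g z) : Loc (Sch R0 s) mA mT lv qv where
  conn := Sch_connected s
  adj := by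
    intro v w
    rw [Sch_adj]
    refine and_congr_right fun hvw => ?_
    constructor
    · have key : ∀ v w : SchComp R0 s, v ≠ w → ∀ x : Gen, w.1 = v.1 * elt R0 (FreeMonoid.of (x, true)) →
          w = mA v ∨ mT v w ∨ mT (mA v) w := by
        intro v w hvw x h
        cases x with
        | a => left; exact SchComp.ext h
        | t => right; left; exact h
        | b =>
          right; right
          show w.1 = v.1 * g Gen.a * g Gen.t
          rw [mul_assoc, ← rel_b]; exact h
        | p => exact absurd (p_fix h).symm hvw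
        | z =>
          exfalso
          apply z_not hs w.rr
          rw [h]; exact zr _
      rintro ⟨x, h | h⟩
      · rcases key v w hvw x h with h | h | h
        · exact Or.inl h
        · exact Or.inr (Or.inr (Or.inl h))
        · exact Or.inr (Or.inr (Or.inr (Or.inr (Or.inl h))))
      · rcases key w v hvw.symm x h with h | h | h
        · exact Or.inr (Or.inl h)
        · exact Or.inr (Or.inr (Or.inr (Or.inl h)))
        · exact Or.inr (Or.inr (Or.inr (Or.inr (Or.inr h))))
    · rintro (h | h | h | h | h | h)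
      · exact ⟨Gen.a, Or.inl (by rw [h]; rfl)⟩
      · exact ⟨Gen.a, Or.inr (by rw [h]; rfl)⟩
      · exact ⟨Gen.t, Or.inl h⟩
      · exact ⟨Gen.t, Or.inr h⟩
      · refine ⟨Gen.b, Or.inl ?_⟩
        show w.1 = v.1 * g b
        rw [rel_b, ← mul_assoc]; exact h
      · refine ⟨Gen.b, Or.inr ?_⟩
        show v.1 = w.1 * g b
        rw [rel_b, ← mul_assoc]; exact h
  Ainj := by
    intro v w h
    have h1 : v.1 * g a = w.1 * g a := congrArg Subtype.val h
    apply SchComp.ext
    rw [← back (RR_a v.1), ← back (RR_a w.1), h1]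
  Tfun := by
    intro v w w' h1 h2
    exact SchComp.ext (Eq.trans h1 (Eq.symm h2))
  Tinj := by
    intro v v' w h1 h2
    have h1 : w.1 = v.1 * g t := h1
    have h2 : w.1 = v'.1 * g t := h2
    apply SchComp.ext
    rw [← back (h1 ▸ v.rr2 w : RR v.1 (v.1 * g t)), ← back (h2 ▸ v'.rr2 w : RR v'.1 (v'.1 * g t)), ← h1, ← h2]
  fwd := by
    intro v w h
    have h : w.1 = v.1 * g t := h
    show w.1 * g a = v.1 * g a * g a * g t
    rw [h, mul_assoc, rel_ta]; simp only [mul_assoc]
  bwd := by
    intro v w h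
    have h : w.1 = v.1 * g a * g a * g t := h
    have h1 : w.1 = v.1 * g t * g a := by
      rw [h, mul_assoc _ (g t), rel_ta]; simp only [mul_assoc]
    have h2 : RR v.1 (v.1 * g t) := RR_prefix (n := g a) (h1 ▸ v.rr2 w)
    exact ⟨toComp (v.rr.trans h2), rfl⟩
  noadj := by
    intro v w w' h1 h2
    have h1 : w.1 = v.1 * g t := h1
    have h2 : w'.1 = v.1 * g a * g t := h2
    exact z_not hs v.rr (noadj_aux (h1 ▸ v.rr2 w) (h2 ▸ v.rr2 w'))
  lA := by
    intro v
    show (pos (v.1 * g a)).1 = _
    rw [pos_mul _ _ (z_not hs (v.rr.trans (RR_a _)))]; rfl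
  qA := by
    intro v
    show (pos (v.1 * g a)).2 = _
    rw [pos_mul _ _ (z_not hs (v.rr.trans (RR_a _)))]; rfl
  lT := by
    intro v w h
    have h : w.1 = v.1 * g t := h
    show (pos w.1).1 = _
    rw [h, pos_mul _ _ (h ▸ z_not hs w.rr)]; rfl
  qT := by
    intro v w h
    have h : w.1 = v.1 * g t := h
    show (pos w.1).2 = _
    rw [h, pos_mul _ _ (h ▸ z_not hs w.rr)]; rfl

end Pool.Agent.Q281.BK
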