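import Pool.Agent.Q281.BK.Alg4

set_option autoImplicit false

namespace Pool.Agent.Q281.BK

open Gen WInv

/-- the partial injection of a functional and injective relation -/
noncomputable def ofRel {Y : Type} (r : Y → Y → Prop) (hf : ∀ a b b', r a b → r a b' → b = b')
    (hi : ∀ a a' b, r a b → r a' b → a = a') : Y ≃. Y := by
  classical
  exact
  { toFun := fun a => if h : ∃ b, r a b then some h.choose else none
    invFun := fun b => if h : ∃ a, r a b then some h.choose else none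
    inv := by
      intro a b
      constructor
      · intro h
        split_ifs at h with h1
        · have h2 : h1.choose = a := Option.some.inj h
          have h3 : r a b := h2 ▸ h1.choose_spec
          have h4 : ∃ b, r a b := ⟨b, h3⟩
          rw [dif_pos h4]
          exact congrArg some (hf _ _ _ h4.choose_spec h3)
      · intro h
        split_ifs at h with h1
        · have h2 : h1.choose = b := Option.some.inj h
          have h3 : r a b := h2 ▸ h1.choose_spec
          have h4 : ∃ a, r a b := ⟨a, h3⟩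
          rw [dif_pos h4]
          exact congrArg some (hi _ _ _ h4.choose_spec h3) }

theorem mem_ofRel {Y : Type} (r : Y → Y → Prop) (hf : ∀ a b b', r a b → r a b' → b = b')
    (hi : ∀ a a' b, r a b → r a' b → a = a') (a b : Y) : b ∈ ofRel r hf hi a ↔ r a b := by
  classical
  have : (ofRel r hf hi) a = if h : ∃ b, r a b then some h.choose else none := rfl
  rw [this]
  constructor
  · intro h
    split_ifs at h with h1
    · have h2 : h1.choose = b := Option.some.inj h
      exact h2 ▸ h1.choose_spec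
    · exact absurd h (by simp)
  · intro h
    have h4 : ∃ b, r a b := ⟨b, h⟩
    rw [dif_pos h4]
    exact congrArg some (hf _ _ _ h4.choose_spec h)

theorem mem_w {Y : Type} (E : Gen → Y ≃. Y) (x : Gen) (v v' : Y) :
    v' ∈ rho E (w x) v ↔ v' ∈ E x v := by
  show v' ∈ rho E (FreeMonoid.of (x, true)) v ↔ _
  rw [rho_of]; rfl

theorem mem_w' {Y : Type} (E : Gen → Y ≃. Y) (x : Gen) (v v' : Y) :
    v' ∈ rho E (w' x) v ↔ v ∈ E x v' := by
  show v' ∈ rho E (FreeMonoid.of (x, false)) v ↔ _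
  rw [rho_of]
  show v' ∈ (E x).symm v ↔ _
  rw [PEquiv.mem_iff_mem]

theorem mem_mul {Y : Type} (E : Gen → Y ≃. Y) (u u' : Word Gen) (v v' : Y) :
    v' ∈ rho E (u * u') v ↔ ∃ c, c ∈ rho E u v ∧ v' ∈ rho E u' c := by
  rw [rho_mul, PEquiv.mem_trans]

/-! ### the horoball and `p ≠ z` -/

def hr : Gen → ℕ × ℕ → ℕ × ℕ → Prop
  | .a, v, v' => v'.1 = v.1 ∧ v'.2 = v.2 + 1
  | .t, v, v' => v'.1 = v.1 + 1 ∧ v.2 = 2 * v'.2
  | .b, v, v' => v'.1 = v.1 + 1 ∧ v.2 + 1 = 2 * v'.2
  | .p, v, v' => v'.1 = v.1 ∧ v'.2 = 0 ∧ v.2 = 0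
  | .z, _, _ => False

noncomputable def hE (x : Gen) : ℕ × ℕ ≃. ℕ × ℕ :=
  ofRel (hr x)
    (by
      intro v v1 v2 h1 h2
      cases x <;> simp only [hr] at h1 h2 <;> first | exact h1.elim | (ext <;> omega))
    (by
      intro v v1 v2 h1 h2
      cases x <;> simp only [hr] at h1 h2 <;> first | exact h1.elim | (ext <;> omega))

theorem mem_hE (x : Gen) (v v' : ℕ × ℕ) : v' ∈ hE x v ↔ hr x v v' := mem_ofRel _ _ _ _ _

theorem hE_rel (u v : Word Gen) (h : (u, v) ∈ R0) : rho hE u = rho hE v := by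
  refine pe_ext fun c d => ?_
  rcases h with (h | h) | h
  · simp only [Set.mem_insert_iff, Set.mem_singleton_iff, Prod.mk.injEq] at h
    rcases h with ⟨rfl, rfl⟩ | ⟨rfl, rfl⟩ | ⟨rfl, rfl⟩ | ⟨rfl, rfl⟩ | ⟨rfl, rfl⟩ | ⟨rfl, rfl⟩
    · rw [rho_one]
      simp only [mem_mul, mem_w, mem_w', mem_hE, hr]
      constructor
      · rintro ⟨b, h1, h2⟩
        have : c = d := by ext <;> omega
        rw [this]; rfl
      · intro h
        have : c = d := by
          have h' : some c = some d := h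
          exact Option.some.inj h'
        subst this
        exact ⟨(c.1, c.2 + 1), ⟨rfl, rfl⟩, ⟨rfl, rfl⟩⟩
    · simp only [mem_mul, mem_w, mem_w', mem_hE, hr]
      constructor
      · rintro ⟨b, h1, h2⟩
        exact ⟨(c.1, c.2 + 2), ⟨(c.1, c.2 + 1), ⟨rfl, rfl⟩, ⟨rfl, rfl⟩⟩, by dsimp only; omega,
          by dsimp only; omega⟩
      · rintro ⟨b, ⟨b', h1, h2⟩, h3⟩
        exact ⟨(c.1 + 1, d.2 - 1), by dsimp only; omega, by dsimp only; omega⟩
    · simp only [mem_mul, mem_w, mem_w', mem_hE, hr]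
      constructor
      · intro h
        exact ⟨(c.1, c.2 + 1), ⟨rfl, rfl⟩, h.1, h.2⟩
      · rintro ⟨b, h1, h2⟩
        omega
    · simp only [mem_mul, mem_w, mem_w', mem_hE, hr]
      constructor
      · rintro ⟨b, h1, h2⟩
        omega
      · intro h
        exact ⟨d, by omega, by omega⟩
    · simp only [mem_mul, mem_w, mem_w', mem_hE, hr]
      constructor
      · intro h
        exact ⟨(c.1 + 1, 0), ⟨(c.1 + 1, 0), ⟨c, by omega, by dsimp only; omega⟩, by dsimp only; omega⟩,
          by dsimp only; omega⟩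
      · rintro ⟨b1, ⟨b2, ⟨b3, h1, h2⟩, h3⟩, h4⟩
        omega
    · simp only [mem_mul, mem_w, mem_w', mem_hE, hr]
      constructor
      · rintro ⟨b1, ⟨b2, ⟨b3, ⟨b4, h1, h2⟩, h3⟩, h4⟩, h5⟩
        omega
      · exact fun h => h.elim
  · obtain ⟨x, hx⟩ := h
    simp only [Prod.mk.injEq] at hx
    rw [← hx.1, ← hx.2]
    simp only [mem_mul, mem_w, mem_w', mem_hE]
    constructor
    · rintro ⟨b, h1, h2⟩; exact h1.elim
    · exact fun h => h.elim
  · obtain ⟨x, hx⟩ := h
    simp only [Prod.mk.injEq] at hx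
    rw [← hx.1, ← hx.2]
    simp only [mem_mul, mem_w, mem_w', mem_hE]
    constructor
    · rintro ⟨b, h1, h2⟩; exact h2.elim
    · exact fun h => h.elim

theorem p_ne_z : g p ≠ g z := by
  intro h
  have h1 := rho_congr R0 hE hE_rel h
  have h2 : ((0, 0) : ℕ × ℕ) ∈ rho hE (w p) (0, 0) := by
    rw [mem_w, mem_hE]; exact ⟨rfl, rfl, rfl⟩
  rw [h1, mem_w, mem_hE] at h2
  exact h2

/-! ### the chain in the graph of `p` -/

theorem ptp : g p * g t * g p = g p * g t := by
  have hp := rel_ptp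
  have h1 : g p * g t = g p * g t * g p := by
    calc g p * g t = g p * g t * g p * (g t)⁻¹ * g t := by rw [← hp]
      _ = g p * g t * (g p * ((g t)⁻¹ * g t)) := by simp only [mul_assoc]
      _ = g p * g t * (((g t)⁻¹ * g t) * g p) := by
          rw [idem_comm (g p) ((g t)⁻¹ * g t) rel_p (by rw [← mul_assoc, reg'])]
      _ = g p * (g t * (g t)⁻¹ * g t) * g p := by simp only [mul_assoc]
      _ = g p * g t * g p := by rw [reg]
  exact h1.symm

theorem ptt : g p * (g t * (g t)⁻¹) = g p := by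
  have hp := rel_ptp
  calc g p * (g t * (g t)⁻¹) = g p * g t * g p * (g t)⁻¹ * (g t * (g t)⁻¹) := by rw [← hp]
    _ = g p * g t * g p * ((g t)⁻¹ * g t * (g t)⁻¹) := by simp only [mul_assoc]
    _ = g p := by rw [reg', ← hp]

/-- the elements `p t^i` -/
def pt (i : ℕ) : M0 := g p * (g t) ^ i

theorem pt_p (i : ℕ) : pt i * g p = pt i := by
  induction i with
  | zero => simp only [pt, pow_zero, mul_one]; exact rel_p
  | succ i ih =>
    have h1 : pt (i + 1) = pt i * g t := by simp only [pt, pow_succ, mul_assoc]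
    rw [h1]
    calc pt i * g t * g p = pt i * g p * g t * g p := by rw [ih]
      _ = pt i * (g p * g t * g p) := by simp only [mul_assoc]
      _ = pt i * g p * g t := by rw [ptp]; simp only [mul_assoc]
      _ = pt i * g t := by rw [ih]

theorem pt_succ (i : ℕ) : pt (i + 1) = pt i * g t := by simp only [pt, pow_succ, mul_assoc]

theorem pt_RR (i : ℕ) : RR (g p) (pt i) := by
  induction i with
  | zero => simp only [pt, pow_zero, mul_one]; exact RR.refl _
  | succ i ih =>
    refine ih.trans ?_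
    rw [pt_succ]
    apply RR_of_fix
    calc pt i * (g t * (g t)⁻¹) = pt i * (g p * (g t * (g t)⁻¹)) := by
          rw [← mul_assoc (pt i) (g p), pt_p]
      _ = pt i := by rw [ptt, pt_p]

/-- the chain -/
def chain (i : ℕ) : SchComp R0 (g p) := toComp (pt_RR i)

theorem chain_T (i : ℕ) : mT (chain i) (chain (i + 1)) := pt_succ i

/-! ### the graph of `z` -/

theorem z_comp (v w : SchComp R0 (g z)) : v = w := by
  have key : ∀ v : SchComp R0 (g z), v.1 = g z := by
    intro v
    have h : g z * (g z)⁻¹ = v.1 * v.1⁻¹ := v.rr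
    rw [zl] at h
    rw [← reg v.1, ← h, zl]
  exact SchComp.ext ((key v).trans (key w).symm)

/-! ### the levels are bounded below -/

/-- the part of the component above level `m` -/
abbrev YY (s : M0) (m : ℤ) : Type := {v : M0 // RR s v ∧ m ≤ (pos v).1}

noncomputable def yE (s : M0) (m : ℤ) (x : Gen) : YY s m ≃. YY s m :=
  ofRel (fun v v' => v'.1 = v.1 * g x)
    (by
      intro v v1 v2 h1 h2
      exact Subtype.ext (h1.trans h2.symm))
    (by
      intro v v1 v2 h1 h2
      apply Subtype.ext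
      have r1 : RR v.1 (v.1 * g x) := h1 ▸ v.2.1.symm.trans v2.2.1
      have r2 : RR v1.1 (v1.1 * g x) := h2 ▸ v1.2.1.symm.trans v2.2.1
      rw [← back r1, ← back r2, ← h1, ← h2])

theorem mem_yE (s : M0) (m : ℤ) (x : Gen) (v v' : YY s m) : v' ∈ yE s m x v ↔ v'.1 = v.1 * g x :=
  mem_ofRel _ _ _ _ _

theorem pos_a {v : M0} (h : v * g a ≠ g z) : (pos (v * g a)).1 = (pos v).1 := by
  rw [pos_mul _ _ h]; rfl

theorem pos_t {v : M0} (h : v * g t ≠ g z) : (pos (v * g t)).1 = (pos v).1 + 1 := by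
  rw [pos_mul _ _ h]; rfl

theorem pos_p {v : M0} (h : v * g p ≠ g z) : pos (v * g p) = pos v := by
  rw [pos_mul _ _ h]; rfl

theorem yE_rel {s : M0} (hs : s ≠ g z) (m : ℤ) (u v : Word Gen) (h : (u, v) ∈ R0) :
    rho (yE s m) u = rho (yE s m) v := by
  refine pe_ext fun c d => ?_
  have nz : ∀ v : YY s m, v.1 ≠ g z := fun v => z_not hs v.2.1
  -- multiplication by `a`
  have ha : ∀ v : YY s m, ∃ v' : YY s m, v'.1 = v.1 * g a := by
    intro v
    have h1 : RR s (v.1 * g a) := v.2.1.trans (RR_a _)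
    exact ⟨⟨v.1 * g a, h1, by rw [pos_a (z_not hs h1)]; exact v.2.2⟩, rfl⟩
  have ht : ∀ v : YY s m, RR v.1 (v.1 * g t) → ∃ v' : YY s m, v'.1 = v.1 * g t := by
    intro v h
    have h1 : RR s (v.1 * g t) := v.2.1.trans h
    exact ⟨⟨v.1 * g t, h1, by rw [pos_t (z_not hs h1)]; have := v.2.2; omega⟩, rfl⟩
  rcases h with (h | h) | h
  · simp only [Set.mem_insert_iff, Set.mem_singleton_iff, Prod.mk.injEq] at h
    rcases h with ⟨rfl, rfl⟩ | ⟨rfl, rfl⟩ | ⟨rfl, rfl⟩ | ⟨rfl, rfl⟩ | ⟨rfl, rfl⟩ | ⟨rfl, rfl⟩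
    · rw [rho_one]
      simp only [mem_mul, mem_w, mem_w', mem_yE]
      constructor
      · rintro ⟨b, h1, h2⟩
        have : c = d := by
          apply Subtype.ext
          rw [← back (RR_a c.1), ← back (RR_a d.1), ← h1, ← h2]
        rw [this]; rfl
      · intro h
        have : c = d := by
          have h' : some c = some d := h
          exact Option.some.inj h'
        subst this
        obtain ⟨b, hb⟩ := ha c
        exact ⟨b, hb, hb⟩
    · simp only [mem_mul, mem_w, mem_w', mem_yE]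
      constructor
      · rintro ⟨b, h1, h2⟩
        obtain ⟨c1, hc1⟩ := ha c
        obtain ⟨c2, hc2⟩ := ha c1
        refine ⟨c2, ⟨c1, hc1, hc2⟩, ?_⟩
        rw [h2, h1, hc2, hc1, mul_assoc, rel_ta]; simp only [mul_assoc]
      · rintro ⟨b, ⟨b', h1, h2⟩, h3⟩
        have h4 : d.1 = c.1 * g t * g a := by
          rw [h3, h2, h1, mul_assoc _ (g t), rel_ta]; simp only [mul_assoc]
        have h5 : RR c.1 (c.1 * g t) := RR_prefix (n := g a) (h4 ▸ c.2.1.symm.trans d.2.1)
        obtain ⟨e, he⟩ := ht c h5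
        exact ⟨e, he, by rw [h4, he]⟩
    · simp only [mem_mul, mem_w, mem_w', mem_yE]
      constructor
      · intro h
        obtain ⟨c1, hc1⟩ := ha c
        exact ⟨c1, hc1, by rw [h, rel_b, hc1, mul_assoc]⟩
      · rintro ⟨b, h1, h2⟩
        rw [h2, h1, rel_b, mul_assoc]
    · simp only [mem_mul, mem_w, mem_w', mem_yE]
      constructor
      · rintro ⟨b, h1, h2⟩
        rw [h2, h1, mul_assoc, rel_p]
      · intro h
        exact ⟨d, h, by rw [h, mul_assoc, rel_p]⟩
    · simp only [mem_mul, mem_w, mem_w', mem_yE]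
      constructor
      · intro h
        have h1 : d.1 * g p = d.1 := by rw [h, mul_assoc, rel_p]
        have h2 : RR d.1 (d.1 * g t) := by
          apply RR_of_fix
          conv_lhs => rw [← h1, mul_assoc, ptt, h1]
        obtain ⟨e, he⟩ := ht d h2
        refine ⟨e, ⟨e, ⟨d, h, he⟩, ?_⟩, he⟩
        rw [he]
        calc d.1 * g t = d.1 * g p * g t := by rw [h1]
          _ = d.1 * (g p * g t * g p) := by rw [ptp, mul_assoc]
          _ = d.1 * g p * g t * g p := by simp only [mul_assoc]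
          _ = d.1 * g t * g p := by rw [h1]
      · rintro ⟨b1, ⟨b2, ⟨b3, h1, h2⟩, h3⟩, h4⟩
        have h5 : RR d.1 (d.1 * g t) := h4 ▸ d.2.1.symm.trans b1.2.1
        have h6 := back h5
        rw [← h4, h3, h2, h1] at h6
        rw [← h6]
        conv_rhs => rw [rel_ptp]
        simp only [mul_assoc]
    · simp only [mem_mul, mem_w, mem_w', mem_yE]
      constructor
      · rintro ⟨b1, ⟨b2, ⟨b3, ⟨b4, h1, h2⟩, h3⟩, h4⟩, h5⟩
        exfalso
        have r1 : RR c.1 (c.1 * g t) := h1 ▸ c.2.1.symm.trans b4.2.1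
        have r2 : RR b3.1 (b3.1 * g t) := h2 ▸ b3.2.1.symm.trans b4.2.1
        have r3 : RR b3.1 (b3.1 * g a * g t) := by
          rw [← h3, ← h4]; exact b3.2.1.symm.trans b1.2.1
        exact nz b3 (noadj_aux r2 r3)
      · intro h
        exfalso
        rw [zr] at h
        exact nz d h
  · obtain ⟨x, hx⟩ := h
    simp only [Prod.mk.injEq] at hx
    rw [← hx.1, ← hx.2]
    simp only [mem_mul, mem_w, mem_w', mem_yE]
    constructor
    · rintro ⟨b, h1, h2⟩; rw [zr] at h1; exact absurd h1 (nz b)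
    · intro h; rw [zr] at h; exact absurd h (nz d)
  · obtain ⟨x, hx⟩ := h
    simp only [Prod.mk.injEq] at hx
    rw [← hx.1, ← hx.2]
    simp only [mem_mul, mem_w, mem_w', mem_yE]
    constructor
    · rintro ⟨b, h1, h2⟩; rw [zr] at h2; exact absurd h2 (nz d)
    · intro h; rw [zr] at h; exact absurd h (nz d)

theorem rho_val {s : M0} (m : ℤ) (u : Word Gen) (v v' : YY s m) (h : v' ∈ rho (yE s m) u v) :
    v'.1 = v.1 * elt R0 u := by
  induction u using FreeMonoid.recOn generalizing v with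
  | one =>
    have : v = v' := Option.some.inj h
    rw [map_one, mul_one, this]
  | of_mul x u ih =>
    rw [rho_of_mul, PEquiv.mem_trans] at h
    obtain ⟨c, h1, h2⟩ := h
    rw [ih c h2, map_mul, ← mul_assoc]
    congr 1
    rcases x with ⟨x, e⟩
    cases e
    · have h1 : c ∈ (yE s m x).symm v := h1
      rw [PEquiv.mem_iff_mem, mem_yE] at h1
      have r : RR c.1 (c.1 * g x) := h1 ▸ c.2.1.symm.trans v.2.1
      have := back r
      rw [← h1, g_inv] at this
      exact this.symm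
    · have h1 : c ∈ yE s m x v := h1
      rw [mem_yE] at h1
      exact h1

theorem rho_path {s : M0} (u : Word Gen) (v : M0) (hv : RR s v) (h : RR v (v * elt R0 u)) :
    ∃ m0 : ℤ, ∀ m ≤ m0, ∃ (h1 : m ≤ (pos v).1) (v' : YY s m),
      v' ∈ rho (yE s m) u ⟨v, hv, h1⟩ := by
  induction u using FreeMonoid.recOn generalizing v with
  | one =>
    exact ⟨(pos v).1, fun m hm => ⟨hm, ⟨v, hv, hm⟩, rfl⟩⟩
  | of_mul x u ih =>
    rw [map_mul, ← mul_assoc] at h
    have h1 : RR v (v * elt R0 (FreeMonoid.of x)) := RR_prefix h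
    obtain ⟨m1, hm1⟩ := ih (v * elt R0 (FreeMonoid.of x)) (hv.trans h1) (h1.symm.trans h)
    refine ⟨min m1 (pos v).1, fun m hm => ⟨hm.trans (min_le_right _ _), ?_⟩⟩
    obtain ⟨h2, v', hv'⟩ := hm1 m (hm.trans (min_le_left _ _))
    refine ⟨v', ?_⟩
    rw [rho_of_mul, PEquiv.mem_trans]
    refine ⟨_, ?_, hv'⟩
    rcases x with ⟨x, e⟩
    cases e
    · show _ ∈ (yE s m x).symm _
      rw [PEquiv.mem_iff_mem, mem_yE]
      have := back h1
      show v = v * elt R0 (FreeMonoid.of (x, false)) * g x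
      rw [elt_inv, winv_of] at this
      exact this.symm
    · show _ ∈ yE s m x _
      rw [mem_yE]; rfl

theorem bdd {s : M0} (hs : s ≠ g z) : ∃ m : ℤ, ∀ v : M0, RR s v → m ≤ (pos v).1 := by
  obtain ⟨u, hu⟩ := elt_surj R0 s
  set e := s * s⁻¹ with he
  have ee : e * e = e := idem_mul_inv s
  have ei : e⁻¹ = e := idem_inv e ee
  have hes : e * s = s := by rw [he, reg]
  have r1 : RR s e := by
    show s * s⁻¹ = e * e⁻¹
    rw [ei, ee]
  have r2 : RR e (e * elt R0 u) := by rw [hu, hes]; exact r1.symm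
  obtain ⟨m, hm⟩ := rho_path u e r1 r2
  obtain ⟨h1, v', hv'⟩ := hm m le_rfl
  refine ⟨m, fun v hv => ?_⟩
  have r3 : RR e v := r1.symm.trans hv
  obtain ⟨u2, hu2⟩ := elt_surj R0 (e⁻¹ * v)
  have h2 : e * elt R0 u2 = v := by rw [hu2]; exact mul_of_RR r3
  have h3 : elt R0 (u * winv u) = e := by rw [map_mul, ← elt_inv, hu]
  have h4 : elt R0 (u * winv u * (u2 * winv u2)) = e := by
    rw [map_mul, h3, map_mul, ← elt_inv]
    exact fix_of_RR (by rw [h2]; exact r3)
  have h5 := rho_congr R0 (yE s m) (yE_rel hs m) (h3.trans h4.symm)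
  have h6 : (⟨e, r1, h1⟩ : YY s m) ∈ rho (yE s m) (u * winv u) ⟨e, r1, h1⟩ := by
    rw [rho_mul, rho_winv, mem_self]
    exact ⟨rfl, v', hv'⟩
  rw [h5, rho_mul, PEquiv.mem_trans] at h6
  obtain ⟨c, h7, h8⟩ := h6
  rw [rho_mul, rho_winv, mem_self] at h7
  have hc : c = ⟨e, r1, h1⟩ := by
    rw [rho_mul, rho_winv, mem_self] at h8
    exact h8.1.symm
  rw [rho_mul, rho_winv, mem_self] at h8
  obtain ⟨h9, d, hd⟩ := h8
  rw [hc] at hd
  have h10 := rho_val m u2 _ d hd
  have h11 : d.1 = v := h10.trans h2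
  rw [← h11]
  exact d.2.2

end Pool.Agent.Q281.BK
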