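import Pool.Agent.Q281.BK.Stm

set_option autoImplicit false

namespace Pool.Agent.Q281.BK

universe u

theorem walk_image {V : Type} {G : SimpleGraph V} {W : Type u} {T : SimpleGraph W} {f : V → W}
    (hT : T.Connected) (S : ℕ) (hS : ∀ u v, G.Adj u v → T.dist (f u) (f v) ≤ S) {x y : V}
    (w : G.Walk x y) : ∃ P : T.Walk (f x) (f y), ∀ m ∈ P.support, ∃ v ∈ w.support,
      T.dist (f v) m ≤ S := by
  classical
  induction w with
  | nil =>
    refine ⟨SimpleGraph.Walk.nil, ?_⟩
    intro m hm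
    simp only [SimpleGraph.Walk.support_nil, List.mem_singleton] at hm
    refine ⟨_, SimpleGraph.Walk.start_mem_support _, ?_⟩
    rw [hm, SimpleGraph.dist_self]; omega
  | @cons u v z hadj w ih =>
    obtain ⟨P, hP⟩ := ih
    obtain ⟨p, hp⟩ := hT.exists_walk_length_eq_dist (f u) (f v)
    refine ⟨p.append P, ?_⟩
    intro m hm
    rw [SimpleGraph.Walk.mem_support_append_iff] at hm
    rcases hm with hm | hm
    · refine ⟨u, by simp, ?_⟩
      have h1 := SimpleGraph.dist_le (p.takeUntil m hm)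
      have h2 := p.length_takeUntil_le_length hm
      have h3 := hS u v hadj
      omega
    · obtain ⟨v', h1, h2⟩ := hP m hm
      exact ⟨v', by rw [SimpleGraph.Walk.support_cons]; exact List.mem_cons_of_mem _ h1, h2⟩

theorem tree_mem {W : Type u} {T : SimpleGraph W} (hT : T.IsTree) {a b : W} (P : T.Walk a b)
    (Q : T.Walk a b) (hQ : Q.IsPath) (m : W) (hm : m ∈ Q.support) : m ∈ P.support := by
  classical
  have h1 : (⟨Q, hQ⟩ : T.Path a b) = ⟨P.bypass, P.bypass_isPath⟩ := hT.isAcyclic.path_unique _ _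
  have h2 : Q = P.bypass := congrArg Subtype.val h1
  rw [h2] at hm
  exact P.support_bypass_subset_support hm

theorem bot (V : Type) (G : SimpleGraph V) (W : Type u) (T : SimpleGraph W) (f : V → W)
    (_ : G.Connected) (hT : T.IsTree)
    (hf : QIEmb (fun x y => (G.dist x y : ℝ)) (fun x y => (T.dist x y : ℝ)) f) :
    ∃ Δ : ℕ, ∀ K : ℕ, ∃ B : ℕ, ∀ x y : V, B ≤ G.dist x y → ∀ w₁ w₂ : G.Walk x y,
    ∃ u ∈ w₁.support, ∃ v ∈ w₂.support, G.dist u v ≤ Δ ∧ K ≤ G.dist u x ∧ K ≤ G.dist u y := by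
  classical
  obtain ⟨L, C, hL, hC, hf⟩ := hf
  have hL0 : 0 < L := by linarith
  obtain ⟨S, hS⟩ := exists_nat_ge (L + C)
  have hS' : ∀ u v, G.Adj u v → T.dist (f u) (f v) ≤ S := by
    intro u v h
    have h1 := (hf u v).2
    have h2 : G.dist u v = 1 := SimpleGraph.dist_eq_one_iff_adj.2 h
    simp only [h2, Nat.cast_one, mul_one] at h1
    exact_mod_cast h1.trans hS
  obtain ⟨Δ, hΔ⟩ := exists_nat_ge (L * (2 * S + C))
  have hlow : ∀ u v, (G.dist u v : ℝ) ≤ L * ((T.dist (f u) (f v) : ℝ) + C) := by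
    intro u v
    have h1 := (hf u v).1
    have h2 : (G.dist u v : ℝ) / L ≤ (T.dist (f u) (f v) : ℝ) + C := by linarith
    rwa [div_le_iff₀ hL0, mul_comm] at h2
  refine ⟨Δ, fun K => ?_⟩
  obtain ⟨M, hM⟩ := exists_nat_ge (L * K + C + S)
  obtain ⟨B, hB⟩ := exists_nat_ge (L * (2 * M + C))
  refine ⟨B, ?_⟩
  intro x y hxy w₁ w₂
  obtain ⟨Q, hQ1, hQ2⟩ := hT.connected.exists_path_of_dist (f x) (f y)
  have hlen : 2 * M ≤ T.dist (f x) (f y) := by
    have h1 := hlow x y
    have h2 : (B : ℝ) ≤ G.dist x y := by exact_mod_cast hxy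
    have h3 : L * (2 * M + C) ≤ L * ((T.dist (f x) (f y) : ℝ) + C) := hB.trans (h2.trans h1)
    have h4 := le_of_mul_le_mul_left h3 hL0
    have h5 : (2 * M : ℝ) ≤ T.dist (f x) (f y) := by linarith
    exact_mod_cast h5
  set m := Q.getVert M with hm
  have hmQ : m ∈ Q.support := Q.getVert_mem_support M
  have d1 : T.dist (f x) m ≤ M := by
    have := SimpleGraph.dist_le (Q.take M)
    rw [SimpleGraph.Walk.take_length] at this
    exact this.trans (min_le_left _ _)
  have d2 : T.dist m (f y) ≤ Q.length - M := by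
    have := SimpleGraph.dist_le (Q.drop M)
    rwa [SimpleGraph.Walk.drop_length] at this
  have d3 := hT.connected.dist_triangle (u := f x) (v := m) (w := f y)
  have d4 : M ≤ T.dist (f x) m := by omega
  have d5 : M ≤ T.dist m (f y) := by omega
  have piece : ∀ w : G.Walk x y, ∃ v ∈ w.support, T.dist (f v) m ≤ S := by
    intro w
    obtain ⟨P, hP⟩ := walk_image hT.connected S hS' w
    exact hP m (tree_mem hT P Q hQ1 m hmQ)
  obtain ⟨u, hu1, hu2⟩ := piece w₁
  obtain ⟨v, hv1, hv2⟩ := piece w₂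
  refine ⟨u, hu1, v, hv1, ?_, ?_, ?_⟩
  · have h1 := hT.connected.dist_triangle (u := f u) (v := m) (w := f v)
    rw [SimpleGraph.dist_comm (u := m)] at h1
    have h2 : T.dist (f u) (f v) ≤ 2 * S := by omega
    have h3 : (T.dist (f u) (f v) : ℝ) ≤ 2 * S := by exact_mod_cast h2
    have h4 := hlow u v
    have h5 : L * ((T.dist (f u) (f v) : ℝ) + C) ≤ L * (2 * S + C) :=
      mul_le_mul_of_nonneg_left (by linarith) hL0.le
    exact_mod_cast h4.trans (h5.trans hΔ)
  · have h1 := hT.connected.dist_triangle (u := f x) (v := f u) (w := m)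
    have h2 : (M : ℝ) ≤ T.dist (f x) (f u) + S := by
      have : M ≤ T.dist (f x) (f u) + S := by omega
      exact_mod_cast this
    have h3 := (hf u x).2
    rw [SimpleGraph.dist_comm (u := f x)] at h2
    have h4 : L * K ≤ L * (G.dist u x : ℝ) := by linarith
    exact_mod_cast le_of_mul_le_mul_left h4 hL0
  · have h1 := hT.connected.dist_triangle (u := m) (v := f u) (w := f y)
    rw [SimpleGraph.dist_comm (u := m) (v := f u)] at h1
    have h2 : (M : ℝ) ≤ T.dist (f u) (f y) + S := by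
      have : M ≤ T.dist (f u) (f y) + S := by omega
      exact_mod_cast this
    have h3 := (hf u y).2
    have h4 : L * K ≤ L * (G.dist u y : ℝ) := by linarith
    exact_mod_cast le_of_mul_le_mul_left h4 hL0

end Pool.Agent.Q281.BK
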