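import Pool.Agent.Q281.BK.Stm

set_option autoImplicit false

namespace Pool.Agent.Q281.BK

open UpperHalfPlane

/-- the point `x + i` -/
noncomputable def hp (x : ℝ) : UpperHalfPlane := ⟨⟨x, 1⟩, by norm_num⟩

theorem dist_hp (x y : ℝ) : dist (hp x) (hp y) = 2 * Real.arsinh (|x - y| / 2) := by
  rw [UpperHalfPlane.dist_eq]
  have h1 : (hp x).im = 1 := rfl
  have h2 : (hp y).im = 1 := rfl
  rw [h1, h2]
  have h3 : dist ((hp x : UpperHalfPlane) : ℂ) (hp y) = |x - y| := by
    show dist (⟨x, 1⟩ : ℂ) ⟨y, 1⟩ = _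
    exact Complex.dist_of_im_eq (z := ⟨x, 1⟩) (w := ⟨y, 1⟩) rfl
  rw [h3]; norm_num

theorem arsinh_le_log (x : ℝ) (hx : 0 ≤ x) : Real.arsinh x ≤ Real.log (1 + 2 * x) := by
  unfold Real.arsinh
  apply Real.log_le_log (by positivity)
  have : √(1 + x ^ 2) ≤ 1 + x := by
    rw [Real.sqrt_le_left (by linarith)]
    nlinarith
  linarith

theorem hz : S_HZ := by
  rintro ⟨g, L, C, hL, hC, hg⟩
  have hL0 : 0 < L := by linarith
  set S : ℝ := 2 * Real.sinh (L * (C + 1) / 2) with hS
  have hS0 : 0 < S := by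
    have : 0 < L * (C + 1) / 2 := by positivity
    have := Real.sinh_pos_iff.2 this
    positivity
  have hS1 : 2 * Real.arsinh (S / 2) = L * (C + 1) := by
    rw [hS, mul_div_cancel_left₀ _ (by norm_num : (2 : ℝ) ≠ 0), Real.arsinh_sinh]; ring
  -- the values are different
  have hinj : ∀ j k : ℕ, j ≠ k → g (hp (j * S)) ≠ g (hp (k * S)) := by
    intro j k hjk heq
    have h1 := (hg (hp (j * S)) (hp (k * S))).1
    simp only at h1
    rw [heq, sub_self, abs_zero, dist_hp] at h1
    have h2 : (1 : ℝ) ≤ |(j : ℝ) - k| := by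
      have : (1 : ℤ) ≤ |(j : ℤ) - k| := Int.one_le_abs (by omega)
      exact_mod_cast this
    have h3 : S ≤ |(j : ℝ) * S - k * S| := by
      rw [← sub_mul, abs_mul, abs_of_pos hS0]
      nlinarith
    have h4 : Real.arsinh (S / 2) ≤ Real.arsinh (|(j : ℝ) * S - k * S| / 2) :=
      Real.arsinh_le_arsinh.2 (by linarith)
    have h5 : L * (C + 1) ≤ 2 * Real.arsinh (|(j : ℝ) * S - k * S| / 2) := by linarith
    have h6 : C + 1 ≤ 2 * Real.arsinh (|(j : ℝ) * S - k * S| / 2) / L := by
      rw [le_div_iff₀ hL0]; linarith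
    linarith
  -- the main inequality
  have hmain : ∀ N : ℕ, (N : ℝ) ≤ 4 * L * Real.log (1 + N * S) + 2 * C := by
    intro N
    set U : ℝ := 2 * L * Real.log (1 + N * S) + C with hU
    have hlog : 0 ≤ Real.log (1 + N * S) := Real.log_nonneg (by nlinarith [Nat.cast_nonneg (α := ℝ) N])
    have hU0 : 0 ≤ U := by positivity
    have hb : ∀ j : ℕ, j ≤ N → |((g (hp (j * S)) - g (hp 0) : ℤ) : ℝ)| ≤ U := by
      intro j hj
      have h1 := (hg (hp (j * S)) (hp 0)).2
      simp only at h1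
      rw [dist_hp, sub_zero, abs_of_nonneg (by positivity : (0 : ℝ) ≤ j * S)] at h1
      have h2 := arsinh_le_log ((j : ℝ) * S / 2) (by positivity)
      have h3 : Real.log (1 + 2 * ((j : ℝ) * S / 2)) ≤ Real.log (1 + N * S) := by
        apply Real.log_le_log (by positivity)
        have : (j : ℝ) ≤ N := by exact_mod_cast hj
        nlinarith
      push_cast
      have h4 : L * (2 * Real.arsinh ((j : ℝ) * S / 2)) ≤ L * (2 * Real.log (1 + N * S)) :=
        mul_le_mul_of_nonneg_left (by linarith) hL0.le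
      linarith
    have hcard : (Finset.range (N + 1)).card ≤ (Finset.Icc (-⌊U⌋) ⌊U⌋).card := by
      apply Finset.card_le_card_of_injOn (fun j : ℕ => g (hp (j * S)) - g (hp 0))
      · intro j hj
        have hj' : j ≤ N := by
          have := Finset.mem_range.1 (Finset.mem_coe.1 hj)
          omega
        have h1 := abs_le.1 (hb j hj')
        rw [Finset.mem_coe, Finset.mem_Icc]
        show -⌊U⌋ ≤ g (hp (j * S)) - g (hp 0) ∧ g (hp (j * S)) - g (hp 0) ≤ ⌊U⌋
        constructor
        · have : -(g (hp (j * S)) - g (hp 0)) ≤ ⌊U⌋ := Int.le_floor.2 (by push_cast at h1 ⊢; linarith)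
          omega
        · exact Int.le_floor.2 h1.2
      · intro j _ k _ hjk
        by_contra hne
        exact hinj j k hne (by
          have : g (hp (j * S)) - g (hp 0) = g (hp (k * S)) - g (hp 0) := hjk
          omega)
    rw [Finset.card_range, Int.card_Icc] at hcard
    have h2 : ((N : ℤ) : ℝ) ≤ 2 * U := by
      have h3 : (N : ℤ) ≤ 2 * ⌊U⌋ := by
        have : 0 ≤ ⌊U⌋ := Int.floor_nonneg.2 hU0
        omega
      have h4 : ((N : ℤ) : ℝ) ≤ ((2 * ⌊U⌋ : ℤ) : ℝ) := by exact_mod_cast h3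
      have h5 := Int.floor_le U
      push_cast at h4 ⊢
      linarith
    push_cast at h2
    rw [hU] at h2
    linarith
  have hε : 0 < 1 / (8 * L * S) := by positivity
  have hlo := Real.isLittleO_log_id_atTop.def hε
  obtain ⟨x0, hx0⟩ := Filter.eventually_atTop.1 hlo
  obtain ⟨N, hN⟩ := exists_nat_gt (max (x0 / S) (1 / S + 4 * C))
  have hN1 : x0 / S < N := (le_max_left _ _).trans_lt hN
  have hN2 : 1 / S + 4 * C < N := (le_max_right _ _).trans_lt hN
  have h1 : x0 ≤ 1 + N * S := by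
    rw [div_lt_iff₀ hS0] at hN1
    linarith
  have h2 := hx0 _ h1
  have h3 : (0 : ℝ) ≤ 1 + N * S := by positivity
  simp only [id, Real.norm_eq_abs] at h2
  rw [abs_of_nonneg h3] at h2
  have h4 := (le_abs_self _).trans h2
  have h5 := hmain N
  have h6 : 4 * L * Real.log (1 + N * S) ≤ 4 * L * (1 / (8 * L * S) * (1 + N * S)) :=
    mul_le_mul_of_nonneg_left h4 (by positivity)
  have h7 : 4 * L * (1 / (8 * L * S) * (1 + N * S)) = 1 / (2 * S) + N / 2 := by
    field_simp; ring
  have h8 : 1 / (2 * S) = 1 / S / 2 := by field_simp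
  rw [h7, h8] at h6
  linarith

end Pool.Agent.Q281.BK
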