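import Pool.Agent.Q281.BK.Stm

set_option autoImplicit false

namespace Pool.Agent.Q281.BK

theorem num_mono {A N : ℤ} {D : ℤ → ℤ} (h0 : ∀ H, 0 ≤ D H)
    (hh : ∀ H, A ≤ H → H < N → 2 * D (H + 1) ≤ D H + 1) (H : ℤ) (hA : A ≤ H) (n : ℕ)
    (hN : H + n ≤ N) : D (H + n) ≤ D H := by
  induction n with
  | zero => simp
  | succ n ih =>
    push_cast at hN ⊢
    have h1 := ih (by omega)
    have h2 := hh (H + n) (by omega) (by omega)
    have h3 := h0 (H + n)
    have h4 := h0 (H + n + 1)
    rw [← add_assoc]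
    omega

theorem num_pair (A N : ℤ) (hAN : A ≤ N) (D : ℤ → ℤ) (F : ℤ) (h0 : ∀ H, 0 ≤ D H)
    (hh : ∀ H, A ≤ H → H < N → 2 * D (H + 1) ≤ D H + 1)
    (hu : ∀ H, A ≤ H → H ≤ N → F ≤ 2 * H + D H) (hl : ∃ H, A ≤ H ∧ H ≤ N ∧ 2 * H + D H ≤ F) :
    ∃ h, A ≤ h ∧ h ≤ N ∧ (h < N → D h ≤ 5) ∧ (∀ H, A ≤ H → H < N → D H ≤ 5 → h ≤ H) ∧
      2 * h + D N ≤ F ∧ F ≤ 2 * h + D N + 5 := by
  classical
  have hex : ∃ n : ℕ, D (A + n) ≤ 5 ∨ A + n = N := by
    obtain ⟨n, hn⟩ := Int.eq_ofNat_of_zero_le (sub_nonneg.2 hAN)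
    exact ⟨n, Or.inr (by omega)⟩
  set m := Nat.find hex with hm
  have hspec := Nat.find_spec hex
  rw [← hm] at hspec
  have hmin : ∀ k : ℕ, k < m → ¬ (D (A + k) ≤ 5 ∨ A + k = N) := fun k hk => Nat.find_min hex hk
  have hmN : A + (m : ℤ) ≤ N := by
    obtain ⟨n, hn⟩ := Int.eq_ofNat_of_zero_le (sub_nonneg.2 hAN)
    have : m ≤ n := Nat.find_min' hex (Or.inr (by omega))
    omega
  have mono : ∀ H H', A ≤ H → H ≤ H' → H' ≤ N → D H' ≤ D H := by
    intro H H' h1 h2 h3
    obtain ⟨n, hn⟩ := Int.eq_ofNat_of_zero_le (sub_nonneg.2 h2)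
    have := num_mono h0 hh H h1 n (by omega)
    have e : H + (n : ℤ) = H' := by omega
    rwa [e] at this
  refine ⟨A + m, by omega, hmN, ?_, ?_, ?_, ?_⟩
  · intro h
    rcases hspec with h1 | h1
    · exact h1
    · omega
  · intro H h1 h2 h3
    obtain ⟨n, hn⟩ := Int.eq_ofNat_of_zero_le (sub_nonneg.2 h1)
    have e : H = A + n := by omega
    rw [e] at h3
    have : m ≤ n := Nat.find_min' hex (Or.inl h3)
    omega
  · obtain ⟨H, h1, h2, h3⟩ := hl
    by_cases hc : A + (m : ℤ) ≤ H
    · have := mono H N h1 h2 le_rfl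
      omega
    · have key : ∀ n : ℕ, H + n ≤ A + m → 2 * (H + n) + D (H + n) ≤ 2 * H + D H := by
        intro n
        induction n with
        | zero => simp
        | succ n ih =>
          intro hn
          push_cast at hn ⊢
          have i1 := ih (by omega)
          have i2 := hh (H + n) (by omega) (by omega)
          obtain ⟨k, hk⟩ := Int.eq_ofNat_of_zero_le (sub_nonneg.2 (show A ≤ H + n by omega))
          have i3 := hmin k (by omega)
          have e : A + (k : ℤ) = H + n := by omega
          rw [e, not_or, not_le] at i3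
          rw [← add_assoc H]
          omega
      obtain ⟨n, hn⟩ := Int.eq_ofNat_of_zero_le (sub_nonneg.2 (show H ≤ A + m by omega))
      have i1 := key n (by omega)
      have e : H + (n : ℤ) = A + m := by omega
      rw [e] at i1
      have := mono (A + m) N (by omega) hmN le_rfl
      omega
  · have h1 := hu (A + m) (by omega) hmN
    rcases hspec with h2 | h2
    · have := h0 N
      omega
    · rw [h2] at h1 ⊢
      omega

theorem num : S_NUM := by
  intro N a D F haN h0 hsym htri hhalf hline hFs hu hl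
  have hp : ∀ i j, ∃ h, max (a i) (a j) ≤ h ∧ h ≤ N ∧ (h < N → D i j h ≤ 5) ∧
      (∀ H, max (a i) (a j) ≤ H → H < N → D i j H ≤ 5 → h ≤ H) ∧
      2 * h + D i j N ≤ F i j ∧ F i j ≤ 2 * h + D i j N + 5 := by
    intro i j
    refine num_pair (max (a i) (a j)) N (max_le (haN i) (haN j)) (D i j) (F i j) (h0 i j) ?_ ?_ ?_
    · intro H h1 h2
      exact hhalf i j H ((le_max_left _ _).trans h1) ((le_max_right _ _).trans h1) h2
    · intro H h1 h2
      exact hu i j H ((le_max_left _ _).trans h1) ((le_max_right _ _).trans h1) h2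
    · obtain ⟨H, h1, h2, h3, h4⟩ := hl i j
      exact ⟨H, max_le h1 h2, h3, h4⟩
  choose h hA hN h5 hmin hlo hup using hp
  have mono : ∀ i j H H', a i ≤ H → a j ≤ H → H ≤ H' → H' ≤ N → D i j H' ≤ D i j H := by
    intro i j H H' h1 h1' h2 h3
    obtain ⟨n, hn⟩ := Int.eq_ofNat_of_zero_le (sub_nonneg.2 h2)
    have := num_mono (A := max (a i) (a j)) (N := N) (h0 i j)
      (fun H h1 h2 => hhalf i j H ((le_max_left _ _).trans h1) ((le_max_right _ _).trans h1) h2)
      H (max_le h1 h1') n (by omega)
    have e : H + (n : ℤ) = H' := by omega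
    rwa [e] at this
  have tri : ∀ i j k, h i k ≤ max (h i j) (h j k) + 1 := by
    intro i j k
    by_cases hm : N ≤ max (h i j) (h j k) + 1
    · exact (hN i k).trans hm
    · rw [not_le] at hm
      set m := max (h i j) (h j k) with hmdef
      have a1 : a i ≤ h i j := (le_max_left _ _).trans (hA i j)
      have a2 : a j ≤ h i j := (le_max_right _ _).trans (hA i j)
      have a3 : a k ≤ h j k := (le_max_right _ _).trans (hA j k)
      have a4 : a j ≤ h j k := (le_max_left _ _).trans (hA j k)
      have m1 : h i j ≤ m := le_max_left _ _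
      have m2 : h j k ≤ m := le_max_right _ _
      have d1 : D i j m ≤ 5 := (mono i j (h i j) m a1 a2 m1 (by omega)).trans (h5 i j (by omega))
      have d2 : D j k m ≤ 5 := (mono j k (h j k) m a4 a3 m2 (by omega)).trans (h5 j k (by omega))
      have d3 := htri i j k m (by omega) (by omega) (by omega) (by omega)
      have d4 := hhalf i k m (by omega) (by omega) (by omega)
      exact hmin i k (m + 1) (max_le (by omega) (by omega)) (by omega) (by omega)
  have symh : ∀ i j, h i j = h j i := by
    intro i j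
    have key : ∀ i j, h i j ≤ h j i := by
      intro i j
      by_cases hlt : h j i < N
      · exact hmin i j (h j i) (by rw [max_comm]; exact hA j i) hlt (by rw [hsym]; exact h5 j i hlt)
      · have := hN i j
        omega
    exact le_antisymm (key i j) (key j i)
  have lam : ∀ i j, h i j < N → D i j N ≤ 5 := by
    intro i j hlt
    exact (mono i j (h i j) N ((le_max_left _ _).trans (hA i j)) ((le_max_right _ _).trans (hA i j))
      (hN i j) le_rfl).trans (h5 i j hlt)
  -- the main inequality for a minimal cross pair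
  have main : ∀ i j k m : Fin 4, h i k ≤ h j m → h i k ≤ h i m → h i k ≤ h j k →
      (D i j N + D k m N ≤ max (D i k N + D j m N) (D i m N + D j k N)) →
      F i j + F k m ≤ max (F i k + F j m) (F i m + F j k) + 24 := by
    intro i j k m c1 c2 c3 c4
    by_cases hlt : h i k < N
    · have l1 := lam i k hlt
      have t1 := tri i k j
      have t2 := tri k i m
      rw [symh k j] at t1
      rw [symh k i] at t2
      rw [max_eq_right c3] at t1
      rw [max_eq_right c2] at t2
      have d1 := htri i k j N (haN i) (haN k) (haN j) le_rfl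
      have d2 := htri k i m N (haN k) (haN i) (haN m) le_rfl
      rw [hsym k j N] at d1
      rw [hsym k i N] at d2
      have u1 := hup i j
      have u2 := hup k m
      have v1 := hlo i m
      have v2 := hlo j k
      have : F i j + F k m ≤ F i m + F j k + 24 := by linarith
      exact this.trans (by have := le_max_right (F i k + F j m) (F i m + F j k); omega)
    · have e1 : h i k = N := le_antisymm (hN i k) (not_lt.1 hlt)
      have e2 : h j m = N := le_antisymm (hN j m) (by omega)
      have e3 : h i m = N := le_antisymm (hN i m) (by omega)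
      have e4 : h j k = N := le_antisymm (hN j k) (by omega)
      have u1 := hup i j
      have u2 := hup k m
      have w1 := hN i j
      have w2 := hN k m
      have v1 := hlo i k
      have v2 := hlo j m
      have v3 := hlo i m
      have v4 := hlo j k
      rw [e1] at v1
      rw [e2] at v2
      rw [e3] at v3
      rw [e4] at v4
      rcases le_max_iff.1 c4 with c | c
      · have : F i j + F k m ≤ F i k + F j m + 24 := by linarith
        exact this.trans (by have := le_max_left (F i k + F j m) (F i m + F j k); omega)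
      · have : F i j + F k m ≤ F i m + F j k + 24 := by linarith
        exact this.trans (by have := le_max_right (F i k + F j m) (F i m + F j k); omega)
  have s1 := symh 1 0
  by_cases k1 : h 0 2 ≤ h 1 3 ∧ h 0 2 ≤ h 0 3 ∧ h 0 2 ≤ h 1 2
  · exact main 0 1 2 3 k1.1 k1.2.1 k1.2.2 hline
  by_cases k2 : h 1 3 ≤ h 0 2 ∧ h 1 3 ≤ h 1 2 ∧ h 1 3 ≤ h 0 3
  · have := main 1 0 3 2 k2.1 k2.2.1 k2.2.2 (by
      rw [hsym 1 0, hsym 3 2, add_comm (D 1 3 N), add_comm (D 1 2 N)]; exact hline)
    rw [hFs 1 0, hFs 3 2, add_comm (F 1 3), add_comm (F 1 2)] at this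
    exact this
  by_cases k3 : h 0 3 ≤ h 1 2 ∧ h 0 3 ≤ h 0 2 ∧ h 0 3 ≤ h 1 3
  · have := main 0 1 3 2 k3.1 k3.2.1 k3.2.2 (by
      rw [hsym 3 2, max_comm]; exact hline)
    rw [hFs 3 2, max_comm] at this
    exact this
  by_cases k4 : h 1 2 ≤ h 0 3 ∧ h 1 2 ≤ h 1 3 ∧ h 1 2 ≤ h 0 2
  · have := main 1 0 2 3 k4.1 k4.2.1 k4.2.2 (by
      rw [hsym 1 0, max_comm, add_comm (D 1 3 N), add_comm (D 1 2 N)]; exact hline)
    rw [hFs 1 0, max_comm, add_comm (F 1 3), add_comm (F 1 2)] at this
    exact this
  exfalso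
  omega

end Pool.Agent.Q281.BK
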