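import Pool.Agent.Q281.BK.Tow2
import Pool.Agent.Q281.BK.Num

set_option autoImplicit false

namespace Pool.Agent.Q281.BK

theorem line4 (x y z w : ℤ) : |x - y| + |z - w| ≤ max (|x - z| + |y - w|) (|x - w| + |y - z|) := by
  rw [le_max_iff]
  rcases abs_cases (x - y) with ⟨h1, _⟩ | ⟨h1, _⟩ <;>
  rcases abs_cases (z - w) with ⟨h2, _⟩ | ⟨h2, _⟩ <;>
  rcases abs_cases (x - z) with ⟨h3, _⟩ | ⟨h3, _⟩ <;>
  rcases abs_cases (y - w) with ⟨h4, _⟩ | ⟨h4, _⟩ <;>
  rcases abs_cases (x - w) with ⟨h5, _⟩ | ⟨h5, _⟩ <;>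
  rcases abs_cases (y - z) with ⟨h6, _⟩ | ⟨h6, _⟩ <;>
  rw [h1, h2, h3, h4, h5, h6] <;> omega

theorem hyp {X : Type} {G : SimpleGraph X} {l : X → ℤ} {q : X → ℚ} (h : Tower G l q) :
    Hyp G 12 := by
  classical
  intro x y z w
  obtain ⟨hh1, hh2⟩ := half latt X G l q h
  let pts : Fin 4 → X := ![x, y, z, w]
  have hlow := fun i j => lowb_aux h (pts i) (pts j)
  choose c hc1 hc2 hc3 using hlow
  obtain ⟨⟨i0, j0⟩, _, hmax⟩ := Finset.exists_max_image (Finset.univ : Finset (Fin 4 × Fin 4))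
    (fun ij => l (c ij.1 ij.2)) ⟨(0, 0), Finset.mem_univ _⟩
  obtain ⟨i1, _, hmin⟩ := Finset.exists_min_image (Finset.univ : Finset (Fin 4))
    (fun i => l (pts i)) ⟨0, Finset.mem_univ _⟩
  set N := l (c i0 j0) with hN
  have hcN : ∀ i j, l (c i j) ≤ N := fun i j => hmax (i, j) (Finset.mem_univ _)
  have haN : ∀ i, l (pts i) ≤ N := fun i => (hc1 i i).trans (hcN i i)
  have hex : ∀ H, l (pts i1) ≤ H → H ≤ N → ∃ v, l v = H := fun H h1 h2 =>
    MID' h (pts i1) (c i0 j0) H h1 h2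
  let vH : ℤ → X := fun H => if h : ∃ v, l v = H then h.choose else x
  have hvH : ∀ H, (∃ i, l (pts i) ≤ H) → H ≤ N → l (vH H) = H := by
    rintro H ⟨i, hi⟩ h2
    have h3 : ∃ v, l v = H := hex H ((hmin i (Finset.mem_univ _)).trans hi) h2
    show l (if h : ∃ v, l v = H then h.choose else x) = H
    rw [dif_pos h3]
    exact h3.choose_spec
  have key := num N (fun i => l (pts i))
    (fun i j H => |P l q (vH H) (pts i) - P l q (vH H) (pts j)|)
    (fun i j => (G.dist (pts i) (pts j) : ℤ) + l (pts i) + l (pts j)) haN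
    (fun i j H => abs_nonneg _) (fun i j H => abs_sub_comm _ _)
    (fun i j k H _ _ _ _ => abs_sub_le _ _ _)
    (by
      intro i j H h1 h2 h3
      have e1 := hvH H ⟨i, h1⟩ (by omega)
      have e2 := hvH (H + 1) ⟨i, by omega⟩ (by omega)
      exact hh1 (vH H) (vH (H + 1)) (pts i) (pts j) (by rw [e1, e2]))
    (line4 _ _ _ _)
    (by
      intro i j
      rw [SimpleGraph.dist_comm]; ring)
    (by
      intro i j H h1 h2 h3
      have e1 := hvH H ⟨i, h1⟩ h3
      have := upb_aux h (pts i) (pts j) (vH H) (by omega) (by omega)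
      rw [e1] at this
      linarith)
    (by
      intro i j
      refine ⟨l (c i j), hc1 i j, hc2 i j, hcN i j, ?_⟩
      have e1 := hvH (l (c i j)) ⟨i, hc1 i j⟩ (hcN i j)
      have e2 := hh2 (c i j) (vH (l (c i j))) (pts i) (pts j) e1
      have e3 := hc3 i j
      rw [e2]
      linarith)
  have p0 : pts 0 = x := rfl
  have p1 : pts 1 = y := rfl
  have p2 : pts 2 = z := rfl
  have p3 : pts 3 = w := rfl
  rw [p0, p1, p2, p3] at key
  have key2 : (G.dist x y : ℤ) + G.dist z w ≤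
      max ((G.dist x z : ℤ) + G.dist y w) ((G.dist x w : ℤ) + G.dist y z) + 24 := by
    rcases le_total ((G.dist x z : ℤ) + G.dist y w) ((G.dist x w : ℤ) + G.dist y z) with h1 | h1
    · rw [max_eq_right h1]
      rw [max_eq_right (by linarith)] at key
      linarith
    · rw [max_eq_left h1]
      rw [max_eq_left (by linarith)] at key
      linarith
  have key3 : ((G.dist x y : ℝ)) + G.dist z w ≤
      max ((G.dist x z : ℝ) + G.dist y w) ((G.dist x w : ℝ) + G.dist y z) + 24 := by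
    exact_mod_cast key2
  linarith

end Pool.Agent.Q281.BK
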