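import Pool.Agent.Q281.BK.TreeT
import Pool.Agent.Q281.BK.HZ

set_option autoImplicit false

namespace Pool.Agent.Q281.BK

theorem sq_le_two_pow' (t : ℕ) (ht : 4 ≤ t) : t ^ 2 ≤ 2 ^ t := by
  induction t, ht using Nat.le_induction with
  | base => norm_num
  | succ t ht ih => rw [pow_succ 2 t]; nlinarith

theorem log_bound (L K : ℝ) (hL : 1 ≤ L) (hK : 0 ≤ K) (S : ℕ) : ∃ B : ℕ, ∀ n : ℕ,
    (n : ℝ) ≤ L * (K + 2 * ((Nat.log 2 (n * S) : ℕ) + 1 : ℝ)) → n ≤ B := by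
  have hL0 : 0 < L := by linarith
  set a : ℝ := S * L * (K + 2) with ha
  set b : ℝ := S * L * 2 with hb
  have ha0 : 0 ≤ a := by positivity
  have hb0 : 0 ≤ b := by positivity
  obtain ⟨T, hT⟩ := exists_nat_ge (max 4 (a + b + 1))
  obtain ⟨B, hB⟩ := exists_nat_ge (L * (K + 2 * (T + 1 : ℝ)))
  refine ⟨B, fun n hn => ?_⟩
  set t := Nat.log 2 (n * S) with ht
  have htT : t ≤ T := by
    by_contra hcon
    rw [not_le] at hcon
    have h1 : (T : ℝ) < t := by exact_mod_cast hcon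
    have h2 : 4 ≤ t := by
      have : (4 : ℝ) < t := ((le_max_left _ _).trans hT).trans_lt h1
      have : (4 : ℕ) < t := by exact_mod_cast this
      omega
    have h3 : a + b + 1 < t := ((le_max_right _ _).trans hT).trans_lt h1
    have h4 : n * S ≠ 0 := by
      intro h0
      rw [h0, Nat.log_zero_right] at ht
      omega
    have h5 : 2 ^ t ≤ n * S := Nat.pow_log_le_self 2 h4
    have h6 : ((t : ℝ)) ^ 2 ≤ n * S := by
      have := (sq_le_two_pow' t h2).trans h5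
      exact_mod_cast this
    have h7 : (n : ℝ) * S ≤ a + b * t := by
      calc (n : ℝ) * S ≤ L * (K + 2 * ((t : ℕ) + 1 : ℝ)) * S :=
            mul_le_mul_of_nonneg_right hn (Nat.cast_nonneg _)
        _ = a + b * t := by rw [ha, hb]; ring
    have h8 : (0 : ℝ) < t := by linarith
    nlinarith
  have h1 : (t : ℝ) ≤ T := by exact_mod_cast htT
  have h2 : (n : ℝ) ≤ B := by
    refine hn.trans (le_trans ?_ hB)
    apply mul_le_mul_of_nonneg_left _ hL0.le
    linarith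
  exact_mod_cast h2

variable {X : Type} {G : SimpleGraph X} {l : X → ℤ} {q : X → ℚ}

theorem q_short (h : Tower G l q) (s t : X) (S : ℕ) (hS : G.dist s t ≤ S) (H : ℤ) (hH : l s ≤ H) :
    |q t - q s| ≤ S * 2 ^ (H + S) := by
  obtain ⟨p, hp⟩ := h.conn.exists_walk_length_eq_dist s t
  have h1 := walk_q h p
  have h2 : (p.length : ℚ) ≤ S := by exact_mod_cast (hp ▸ hS)
  have h3 : (2 : ℚ) ^ (l s + p.length) ≤ 2 ^ (H + S) := by
    apply zpow_le_zpow_right₀ (by norm_num)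
    have : p.length ≤ S := hp ▸ hS
    omega
  refine h1.trans ?_
  exact mul_le_mul h2 h3 (by positivity) (by positivity)

theorem q_long (h : Tower G l q) (γ : ℤ → X) (S : ℕ) (hS : ∀ k, G.dist (γ k) (γ (k + 1)) ≤ S)
    (H : ℤ) (i : ℤ) (n : ℕ) (hl : ∀ k : ℕ, k < n → l (γ (i + k)) ≤ H) :
    |q (γ (i + n)) - q (γ i)| ≤ n * (S * 2 ^ (H + S)) := by
  induction n with
  | zero => simp
  | succ n ih =>
    have h1 := ih (fun k hk => hl k (by omega))
    have h2 := q_short h (γ (i + n)) (γ (i + n + 1)) S (hS _) H (hl n (by omega))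
    have h3 : |q (γ (i + n + 1)) - q (γ i)| ≤ |q (γ (i + n + 1)) - q (γ (i + n))| +
        |q (γ (i + n)) - q (γ i)| := abs_sub_le _ _ _
    push_cast
    rw [← add_assoc]
    linarith

theorem ceil_diff (x y : ℚ) (h : |x - y| ≤ 1) : |⌈x⌉ - ⌈y⌉| ≤ 2 := by
  have h1 := Int.ceil_lt_add_one x
  have h2 := Int.le_ceil x
  have h3 := Int.ceil_lt_add_one y
  have h4 := Int.le_ceil y
  rw [abs_le] at h ⊢
  constructor
  · have : (-2 : ℚ) ≤ ((⌈x⌉ - ⌈y⌉ : ℤ) : ℚ) := by push_cast; linarith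
    exact_mod_cast this
  · have : ((⌈x⌉ - ⌈y⌉ : ℤ) : ℚ) ≤ 2 := by push_cast; linarith
    exact_mod_cast this

theorem dist_long (h : Tower G l q) (hub : ∀ n : ℤ, ∃ s, n ≤ l s) (γ : ℤ → X) (S : ℕ)
    (hS : ∀ k, G.dist (γ k) (γ (k + 1)) ≤ S)
    (H : ℤ) (i : ℤ) (n : ℕ) (hl : ∀ k : ℕ, k < n → l (γ (i + k)) ≤ H)
    (h1 : l (γ i) ≤ H + S) (h2 : l (γ (i + n)) ≤ H + S) (N : ℕ) (hN : n * S ≤ 2 ^ N) :
    (G.dist (γ i) (γ (i + n)) : ℤ) ≤ 2 + 2 * (H + S + N) - l (γ i) - l (γ (i + n)) := by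
  obtain ⟨s, hs⟩ := hub (H + S + N)
  obtain ⟨c, hc⟩ := MID' h (γ i) s (H + S + N) (by omega) hs
  have h3 := upb_aux h (γ i) (γ (i + n)) c (by omega) (by omega)
  have h4 := q_long h γ S hS H i n hl
  have h5 : |P l q c (γ i) - P l q c (γ (i + n))| ≤ 2 := by
    apply ceil_diff
    have e : (q (γ i) - q c) / 2 ^ l c - (q (γ (i + n)) - q c) / 2 ^ l c =
        -((q (γ (i + n)) - q (γ i)) / 2 ^ l c) := by ring
    rw [e, abs_neg, abs_div, abs_of_pos (by positivity : (0 : ℚ) < 2 ^ l c), div_le_one (by positivity)]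
    refine h4.trans ?_
    rw [hc, zpow_add₀ (by norm_num) (H + S), zpow_natCast]
    have e2 : ((n : ℚ) * S) ≤ 2 ^ N := by exact_mod_cast hN
    calc (n : ℚ) * (S * 2 ^ (H + S)) = 2 ^ (H + S) * ((n : ℚ) * S) := by ring
      _ ≤ 2 ^ (H + S) * 2 ^ N := mul_le_mul_of_nonneg_left e2 (by positivity)
  rw [hc] at h3
  linarith

/-- one of the two sides of a bi-infinite quasi-geodesic -/
theorem side (h : Tower G l q) (m : ℤ) (hm : ∀ s, m ≤ l s) (hub : ∀ n : ℤ, ∃ s, n ≤ l s)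
    (γ : ℤ → X) (L C : ℝ) (hL : 1 ≤ L) (hC : 0 ≤ C) (S : ℕ)
    (hS : ∀ k, G.dist (γ k) (γ (k + 1)) ≤ S)
    (hlow : ∀ (i : ℤ) (n : ℕ), (n : ℝ) ≤ L * ((G.dist (γ i) (γ (i + n)) : ℝ) + C)) :
    ∃ B : ℕ, ∀ (n a b : ℕ), a ≤ n → (∀ k : ℕ, k ≤ n → l (γ (-k)) ≤ l (γ (-a))) →
      l (γ (-a)) ≤ l (γ b) → n ≤ B := by
  classical
  obtain ⟨B1, hB1⟩ := log_bound L (C + 2 + 2 * S) hL (by positivity) S
  set Hs : ℤ := l (γ 0) + S * B1 with hHs
  have hHs0 : m ≤ Hs := by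
    have := hm (γ 0)
    have : (0 : ℤ) ≤ S * B1 := by positivity
    omega
  obtain ⟨B2, hB2⟩ := log_bound L (C + 2 + 2 * ((Hs - m : ℤ) + S)) hL (by
    have : (0 : ℝ) ≤ ((Hs - m : ℤ) : ℝ) := by exact_mod_cast (by omega : (0 : ℤ) ≤ Hs - m)
    positivity) S
  refine ⟨B2, ?_⟩
  intro n a b' han hmax hab
  -- first passage on the right
  have hex : ∃ b : ℕ, l (γ (-a)) ≤ l (γ b) := ⟨b', hab⟩
  set b := Nat.find hex with hb
  have hb1 : l (γ (-a)) ≤ l (γ b) := Nat.find_spec hex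
  have hb2 : ∀ k : ℕ, k < b → l (γ k) < l (γ (-a)) := fun k hk => not_le.1 (Nat.find_min hex hk)
  have h00 : l (γ 0) ≤ l (γ (-a)) := by
    have := hmax 0 (by omega)
    simpa using this
  have hb3 : l (γ b) ≤ l (γ (-a)) + S := by
    rcases Nat.eq_zero_or_pos b with h0 | h0
    · rw [h0]; push_cast; omega
    · obtain ⟨b1, hb1'⟩ : ∃ b1, b = b1 + 1 := ⟨b - 1, by omega⟩
      have h1 := hb2 b1 (by omega)
      have h2 := lev_dist h (γ b1) (γ (b1 + 1))
      have h3 := hS b1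
      rw [abs_le] at h2
      rw [hb1']
      push_cast
      omega
  have hN : ∀ n : ℕ, n * S ≤ 2 ^ (Nat.log 2 (n * S) + 1) := fun n =>
    (Nat.lt_pow_succ_log_self (by norm_num) _).le
  have e1 : (-a : ℤ) + ((a + b : ℕ) : ℤ) = b := by push_cast; ring
  have hd := dist_long h hub γ S hS (l (γ (-a))) (-a) (a + b)
    (by
      intro k hk
      by_cases hka : k ≤ a
      · have h1 := hmax (a - k) (by omega)
        have e2 : (-a : ℤ) + k = -((a - k : ℕ) : ℤ) := by omega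
        rw [e2]; exact h1
      · have e2 : (-a : ℤ) + k = ((k - a : ℕ) : ℤ) := by omega
        rw [e2]
        exact (hb2 (k - a) (by omega)).le)
    (by omega) (by rw [e1]; exact hb3) _ (hN _)
  rw [e1] at hd
  have hl1 := hlow (-a) (a + b)
  rw [e1] at hl1
  have hd2 : (G.dist (γ (-a)) (γ b) : ℤ) ≤ 2 + 2 * S + 2 * (Nat.log 2 ((a + b) * S) + 1) := by
    push_cast at hd
    omega
  have hd3 : (G.dist (γ (-a)) (γ b) : ℝ) ≤ 2 + 2 * S + 2 * ((Nat.log 2 ((a + b) * S) : ℕ) + 1 : ℝ) := by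
    exact_mod_cast hd2
  have hab1 : a + b ≤ B1 := by
    apply hB1
    refine hl1.trans ?_
    apply mul_le_mul_of_nonneg_left _ (by linarith)
    linarith
  -- all levels on the left are bounded
  have hlv : ∀ k : ℕ, |l (γ (-k)) - l (γ 0)| ≤ k * S := by
    intro k
    induction k with
    | zero => simp
    | succ k ih =>
      have h1 := lev_dist h (γ (-(k + 1 : ℕ))) (γ (-(k + 1 : ℕ) + 1))
      have h2 := hS (-(k + 1 : ℕ))
      have e2 : (-(k + 1 : ℕ) : ℤ) + 1 = -k := by push_cast; ring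
      rw [e2] at h1 h2
      have h3 := abs_sub_le (l (γ (-(k + 1 : ℕ)))) (l (γ (-k))) (l (γ 0))
      have h4 : ((G.dist (γ (-(k + 1 : ℕ))) (γ (-k)) : ℕ) : ℤ) ≤ S := by exact_mod_cast h2
      push_cast at h1 h3 h4 ⊢
      linarith
  have hHa : l (γ (-a)) ≤ Hs := by
    have h1 := (abs_le.1 (hlv a)).2
    have h2 : (a : ℤ) * S ≤ S * B1 := by
      have : a ≤ B1 := by omega
      have : (a : ℤ) ≤ B1 := by exact_mod_cast this
      nlinarith
    omega
  have e3 : (-n : ℤ) + (n : ℤ) = 0 := by ring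
  have hd4 := dist_long h hub γ S hS Hs (-n) n
    (by
      intro k hk
      have h1 := hmax (n - k) (by omega)
      have e2 : (-n : ℤ) + k = -((n - k : ℕ) : ℤ) := by omega
      rw [e2]; omega)
    (by have := hmax n le_rfl; omega) (by rw [e3]; omega) _ (hN _)
  rw [e3] at hd4
  have hl2 := hlow (-n) n
  rw [e3] at hl2
  have hm1 := hm (γ (-n))
  have hm2 := hm (γ 0)
  have hd5 : (G.dist (γ (-n)) (γ 0) : ℤ) ≤ 2 + 2 * ((Hs - m) + S) + 2 * (Nat.log 2 (n * S) + 1) := by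
    push_cast at hd4
    omega
  have hd6 : (G.dist (γ (-n)) (γ 0) : ℝ) ≤ 2 + 2 * ((Hs - m : ℤ) + S) +
      2 * ((Nat.log 2 (n * S) : ℕ) + 1 : ℝ) := by
    exact_mod_cast hd5
  apply hB2
  refine hl2.trans ?_
  apply mul_le_mul_of_nonneg_left _ (by linarith)
  linarith

theorem ray (h : Tower G l q) (hm : ∃ m : ℤ, ∀ s, m ≤ l s) (hub : ∀ n : ℤ, ∃ s, n ≤ l s) :
    ¬ ∃ γ : ℤ → X, QIEmb (fun i j : ℤ => |(i : ℝ) - j|) (fun x y => (G.dist x y : ℝ)) γ := by
  classical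
  rintro ⟨γ, L, C, hL, hC, hγ⟩
  obtain ⟨m, hm⟩ := hm
  have hL0 : 0 < L := by linarith
  obtain ⟨S, hS⟩ := exists_nat_ge (L + C)
  have hS1 : ∀ k, G.dist (γ k) (γ (k + 1)) ≤ S := by
    intro k
    have h1 := (hγ k (k + 1)).2
    simp only at h1
    have h2 : |((k : ℤ) : ℝ) - ((k + 1 : ℤ) : ℝ)| = 1 := by push_cast; rw [sub_add_cancel_left]; simp
    rw [h2, mul_one] at h1
    exact_mod_cast h1.trans hS
  have hlow : ∀ (i : ℤ) (n : ℕ), (n : ℝ) ≤ L * ((G.dist (γ i) (γ (i + n)) : ℝ) + C) := by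
    intro i n
    have h1 := (hγ i (i + n)).1
    simp only at h1
    have h2 : |((i : ℤ) : ℝ) - ((i + n : ℤ) : ℝ)| = n := by
      push_cast; rw [sub_add_cancel_left, abs_neg, abs_of_nonneg (Nat.cast_nonneg _)]
    rw [h2] at h1
    have h3 : (n : ℝ) / L ≤ (G.dist (γ i) (γ (i + n)) : ℝ) + C := by linarith
    rwa [div_le_iff₀ hL0, mul_comm] at h3
  obtain ⟨B, hB⟩ := side h m hm hub γ L C hL hC S hS1 hlow
  -- the reflected path
  have hS2 : ∀ k, G.dist (γ (-k)) (γ (-(k + 1))) ≤ S := by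
    intro k
    have := hS1 (-(k + 1))
    rw [SimpleGraph.dist_comm] at this
    have e : -(k + 1) + 1 = -k := by ring
    rwa [e] at this
  have hlow2 : ∀ (i : ℤ) (n : ℕ), (n : ℝ) ≤ L * ((G.dist (γ (-i)) (γ (-(i + n))) : ℝ) + C) := by
    intro i n
    have := hlow (-(i + n)) n
    rw [SimpleGraph.dist_comm] at this
    have e : -(i + (n : ℤ)) + n = -i := by ring
    rwa [e] at this
  obtain ⟨B', hB'⟩ := side h m hm hub (fun k => γ (-k)) L C hL hC S hS2 hlow2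
  set n := max B B' + 1 with hn
  obtain ⟨a, ha, hamax⟩ := Finset.exists_max_image (Finset.range (n + 1)) (fun k : ℕ => l (γ (-k)))
    ⟨0, by simp⟩
  obtain ⟨b, hb, hbmax⟩ := Finset.exists_max_image (Finset.range (n + 1)) (fun k : ℕ => l (γ k))
    ⟨0, by simp⟩
  rw [Finset.mem_range] at ha hb
  rcases le_total (l (γ (-a))) (l (γ b)) with hc | hc
  · have := hB n a b (by omega) (fun k hk => hamax k (Finset.mem_range.2 (by omega))) hc
    have := le_max_left B B'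
    omega
  · have := hB' n b a (by omega) (by
      intro k hk
      have h1 := hbmax k (Finset.mem_range.2 (by omega))
      simpa using h1) (by simpa using hc)
    have := le_max_right B B'
    omega

/-- the point `i e^k` -/
noncomputable def vp (k : ℤ) : UpperHalfPlane := ⟨⟨0, Real.exp k⟩, Real.exp_pos _⟩

theorem dist_vp (j k : ℤ) : dist (vp j) (vp k) = |(j : ℝ) - k| := by
  rw [UpperHalfPlane.dist_of_re_eq (z := vp j) (w := vp k) rfl]
  have h1 : (vp j).im = Real.exp j := rfl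
  have h2 : (vp k).im = Real.exp k := rfl
  rw [h1, h2, Real.log_exp, Real.log_exp, Real.dist_eq]

theorem noh2 (h : Tower G l q) (hm : ∃ m : ℤ, ∀ s, m ≤ l s) : ¬ HasH2 G := by
  rintro ⟨f, L, C, hL, hC, hf⟩
  by_cases hub : ∀ n : ℤ, ∃ s, n ≤ l s
  · apply ray h hm hub
    refine ⟨fun k => f (vp k), L, C, hL, hC, ?_⟩
    intro j k
    have := hf (vp j) (vp k)
    simp only [dist_vp] at this
    exact this
  · obtain ⟨m, hm⟩ := hm
    push Not at hub
    obtain ⟨n, hn⟩ := hub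
    have hne : ∃ z : ℤ, ∃ s, l s = z := ⟨_, f (vp 0), rfl⟩
    obtain ⟨z, ⟨c, hc⟩, hzz⟩ := Int.exists_greatest_of_bdd (P := fun z => ∃ s, l s = z)
      ⟨n, by rintro z ⟨s, rfl⟩; exact (hn s).le⟩ hne
    have hcmax : ∀ s, l s ≤ l c := fun s => hc ▸ hzz _ ⟨s, rfl⟩
    have h0 : (0 : ℤ) ≤ l c - m := by have := hm c; omega
    have h0' : (0 : ℝ) ≤ ((l c - m : ℤ) : ℝ) := by exact_mod_cast h0
    apply hz
    refine ⟨fun x => P l q c (f x), L, C + 2 * ((l c - m : ℤ) : ℝ), hL, by positivity, ?_⟩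
    intro x y
    obtain ⟨h1, h2⟩ := hf x y
    have h3 : |P l q c (f x) - P l q c (f y)| ≤ (G.dist (f x) (f y) : ℤ) := by
      obtain ⟨p, hp⟩ := h.conn.exists_walk_length_eq_dist (f x) (f y)
      have h4 := lip_walk h p c (fun v _ => hcmax v)
      rw [← hp]
      have := abs_nonneg (l (f x) - l (f y))
      linarith
    have h4 : (G.dist (f x) (f y) : ℤ) ≤ |P l q c (f x) - P l q c (f y)| + 2 * (l c - m) := by
      have h5 := upb_aux h (f x) (f y) c (hcmax _) (hcmax _)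
      have h6 := hm (f x)
      have h7 := hm (f y)
      linarith
    have h3' : |((P l q c (f x) : ℤ) : ℝ) - ((P l q c (f y) : ℤ) : ℝ)| ≤ (G.dist (f x) (f y) : ℝ) := by
      exact_mod_cast h3
    have h4' : (G.dist (f x) (f y) : ℝ) ≤
        |((P l q c (f x) : ℤ) : ℝ) - ((P l q c (f y) : ℤ) : ℝ)| + 2 * ((l c - m : ℤ) : ℝ) := by
      exact_mod_cast h4
    constructor
    · show dist x y / L - (C + 2 * ((l c - m : ℤ) : ℝ)) ≤ |((P l q c (f x) : ℤ) : ℝ) - (P l q c (f y) : ℤ)|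
      linarith
    · show |((P l q c (f x) : ℤ) : ℝ) - (P l q c (f y) : ℤ)| ≤ L * dist x y + (C + 2 * ((l c - m : ℤ) : ℝ))
      linarith

end Pool.Agent.Q281.BK
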