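import Pool.Agent.Q281.BK.Stm

set_option autoImplicit false

namespace Pool.Agent.Q281.BK

section
variable {X : Type} {G : SimpleGraph X} {A : X → X} {T : X → X → Prop} {l : X → ℤ} {q : X → ℚ}

def EE (A : X → X) (u v : X) : Prop := ∃ n, v = A^[n] u ∨ u = A^[n] v

theorem EE.refl (u : X) : EE A u u := ⟨0, Or.inl rfl⟩
theorem EE.symm {u v : X} (h : EE A u v) : EE A v u := by
  obtain ⟨n, h | h⟩ := h
  · exact ⟨n, Or.inr h⟩
  · exact ⟨n, Or.inl h⟩

theorem iter_inj (hA : Function.Injective A) {n m : ℕ} {u v : X} (hnm : n ≤ m)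
    (h : A^[n] u = A^[m] v) : u = A^[m - n] v := by
  have e : m = n + (m - n) := by omega
  rw [e, Function.iterate_add_apply] at h
  exact (hA.iterate n) h

theorem EE.trans (hA : Function.Injective A) {u v w : X} (h : EE A u v) (h' : EE A v w) :
    EE A u w := by
  obtain ⟨n, h | h⟩ := h <;> obtain ⟨m, h' | h'⟩ := h'
  · exact ⟨m + n, Or.inl (by rw [h', h, Function.iterate_add_apply])⟩
  · rcases le_total n m with hnm | hnm
    · exact ⟨m - n, Or.inr (iter_inj hA hnm (h.symm.trans h'))⟩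
    · exact ⟨n - m, Or.inl (iter_inj hA hnm (h'.symm.trans h))⟩
  · rcases le_total n m with hnm | hnm
    · refine ⟨m - n, Or.inl ?_⟩
      rw [h', h, ← Function.iterate_add_apply, Nat.sub_add_cancel hnm]
    · refine ⟨n - m, Or.inr ?_⟩
      rw [h', h, ← Function.iterate_add_apply, Nat.sub_add_cancel hnm]
  · exact ⟨n + m, Or.inr (by rw [h, h', Function.iterate_add_apply])⟩

theorem fwdn (h : Loc G A T l q) {s s' : X} (hs : T s s') (n : ℕ) :
    T (A^[2 * n] s) (A^[n] s') := by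
  induction n with
  | zero => exact hs
  | succ n ih =>
    rw [show 2 * (n + 1) = (2 * n + 1) + 1 by ring, Function.iterate_succ_apply',
      Function.iterate_succ_apply', Function.iterate_succ_apply']
    exact h.fwd _ _ ih

theorem bwdn (h : Loc G A T l q) {s s'' : X} (n : ℕ) (hs : T (A^[2 * n] s) s'') :
    ∃ s', T s s' := by
  induction n generalizing s'' with
  | zero => exact ⟨_, hs⟩
  | succ n ih =>
    rw [show 2 * (n + 1) = (2 * n + 1) + 1 by ring, Function.iterate_succ_apply',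
      Function.iterate_succ_apply'] at hs
    obtain ⟨s', hs'⟩ := h.bwd _ _ hs
    exact ih hs'

theorem up_unique1 (h : Loc G A T l q) {u u' v' : X} (n : ℕ) (hu : T u u')
    (hv : T (A^[n] u) v') : ∃ m, v' = A^[m] u' := by
  rcases Nat.even_or_odd' n with ⟨m, rfl | rfl⟩
  · exact ⟨m, h.Tfun _ _ _ hv (fwdn h hu m)⟩
  · exfalso
    rw [Function.iterate_succ_apply'] at hv
    exact h.noadj _ _ _ (fwdn h hu m) hv

theorem up_unique (h : Loc G A T l q) {u u' v v' : X} (hu : T u u') (hv : T v v')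
    (huv : EE A u v) : EE A u' v' := by
  obtain ⟨n, rfl | rfl⟩ := huv
  · obtain ⟨m, hm⟩ := up_unique1 h n hu hv
    exact ⟨m, Or.inl hm⟩
  · obtain ⟨m, hm⟩ := up_unique1 h n hv hu
    exact ⟨m, Or.inr hm⟩

theorem down_unique (h : Loc G A T l q) {u u' v v' : X} (hu : T u u') (hv : T v v')
    (huv : EE A u' v') : EE A u v := by
  obtain ⟨n, rfl | rfl⟩ := huv
  · exact ⟨2 * n, Or.inl (h.Tinj _ _ _ hv (fwdn h hu n))⟩
  · exact ⟨2 * n, Or.inr (h.Tinj _ _ _ hu (fwdn h hv n))⟩

/-- `v` is `j` levels above `u` -/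
def RL (A : X → X) (T : X → X → Prop) : ℕ → X → X → Prop
  | 0, u, v => EE A u v
  | j + 1, u, v => ∃ w w', RL A T j u w ∧ T w w' ∧ EE A w' v

theorem RL_right (h : Loc G A T l q) {j : ℕ} {u v v' : X} (h1 : RL A T j u v) (h2 : EE A v v') :
    RL A T j u v' := by
  cases j with
  | zero => exact EE.trans h.Ainj h1 h2
  | succ j =>
    obtain ⟨w, w', a1, a2, a3⟩ := h1
    exact ⟨w, w', a1, a2, EE.trans h.Ainj a3 h2⟩

theorem RL_left (h : Loc G A T l q) {j : ℕ} {u u' v : X} (h1 : RL A T j u v) (h2 : EE A u u') :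
    RL A T j u' v := by
  induction j generalizing v with
  | zero => exact EE.trans h.Ainj h2.symm h1
  | succ j ih =>
    obtain ⟨w, w', a1, a2, a3⟩ := h1
    exact ⟨w, w', ih a1, a2, a3⟩

theorem RL_head (h : Loc G A T l q) {j : ℕ} {u v : X} :
    RL A T (j + 1) u v ↔ ∃ w w', EE A u w ∧ T w w' ∧ RL A T j w' v := by
  induction j generalizing v with
  | zero => exact Iff.rfl
  | succ j ih =>
    constructor
    · rintro ⟨w, w', a1, a2, a3⟩
      obtain ⟨x, x', b1, b2, b3⟩ := ih.1 a1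
      exact ⟨x, x', b1, b2, w, w', b3, a2, a3⟩
    · rintro ⟨x, x', b1, b2, w, w', b3, a2, a3⟩
      exact ⟨w, w', ih.2 ⟨x, x', b1, b2, b3⟩, a2, a3⟩

theorem RL_lev (h : Loc G A T l q) {j : ℕ} {u v : X} (h1 : RL A T j u v) :
    l v = l u + j := by
  have hE : ∀ u v, EE A u v → l v = l u := by
    have hit : ∀ n u, l (A^[n] u) = l u := by
      intro n
      induction n with
      | zero => intro u; rfl
      | succ n ih => intro u; rw [Function.iterate_succ_apply', h.lA, ih]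
    rintro u v ⟨n, rfl | rfl⟩
    · exact hit n u
    · exact (hit n v).symm
  induction j generalizing v with
  | zero => rw [hE u v h1]; simp
  | succ j ih =>
    obtain ⟨w, w', a1, a2, a3⟩ := h1
    rw [hE _ _ a3, h.lT _ _ a2, ih a1]; push_cast; ring

theorem EE_q (h : Loc G A T l q) {u v : X} (h1 : EE A u v) : ∃ m : ℤ, q v = q u + m * 2 ^ l u ∧
    (m = 0 → u = v) := by
  have hit : ∀ n u, l (A^[n] u) = l u ∧ q (A^[n] u) = q u + n * 2 ^ l u := by
    intro n
    induction n with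
    | zero => intro u; exact ⟨rfl, by simp⟩
    | succ n ih =>
      intro u
      rw [Function.iterate_succ_apply', h.lA, h.qA, (ih u).1, (ih u).2]
      refine ⟨rfl, ?_⟩
      push_cast; ring
  obtain ⟨n, rfl | rfl⟩ := h1
  · refine ⟨n, by rw [(hit n u).2]; push_cast; ring, ?_⟩
    intro h0
    have : n = 0 := by exact_mod_cast h0
    subst this; rfl
  · refine ⟨-n, by rw [(hit n v).2, (hit n v).1]; push_cast; ring, ?_⟩
    intro h0
    have : n = 0 := by omega
    subst this; rfl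

def Rel2 (A : X → X) (T : X → X → Prop) (u v : X) : Prop :=
  (∃ j, RL A T j u v) ∨ ∃ j, RL A T j v u

theorem rel2_E (h : Loc G A T l q) {u v v' : X} (h1 : Rel2 A T u v) (h2 : EE A v v') :
    Rel2 A T u v' := by
  rcases h1 with ⟨j, h1⟩ | ⟨j, h1⟩
  · exact Or.inl ⟨j, RL_right h h1 h2⟩
  · exact Or.inr ⟨j, RL_left h h1 h2⟩

theorem rel2_up (h : Loc G A T l q) {u v v' : X} (h1 : Rel2 A T u v) (h2 : T v v') :
    Rel2 A T u v' := by
  rcases h1 with ⟨j, h1⟩ | ⟨j, h1⟩
  · exact Or.inl ⟨j + 1, v, v', h1, h2, EE.refl _⟩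
  · cases j with
    | zero => exact Or.inl ⟨1, v, v', EE.symm h1, h2, EE.refl _⟩
    | succ j =>
      obtain ⟨w, w', a1, a2, a3⟩ := (RL_head h).1 h1
      exact Or.inr ⟨j, RL_left h a3 (up_unique h a2 h2 a1.symm)⟩

theorem rel2_down (h : Loc G A T l q) {u v v' : X} (h1 : Rel2 A T u v) (h2 : T v' v) :
    Rel2 A T u v' := by
  rcases h1 with ⟨j, h1⟩ | ⟨j, h1⟩
  · cases j with
    | zero => exact Or.inr ⟨1, (RL_head h).2 ⟨v', v, EE.refl _, h2, EE.symm h1⟩⟩
    | succ j =>
      obtain ⟨w, w', a1, a2, a3⟩ := h1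
      exact Or.inl ⟨j, RL_right h a1 (down_unique h a2 h2 a3)⟩
  · exact Or.inr ⟨j + 1, (RL_head h).2 ⟨v', v, EE.refl _, h2, h1⟩⟩

theorem EE_A (u : X) : EE A u (A u) := ⟨1, Or.inl rfl⟩

theorem rel2_adj (h : Loc G A T l q) {u v v' : X} (h1 : Rel2 A T u v) (h2 : G.Adj v v') :
    Rel2 A T u v' := by
  rcases ((h.adj v v').1 h2).2 with h3 | h3 | h3 | h3 | h3 | h3
  · exact rel2_E h h1 (h3 ▸ EE_A v)
  · exact rel2_E h h1 (EE.symm (h3 ▸ EE_A v'))
  · exact rel2_up h h1 h3
  · exact rel2_down h h1 h3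
  · exact rel2_up h (rel2_E h h1 (EE_A v)) h3
  · exact rel2_E h (rel2_down h h1 h3) (EE.symm (EE_A v'))

theorem rel2_all (h : Loc G A T l q) (u v : X) : Rel2 A T u v := by
  obtain ⟨p⟩ := h.conn.preconnected u v
  have key : ∀ {a b : X} (_ : G.Walk a b), Rel2 A T u a → Rel2 A T u b := by
    intro a b p
    induction p with
    | nil => exact fun h => h
    | cons hadj _ ih => exact fun h1 => ih (rel2_adj h h1 hadj)
  exact key p (Or.inl ⟨0, EE.refl u⟩)

theorem EE_of_lev (h : Loc G A T l q) {u v : X} (huv : l u = l v) : EE A u v := by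
  rcases rel2_all h u v with ⟨j, h1⟩ | ⟨j, h1⟩
  · have := RL_lev h h1
    have : j = 0 := by omega
    subst this; exact h1
  · have := RL_lev h h1
    have : j = 0 := by omega
    subst this; exact EE.symm h1

end

theorem tow : S_TOW := by
  intro X G A T l q h
  refine ⟨h.conn, ?_, ?_, ?_, ?_, ?_⟩
  · intro s t h1 h2
    obtain ⟨m, h3, h4⟩ := EE_q h (EE_of_lev h h1)
    apply h4
    have h5 : (m : ℚ) * 2 ^ l s = 0 := by linarith
    have h6 : (2 : ℚ) ^ l s ≠ 0 := by positivity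
    have h7 : (m : ℚ) = 0 := by
      rcases mul_eq_zero.1 h5 with h | h
      · exact h
      · exact absurd h h6
    exact_mod_cast h7
  · have key : ∀ s t, (t = A s ∨ T s t ∨ T (A s) t) → Edge (l s) (q s) (l t) (q t) := by
      rintro s t (h1 | h1 | h1)
      · left; rw [h1]; exact ⟨h.lA s, h.qA s⟩
      · right; exact ⟨h.lT _ _ h1, Or.inl (h.qT _ _ h1)⟩
      · right
        refine ⟨by rw [h.lT _ _ h1, h.lA], Or.inr (by rw [h.qT _ _ h1, h.qA])⟩
    intro s t hst
    rcases ((h.adj s t).1 hst).2 with h3 | h3 | h3 | h3 | h3 | h3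
    · exact Or.inl (key _ _ (Or.inl h3))
    · exact Or.inr (key _ _ (Or.inl h3))
    · exact Or.inl (key _ _ (Or.inr (Or.inl h3)))
    · exact Or.inr (key _ _ (Or.inr (Or.inl h3)))
    · exact Or.inl (key _ _ (Or.inr (Or.inr h3)))
    · exact Or.inr (key _ _ (Or.inr (Or.inr h3)))
  · intro s
    refine ⟨A s, (h.adj _ _).2 ⟨?_, Or.inl rfl⟩, h.lA s, h.qA s⟩
    intro h1
    have h2 := h.qA s
    rw [← h1] at h2
    have h3 : (2 : ℚ) ^ l s > 0 := by positivity
    linarith
  · intro s t h1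
    obtain ⟨m, h3, _⟩ := EE_q h (EE_of_lev h h1)
    exact ⟨m, h3⟩
  · intro s t h1
    have hne : ∀ s', l s' = l s + 1 → s ≠ s' := by
      rintro s' h2 rfl
      omega
    have case1 : ∀ s', T s s' → ∃ s', G.Adj s s' ∧ l s' = l s + 1 ∧
        (q s' = q s ∨ q s' = q s + 2 ^ l s) := by
      intro s' h2
      have h3 := h.lT _ _ h2
      exact ⟨s', (h.adj _ _).2 ⟨hne s' h3, Or.inr (Or.inr (Or.inl h2))⟩, h3, Or.inl (h.qT _ _ h2)⟩
    have case2 : ∀ s', T (A s) s' → ∃ s', G.Adj s s' ∧ l s' = l s + 1 ∧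
        (q s' = q s ∨ q s' = q s + 2 ^ l s) := by
      intro s' h2
      have h3 : l s' = l s + 1 := by rw [h.lT _ _ h2, h.lA]
      exact ⟨s', (h.adj _ _).2 ⟨hne s' h3, Or.inr (Or.inr (Or.inr (Or.inr (Or.inl h2))))⟩, h3,
        Or.inr (by rw [h.qT _ _ h2, h.qA])⟩
    rcases rel2_all h s t with ⟨j, h2⟩ | ⟨j, h2⟩
    · have h3 := RL_lev h h2
      have h4 : j = 1 := by omega
      subst h4
      obtain ⟨w, w', a1, a2, _⟩ := h2
      obtain ⟨n, a1 | a1⟩ := a1
      · rcases Nat.even_or_odd' n with ⟨m, rfl | rfl⟩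
        · rw [a1] at a2
          obtain ⟨s', hs'⟩ := bwdn h m a2
          exact case1 s' hs'
        · rw [a1] at a2
          rw [Function.iterate_succ_apply] at a2
          obtain ⟨s', hs'⟩ := bwdn h m a2
          exact case2 s' hs'
      · rcases Nat.even_or_odd' n with ⟨m, rfl | rfl⟩
        · have := fwdn h a2 m
          rw [← a1] at this
          exact case1 _ this
        · have := fwdn h a2 (m + 1)
          rw [show 2 * (m + 1) = (2 * m + 1) + 1 by ring, Function.iterate_succ_apply' A (2 * m + 1),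
            ← a1] at this
          exact case2 _ this
    · have h3 := RL_lev h h2
      omega

end Pool.Agent.Q281.BK
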