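import Pool.Agent.Q281.BK.Alg5
import Pool.Agent.Q281.BK.TowT
import Pool.Agent.Q281.BK.HypT
import Pool.Agent.Q281.BK.Ray

set_option autoImplicit false

namespace Pool.Agent.Q281.BK

open Gen WInv

universe u

theorem hyp_all (s : M0) : Hyp (Sch R0 s) 12 := by
  by_cases hs : s = g z
  · subst hs
    intro x y z' w'
    rw [z_comp x y, z_comp z' y, z_comp w' y]
    simp
  · exact hyp (tow _ _ _ _ _ _ (loc hs))

theorem noh2_all (s : M0) : ¬ HasH2 (Sch R0 s) := by
  by_cases hs : s = g z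
  · subst hs
    rintro ⟨f, L, C, hL, hC, hf⟩
    have hL0 : 0 < L := by linarith
    obtain ⟨n, hn⟩ := exists_nat_gt (L * C)
    have h1 := (hf (vp n) (vp 0)).1
    simp only [dist_vp] at h1
    rw [z_comp (f (vp n)) (f (vp 0)), SimpleGraph.dist_self] at h1
    have h2 : |((n : ℤ) : ℝ) - ((0 : ℤ) : ℝ)| = n := by
      push_cast; rw [sub_zero, abs_of_nonneg (Nat.cast_nonneg _)]
    rw [h2] at h1
    have h3 : (n : ℝ) / L ≤ C := by push_cast at h1; linarith
    rw [div_le_iff₀ hL0] at h3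
    linarith
  · refine noh2 (tow _ _ _ _ _ _ (loc hs)) ?_
    obtain ⟨m, hm⟩ := bdd hs
    exact ⟨m, fun v => hm v.1 v.rr⟩

theorem not_tree : ¬ QITree.{u} (Sch R0 (g p)) := by
  have hT := tow _ _ _ _ _ _ (loc p_ne_z)
  have hl : ∀ i, lv (chain (i + 1)) = lv (chain i) + 1 := fun i => (loc p_ne_z).lT _ _ (chain_T i)
  refine tree_not hT chain ?_ ?_ ?_
  · intro i
    rw [(loc p_ne_z).adj]
    refine ⟨?_, Or.inr (Or.inr (Or.inl (chain_T i)))⟩
    intro h
    have := hl i
    rw [← h] at this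
    omega
  · intro i
    induction i with
    | zero => simp
    | succ i ih => rw [hl, ih]; push_cast; ring
  · intro i
    induction i with
    | zero => rfl
    | succ i ih => rw [(loc p_ne_z).qT _ _ (chain_T i), ih]

end Pool.Agent.Q281.BK
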