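import Mathlib

/-!
# Inverse monoid presentations and Schuetzenberger graphs
-/

set_option autoImplicit false

namespace Pool.Agent.Q281.BK

/-- Words over `A ∪ A⁻¹`; `(a, true)` stands for `a` and `(a, false)` for `a⁻¹`. -/
abbrev Word (A : Type) : Type := FreeMonoid (A × Bool)

/-- The formal inverse of a word. -/
def winv {A : Type} (w : Word A) : Word A :=
  FreeMonoid.ofList ((FreeMonoid.toList w).map (fun x => (x.1, !x.2))).reverse

/-- The defining relations of `Inv⟨A | R⟩`: the relations `R` and Wagner's relations. -/
inductive Rel {A : Type} (R : Set (Word A × Word A)) : Word A → Word A → Prop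
  | of (u v : Word A) (h : (u, v) ∈ R) : Rel R u v
  | reg (u : Word A) : Rel R (u * winv u * u) u
  | comm (u v : Word A) : Rel R (u * winv u * (v * winv v)) (v * winv v * (u * winv u))

/-- The inverse monoid `Inv⟨A | R⟩`. -/
def InvPres {A : Type} (R : Set (Word A × Word A)) : Type := (conGen (Rel R)).Quotient

instance {A : Type} (R : Set (Word A × Word A)) : Monoid (InvPres R) :=
  inferInstanceAs (Monoid (conGen (Rel R)).Quotient)

/-- The element of `Inv⟨A | R⟩` represented by a word. -/
def elt {A : Type} (R : Set (Word A × Word A)) : Word A →* InvPres R := (conGen (Rel R)).mk'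

/-- An edge of the Cayley graph: `t = s x` for a letter `x ∈ A ∪ A⁻¹`. -/
def Step {A : Type} (R : Set (Word A × Word A)) (s t : InvPres R) : Prop :=
  ∃ x : A × Bool, t = s * elt R (FreeMonoid.of x)

/-- The strongly connected component of `s` in the Cayley graph. -/
def SchComp {A : Type} (R : Set (Word A × Word A)) (s : InvPres R) : Type :=
  {t : InvPres R // Relation.ReflTransGen (Step R) s t ∧ Relation.ReflTransGen (Step R) t s}

/-- The Schuetzenberger graph of `s`. -/
def Sch {A : Type} (R : Set (Word A × Word A)) (s : InvPres R) : SimpleGraph (SchComp R s) :=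
  SimpleGraph.fromRel (fun u v => Step R u.1 v.1)

/-- `M` is an inverse monoid. -/
def IsInverse (M : Type) [Monoid M] : Prop := ∀ s : M, ∃! t : M, s * t * s = s ∧ t * s * t = t

end Pool.Agent.Q281.BK
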