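import Pool.Agent.Q281.BK.Def

/-!
# Project BK: statements of the combinatorial part (MP_8b7a64_al)

The towers of `Def.lean` are 12-hyperbolic graphs; if the levels are bounded below they contain no
quasi-isometric image of the hyperbolic plane; if there is an infinite vertical chain they are not
quasi-isometric to a tree. Complete proofs in the docstrings. Everywhere `c`, `s`, `t` are vertices of
a tower, `P c s = ⌈(q s - q c) / 2 ^ l c⌉`.
-/

set_option autoImplicit false

namespace Pool.Agent.Q281.BK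

universe u

/-- TOW. A connected graph with the local structure is a tower.
Proof. Write `E u v` if `v = A^[n] u` or `u = A^[n] v` for some `n`; by injectivity of `A` this is an
equivalence relation (compare the exponents), and `E u v` implies `l u = l v` and
`q v = q u + m 2^(l u)` with an integer `m`.
(a) From `fwd` and `bwd`: `T s s'` implies `T (A^[2n] s) (A^[n] s')`, and if `T (A^[2n] s) s''` then
there is `s'` with `T s s'` (and then `s'' = A^[n] s'` by `Tfun`).
(b) If `T u u'`, `T v v'` and `E u v` then `E u' v'`: say `v = A^[n] u`. If `n = 2m` then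
`T v (A^[m] u')` by (a), so `v' = A^[m] u'`. If `n = 2m+1` then `T (A^[2m] u) _` and
`T (A (A^[2m] u)) v'` contradict `noadj`.
(c) If `T u u'`, `T v v'` and `E u' v'` then `E u v`: say `v' = A^[n] u'`; `T (A^[2n] u) v'`, so
`v = A^[2n] u` by `Tinj`.
(d) Claim: for all `u`, `v` with `l u = l v`: `E u v`; and for all `u v` with `l u + 1 ≤ l v` there is
a chain: let `R j u v` (`j : ℕ`) be defined by `R 0 u v := E u v`,
`R (j+1) u v := ∃ w w', R j u w ∧ T w w' ∧ E w' v` (`v` is `j` levels above `u`). Properties: `R j`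
is compatible with `E` in both arguments (for the first one by induction); by (b)
and induction `R j u v` and `R j u v'` imply `E v v'`; `R (j+1) u v`, `T v₀ v'`, `E v' v` imply
`R j u v₀` (by (c)); also `R (j+1) u v ↔ ∃ w w', E u w ∧ T w w' ∧ R j w' v`. For fixed `u` the set of
all `v` with `(∃ j, R j u v) ∨ (∃ j, R j v u)` contains `u` and is closed under neighbours: use `adj`;
a step `v → A v` or back stays in the `E`-class, a step `T v v'`: if `R j u v` then `R (j+1) u v'`; if
`R (j+1) v u`, then `∃ w w', E v w ∧ T w w' ∧ R j w' u`, and `E v' w'` by (b), so `R j v' u`. A step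
`T v' v` (down): if `R (j+1) u v` then `R j u v'`; if `R j v u` then `R (j+1) v' u` (includes `R 0 u v`,
as `E` is symmetric). The other two kinds of neighbours are compositions of these. By connectedness
the set is everything. Levels: `R j u v` implies `l v = l u + j`. So `l u = l v` implies `j = 0`, `E u v`.
Now `inj`: `l s = l t` and `q s = q t` give `E s t` and `m = 0`, the exponent is 0, so `s = t`.
`lat`: from `E s t`. `right`: `A s` (it is different from `s` as `q` differs). `adj`: by the list in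
`Loc.adj` (`T (A s) s'` gives `l s' = l s + 1`, `q s' = q s + 2^(l s)`). `up`: if `l t = l s + 1` then
`R 1 s t`: there are `w`, `w'` with `E s w`, `T w w'`. If `w = A^[2n] s` use (a): `T s s'`; if
`w = A^[2n+1] s` then `T (A s) s'`; if `s = A^[2n] w` then `T s (A^[n] w')`; if `s = A^[2n+1] w` then
`A s = A^[2n+2] w` and `T (A s) (A^[n+1] w')`. -/
def S_TOW : Prop := ∀ (X : Type) (G : SimpleGraph X) (A : X → X) (T : X → X → Prop) (l : X → ℤ)
  (q : X → ℚ), Loc G A T l q → Tower G l q

/-- LATT. Intermediate levels and nesting of lattices.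
Proof. Intermediate levels: levels of adjacent vertices differ by at most 1 (`adj`), so a walk from
`s` to `c` passes through all levels between `l s` and `l c`. Lattice: induction on `l c - l s`;
if it is 0 use `lat`; otherwise there is a vertex at level `l s + 1`, so by `up` there is a parent
`s'` with `q s' = q s + e 2^(l s)`, `e ∈ {0,1}`; by induction `q c = q s' + n 2^(l s + 1)`. -/
def S_LATT : Prop := ∀ (X : Type) (G : SimpleGraph X) (l : X → ℤ) (q : X → ℚ), Tower G l q →
  ∀ s c, l s ≤ l c → (∀ k, l s ≤ k → k ≤ l c → ∃ v, l v = k) ∧ ∃ n : ℤ, q c = q s + n * 2 ^ l s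

/-- LIP. The projection to the level of `c` together with the level is 1-Lipschitz.
Proof. By symmetry assume `Edge (l s) (q s) (l t) (q t)`. Horizontal edge: `q t = q s + 2^(l s)`, so
`(q t - q c)/2^(l c) = (q s - q c)/2^(l c) + ε` with `0 < ε ≤ 1`, the ceiling grows by 0 or 1, and
`l s = l t`. Vertical edge with `q t = q s`: `P` does not change, the level by 1. Vertical edge with
`l t = l s + 1`, `q t = q s + 2^(l s)`: by S_LATT `q c = q t + n 2^(l t)`, so with `j = l c - l t ≥ 0`:
`(q t - q c)/2^(l c) = -n/2^j` and `(q s - q c)/2^(l c) = (-2n-1)/2^(j+1)`; an integer `N` satisfies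
`-2n-1 ≤ 2^(j+1) N` iff `-2n ≤ 2^(j+1) N` (the right side is even), so both ceilings agree. -/
def S_LIP : Prop := S_LATT → ∀ (X : Type) (G : SimpleGraph X) (l : X → ℤ) (q : X → ℚ), Tower G l q →
  ∀ s t c, G.Adj s t → l s ≤ l c → l t ≤ l c → |P l q c s - P l q c t| + |l s - l t| ≤ 1

/-- LOWB. Lower bound for distances.
Proof. Take a shortest walk from `s` to `t` and `c` a vertex of maximal level on it. All vertices of
the walk have level at most `l c`. By S_LIP and the triangle inequality, the part from `s` to `c` has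
length at least `|P c s - P c c| + |l s - l c|` and the part from `c` to `t` at least
`|P c c - P c t| + |l c - l t|`. Add. -/
def S_LOWB : Prop := (∀ (X : Type) (G : SimpleGraph X) (l : X → ℤ) (q : X → ℚ), Tower G l q →
    ∀ s t c, G.Adj s t → l s ≤ l c → l t ≤ l c → |P l q c s - P l q c t| + |l s - l t| ≤ 1) →
  ∀ (X : Type) (G : SimpleGraph X) (l : X → ℤ) (q : X → ℚ), Tower G l q →
  ∀ s t, ∃ c, l s ≤ l c ∧ l t ≤ l c ∧
    |P l q c s - P l q c t| + (l c - l s) + (l c - l t) ≤ (G.dist s t : ℤ)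

/-- UPB. Upper bound for distances.
Proof. (a) For `l s ≤ l c` there is `v` with `l v = l c`, `G.dist s v ≤ l c - l s` and
`P c v = P c s`: induction on `l c - l s`; for 0 take `v = s`; otherwise by S_LATT there is a vertex at
level `l s + 1`, so `up` gives a parent `s'`, and `P c s' = P c s` by LIP (the level changes by 1, so
`P` does not change). (b) If `l v = l w` then by `lat` `q w = q v + n 2^(l v)`, and
`G.dist v w ≤ |n|`: for `n ≥ 0` go `n` steps to the right from `v` with `right`; the end has the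
same level and position as `w`, so it is `w` by `inj`; for `n < 0` exchange `v` and `w`. (c) For `v`,
`w` on the level of `c` as in (a) for `s` and `t`: `q v - q c` and `q w - q c` are integer multiples of
`2^(l c)` by `lat`, so `P c w - P c v = n`. Triangle inequality (`G` is connected). -/
def S_UPB : Prop := S_LATT → (∀ (X : Type) (G : SimpleGraph X) (l : X → ℤ) (q : X → ℚ), Tower G l q →
    ∀ s t c, G.Adj s t → l s ≤ l c → l t ≤ l c → |P l q c s - P l q c t| + |l s - l t| ≤ 1) →
  ∀ (X : Type) (G : SimpleGraph X) (l : X → ℤ) (q : X → ℚ), Tower G l q →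
  ∀ s t c, l s ≤ l c → l t ≤ l c →
    (G.dist s t : ℤ) ≤ |P l q c s - P l q c t| + (l c - l s) + (l c - l t)

/-- HALF. Going up one level halves horizontal distances; vertices `c`, `c'` of the same level give
the same differences.
Proof. By S_LATT `q c' = q c + m 2^(l c)`. `(q s - q c')/2^(l c + 1) = (x - m)/2` with
`x = (q s - q c)/2^(l c)`, and `⌈(x - m)/2⌉ = ⌈(⌈x⌉ - m)/2⌉` (an integer `N` satisfies `x - m ≤ 2N` iff
`⌈x⌉ ≤ 2N + m`). For integers `|⌈(A-m)/2⌉ - ⌈(B-m)/2⌉| ≤ (|A-B|+1)/2`. For the second statement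
`q c' = q c + m 2^(l c)` gives `P c' s = P c s - m`. -/
def S_HALF : Prop := S_LATT → ∀ (X : Type) (G : SimpleGraph X) (l : X → ℤ) (q : X → ℚ), Tower G l q →
  (∀ c c' s t, l c' = l c + 1 → 2 * |P l q c' s - P l q c' t| ≤ |P l q c s - P l q c t| + 1) ∧
  (∀ c c' s t, l c' = l c → P l q c' s - P l q c' t = P l q c s - P l q c t)

/-- NUM. The four point inequality for the functions `F i j = min_H (2 H + D i j H)`.
Proof. For a pair `i, j` let `h = h i j` be the least `H` with `max (a i) (a j) ≤ H ≤ N` and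
(`D i j H ≤ 5` or `H = N`), and `λ i j = D i j N`. `D i j` is non-increasing on the levels
(halving: `D (H+1) ≤ (D H + 1)/2 ≤ D H` if `D H ≥ 1`, and `D H = 0` gives `D (H+1) = 0`).
(1) `2 h + λ ≤ F ≤ 2 h + λ + 5`. Upper bound: `F ≤ 2 h + D h`, and `D h = λ` if `h = N`, `D h ≤ 5` if
`h < N`. Lower bound: let `H` be as in the last hypothesis. If `H ≥ h`: `2 H + D H ≥ 2 h + λ`. If
`H < h`: for all `H ≤ k < h` we have `D k ≥ 6`, so `2 (k+1) + D (k+1) ≤ 2 k + D k`; by induction
`2 H + D H ≥ 2 h + D h ≥ 2 h + λ`.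
(2) `h i k ≤ max (h i j) (h j k) + 1`: let `m` be the maximum. If `m ≥ N - 1` it is clear. If `m < N - 1`
(or `m < N`) then `D i j m ≤ 5` and `D j k m ≤ 5` by monotonicity, `D i k m ≤ 10`,
`2 D i k (m+1) ≤ 11`, `D i k (m+1) ≤ 5`.
(3) If `h i j < N` then `λ i j ≤ 5`, so `|λ i k - λ j k| ≤ 5` for all `k`.
Conclusion: by symmetry (exchange `2` and `3`, and simultaneously `0, 2` with `1, 3` or so) let
`h 0 2` be the least of the four numbers `h 0 2`, `h 1 3`, `h 0 3`, `h 1 2` (in the other three cases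
the same proof with the indices exchanged). If `h 0 2 = N` then all four are `N`, `h 0 1, h 2 3 ≤ N`
and the hypothesis on the `λ` gives the inequality with `+ 10`. Otherwise `λ 0 2 ≤ 5`,
`h 0 1 ≤ max (h 0 2) (h 2 1) + 1 = h 1 2 + 1`, `h 2 3 ≤ max (h 0 2) (h 0 3) + 1 = h 0 3 + 1`,
`λ 0 1 ≤ λ 1 2 + 5`, `λ 2 3 ≤ λ 0 3 + 5`, so `F 0 1 + F 2 3 ≤ 2 h 0 1 + λ 0 1 + 2 h 2 3 + λ 2 3 + 10
≤ 2 h 1 2 + λ 1 2 + 2 h 0 3 + λ 0 3 + 24 ≤ F 0 3 + F 1 2 + 24`. -/
def S_NUM : Prop := ∀ (N : ℤ) (a : Fin 4 → ℤ) (D : Fin 4 → Fin 4 → ℤ → ℤ) (F : Fin 4 → Fin 4 → ℤ),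
  (∀ i, a i ≤ N) →
  (∀ i j H, 0 ≤ D i j H) → (∀ i j H, D i j H = D j i H) →
  (∀ i j k H, a i ≤ H → a j ≤ H → a k ≤ H → H ≤ N → D i k H ≤ D i j H + D j k H) →
  (∀ i j H, a i ≤ H → a j ≤ H → H < N → 2 * D i j (H + 1) ≤ D i j H + 1) →
  (D 0 1 N + D 2 3 N ≤ max (D 0 2 N + D 1 3 N) (D 0 3 N + D 1 2 N)) →
  (∀ i j, F i j = F j i) →
  (∀ i j H, a i ≤ H → a j ≤ H → H ≤ N → F i j ≤ 2 * H + D i j H) →
  (∀ i j, ∃ H, a i ≤ H ∧ a j ≤ H ∧ H ≤ N ∧ 2 * H + D i j H ≤ F i j) →
  F 0 1 + F 2 3 ≤ max (F 0 2 + F 1 3) (F 0 3 + F 1 2) + 24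

/-- HYP. Towers are 12-hyperbolic.
Proof. Let `x : Fin 4 → X` be the four points, `a i = l (x i)`. For all pairs take `c i j` from LOWB and
let `top` be one of the `c i j` (or `x i`) with maximal level, `N = l top`. By S_LATT for each level `H` with
`min a ≤ H ≤ N` there is a vertex `v H` of this level. Put `D i j H = |P (v H) (x i) - P (v H) (x j)|`
(for other `H` take any vertex), `F i j = dist (x i) (x j) + a i + a j`. The hypotheses of NUM: triangle
inequality of `| |`; halving from HALF (both statements); the hypothesis at level `N` is the four point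
property of the line (`|x-y|+|z-w| ≤ max (|x-z|+|y-w|) (|x-w|+|y-z|)`); the bounds for `F` are UPB and
LOWB (with `P` relative to another vertex of the same level, HALF second part). In the conclusion of
NUM the sums of the `a i` cancel. Cast to ℝ; `24 = 2 * 12`. -/
def S_HYP : Prop := S_LATT → S_NUM →
  (∀ (X : Type) (G : SimpleGraph X) (l : X → ℤ) (q : X → ℚ), Tower G l q →
    (∀ s t, ∃ c, l s ≤ l c ∧ l t ≤ l c ∧
      |P l q c s - P l q c t| + (l c - l s) + (l c - l t) ≤ (G.dist s t : ℤ)) ∧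
    (∀ s t c, l s ≤ l c → l t ≤ l c →
      (G.dist s t : ℤ) ≤ |P l q c s - P l q c t| + (l c - l s) + (l c - l t)) ∧
    (∀ c c' s t, l c' = l c + 1 → 2 * |P l q c' s - P l q c' t| ≤ |P l q c s - P l q c t| + 1) ∧
    (∀ c c' s t, l c' = l c → P l q c' s - P l q c' t = P l q c s - P l q c t)) →
  ∀ (X : Type) (G : SimpleGraph X) (l : X → ℤ) (q : X → ℚ), Tower G l q → Hyp G 12

/-- HZ. The hyperbolic plane does not embed quasi-isometrically into the line.
Proof. Let `g` be such an embedding with constants `L`, `C`. The points `u_j = j S + i` (`j : ℕ`, `S > 0`)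
satisfy `dist u_j u_k = 2 arsinh (|j-k| S / 2)` (`UpperHalfPlane.dist_eq`), which for `j ≠ k` is at least
`2 arsinh (S/2)`; choose `S` with `2 arsinh (S/2) / L - C > 0`. Then `g u_0, ..., g u_N` are `N+1` different
integers in an interval of radius `2 L arsinh (N S/2) + C`, so
`N ≤ 4 L arsinh (N S / 2) + 2 C + 1` for all `N`, which is false for large `N` (`arsinh x ≤ log (1 + 2 x)` for `x ≥ 0`,
and `log = o(N)`). -/
def S_HZ : Prop := ¬ ∃ g : UpperHalfPlane → ℤ,
  QIEmb (fun x y => dist x y) (fun x y : ℤ => |(x : ℝ) - y|) g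

/-- RAY. If the levels are bounded below and not bounded above there is no bi-infinite
quasi-geodesic.
Proof. Let `γ : ℤ → X` with `|i-j|/L - C ≤ d(γ i, γ j) ≤ L |i-j| + C`, and `S : ℕ`, `S ≥ L + C`. Facts:
(1) `|l s - l t| ≤ dist s t` (induction on a walk, `adj`).
(2) if `dist s t ≤ S` and `l s ≤ H` then `|q s - q t| ≤ S 2^(H+S)` (each edge changes `q` by at most `2^(level)`,
all levels on the walk are `≤ H + S`).
(3) if all `γ k`, `i ≤ k < j`, have level at most `H` (`i < j`), then `|q (γ i) - q (γ j)| ≤ (j-i) S 2^(H+S)`.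
(4) hence if `n : ℕ` satisfies `(j-i) S ≤ 2^n`: put `H' = H + S + n`; there is a vertex `c` with `l c = H'`
(levels are not bounded above, and intermediate levels exist by S_LATT; `H' ≥ l (γ i), l (γ j)`), and by UPB
`d(γ i, γ j) ≤ |P c (γ i) - P c (γ j)| + 2 H' - l (γ i) - l (γ j) ≤ 2 + 2 (H + S + n) - l (γ i) - l (γ j)`.
Let `m` be a lower bound of the levels. (5) In both directions the levels of `γ` are unbounded above: if `l (γ k) ≤ H`
for all `k ≥ 0`, then (4) with `i = 0`, and `n` minimal, gives `j/L - C ≤ 2 + 2 (H + S + n) - 2 m` with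
`n ≤ log_2 (j S) + 1`; false for large `j`. The same for `k ≤ 0` (use `γ (-k)`).
(6) Let `H > l (γ 0)` be large, `j > 0` minimal with `l (γ j) > H` and `i < 0` maximal with `l (γ i) > H`.
All `γ k`, `i < k < j`, have level `≤ H`; `l (γ i), l (γ j) ≤ H + S`. (3) and (4) for `i + 1 .. j` (one more step of
length at most `S` at the left end; or apply (3) with `H + S` instead of `H`) give
`d(γ i, γ j) ≤ 2 + 2 (H + 2 S + n) - 2 H = 2 + 4 S + 2 n` with `n ≤ log_2 ((j-i) S) + 1`. As
`d(γ i, γ j) ≥ (j-i)/L - C`, `j - i` is bounded by a constant `B` which does not depend on `H`. But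
`H - l (γ 0) ≤ d(γ 0, γ j) ≤ L j + C ≤ L B + C`; false for large `H`. -/
def S_RAY : Prop := S_LATT → (∀ (X : Type) (G : SimpleGraph X) (l : X → ℤ) (q : X → ℚ), Tower G l q →
    ∀ s t c, l s ≤ l c → l t ≤ l c →
      (G.dist s t : ℤ) ≤ |P l q c s - P l q c t| + (l c - l s) + (l c - l t)) →
  ∀ (X : Type) (G : SimpleGraph X) (l : X → ℤ) (q : X → ℚ), Tower G l q →
  (∃ m : ℤ, ∀ s, m ≤ l s) → (∀ n : ℤ, ∃ s, n ≤ l s) →
  ¬ ∃ γ : ℤ → X, QIEmb (fun i j : ℤ => |(i : ℝ) - j|) (fun x y => (G.dist x y : ℝ)) γ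

/-- NOH2. Towers with levels bounded below contain no quasi-isometric image of the hyperbolic plane.
Proof. If the levels are bounded above let `c` be a vertex of maximal level. LIP along shortest
walks gives `|P c s - P c t| ≤ dist s t`, UPB gives `dist s t ≤ |P c s - P c t| + 2 (l c - m)`. So
`P c ∘ f` is a quasi-isometric embedding of `ℍ` in `ℤ`, contradiction to HZ. If the levels are not
bounded above compose `f` with `k ↦ i e^k` (isometric, `UpperHalfPlane.dist_of_re_eq`) and use RAY. -/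
def S_NOH2 : Prop := S_HZ →
  (∀ (X : Type) (G : SimpleGraph X) (l : X → ℤ) (q : X → ℚ), Tower G l q →
    (∀ s t c, G.Adj s t → l s ≤ l c → l t ≤ l c → |P l q c s - P l q c t| + |l s - l t| ≤ 1) ∧
    (∀ s t c, l s ≤ l c → l t ≤ l c →
      (G.dist s t : ℤ) ≤ |P l q c s - P l q c t| + (l c - l s) + (l c - l t)) ∧
    ((∃ m : ℤ, ∀ s, m ≤ l s) → (∀ n : ℤ, ∃ s, n ≤ l s) →
      ¬ ∃ γ : ℤ → X, QIEmb (fun i j : ℤ => |(i : ℝ) - j|) (fun x y => (G.dist x y : ℝ)) γ)) →
  ∀ (X : Type) (G : SimpleGraph X) (l : X → ℤ) (q : X → ℚ), Tower G l q →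
  (∃ m : ℤ, ∀ s, m ≤ l s) → ¬ HasH2 G

/-- BOT. Bottlenecks in graphs which embed quasi-isometrically in a tree.
Proof. Let `L`, `C` be the constants of `f`, `S : ℕ`, `S ≥ L + C`, `Δ ≥ L (2 S + C)`. Given `K` let `M : ℕ` be
`≥ L K + C + S` and `B ≥ L (2 M + 2 + C)`. If `G.dist x y ≥ B` then `T.dist (f x) (f y) ≥ 2 M + 2`; let `m` be the
vertex number `M` on the path in `T` from `f x` to `f y`; `T.dist (f x) m ≥ M`, `T.dist (f y) m ≥ M`. Every walk in `T`
from `f x` to `f y` passes through `m` (its `bypass`/`toPath` is the unique path,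
`SimpleGraph.IsTree.existsUnique_path` or `IsAcyclic.path_unique`, and the support of the
bypass is contained in the support). Given a walk `w` in `G` from `x` to `y`, join the images of consecutive
vertices by shortest walks in `T`, of length at most `S`; the resulting walk passes through `m`, so some
vertex `v` of `w` has `T.dist (f v) m ≤ S`. (By induction on the walk: if `m` is on the concatenation ...)
For two walks we get `u`, `v` with `T.dist (f u) (f v) ≤ 2 S`, so `G.dist u v ≤ L (2 S + C) ≤ Δ`; and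
`T.dist (f u) (f x) ≥ M - S`, so `G.dist u x ≥ (M - S - C)/L ≥ K`, similarly for `y`. -/
def S_BOT : Prop := ∀ (V : Type) (G : SimpleGraph V) (W : Type u) (T : SimpleGraph W) (f : V → W),
  G.Connected → T.IsTree → QIEmb (fun x y => (G.dist x y : ℝ)) (fun x y => (T.dist x y : ℝ)) f →
  ∃ Δ : ℕ, ∀ K : ℕ, ∃ B : ℕ, ∀ x y : V, B ≤ G.dist x y → ∀ w₁ w₂ : G.Walk x y,
    ∃ u ∈ w₁.support, ∃ v ∈ w₂.support, G.dist u v ≤ Δ ∧ K ≤ G.dist u x ∧ K ≤ G.dist u y

/-- TREE. A tower with an infinite vertical chain is not quasi-isometric to a tree.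
Proof. Let `r 0, r 1, ...` be the chain, `k = l (r 0)`, `x₀ = q (r 0)`, `x = r 0`. For `n : ℕ` and `i ≤ n` let `u i` be the
vertex reached from `r i` by `2^(n-i)` steps to the right (`right`): level `k + i`, position
`x₀ + 2^(n-i) 2^(k+i) = x₀ + 2^(k+n)`. `u i` and `u (i+1)` (`i < n`) are adjacent: by `up` (there is a vertex of level
`k+i+1`) `u i` has a parent `s'`, and by `lat` (compare with `r (i+1)`) `q s' - x₀` is a multiple of `2^(k+i+1)`, as is
`2^(k+n)`; so `q s' = q (u i)` (not `+ 2^(k+i)`), and `s' = u (i+1)` by `inj`. Also `r n` and `u n` are adjacent. Let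
`y = u 0`. Walk `w₁`: `r 0, ..., r n, u n, ..., u 0`. Walk `w₂`: from `x` to the right `2^n` steps, all on level `k`.
`dist x y → ∞`: along a walk of length `d` from `x` all levels are `≤ k + d`, so `q` changes by at most `d 2^(k+d)`; so
`2^n ≤ d 2^d ≤ 4^d`, `d ≥ n/2`. Now apply BOT: with `Δ` from BOT, `K = Δ + 1`, `B`, choose `n = 2 B`. We get
`a` on `w₁` and `b` on `w₂` with `dist a b ≤ Δ`; levels are 1-Lipschitz, so `l a ≤ k + Δ`; so `a = r i` or `a = u i` with `i ≤ Δ`
and `dist a x ≤ Δ` or `dist a y ≤ Δ`, contradiction to `K = Δ + 1`. -/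
def S_TREE : Prop :=
  (∀ (V : Type) (G : SimpleGraph V) (W : Type u) (T : SimpleGraph W) (f : V → W),
  G.Connected → T.IsTree → QIEmb (fun x y => (G.dist x y : ℝ)) (fun x y => (T.dist x y : ℝ)) f →
  ∃ Δ : ℕ, ∀ K : ℕ, ∃ B : ℕ, ∀ x y : V, B ≤ G.dist x y → ∀ w₁ w₂ : G.Walk x y,
    ∃ u ∈ w₁.support, ∃ v ∈ w₂.support, G.dist u v ≤ Δ ∧ K ≤ G.dist u x ∧ K ≤ G.dist u y) →
  ∀ (X : Type) (G : SimpleGraph X) (l : X → ℤ) (q : X → ℚ), Tower G l q →
  ∀ r : ℕ → X, (∀ i, G.Adj (r i) (r (i + 1))) → (∀ i, l (r i) = l (r 0) + i) →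
  (∀ i, q (r i) = q (r 0)) → ¬ QITree.{u} G

end Pool.Agent.Q281.BK
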