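import Pool.Agent.Q281.BK.Stm

set_option autoImplicit false

namespace Pool.Agent.Q281.BK

variable {X : Type} {G : SimpleGraph X} {l : X → ℤ} {q : X → ℚ}

theorem Tower.lev (h : Tower G l q) {s t : X} (hst : G.Adj s t) : |l s - l t| ≤ 1 := by
  rw [abs_le]
  rcases h.adj s t hst with (h1 | h1) | (h1 | h1) <;> omega

theorem Tower.mid (h : Tower G l q) {s c : X} (p : G.Walk s c) :
    ∀ k, l s ≤ k → k ≤ l c → ∃ v, l v = k := by
  induction p with
  | nil => intro k h1 h2; exact ⟨_, le_antisymm h1 h2⟩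
  | @cons u v w' hadj p ih =>
    intro k h1 h2
    by_cases hk : l u = k
    · exact ⟨_, hk⟩
    · have := h.lev hadj
      rw [abs_le] at this
      exact ih k (by omega) h2

theorem latt : S_LATT := by
  intro X G l q h s c hsc
  refine ⟨?_, ?_⟩
  · obtain ⟨p⟩ := h.conn.preconnected s c
    exact h.mid p
  · obtain ⟨n, hn⟩ := Int.eq_ofNat_of_zero_le (sub_nonneg.2 hsc)
    induction n generalizing s with
    | zero =>
      have : l s = l c := by simp at hn; omega
      exact h.lat s c this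
    | succ n ih =>
      push_cast at hn
      obtain ⟨p⟩ := h.conn.preconnected s c
      obtain ⟨v, hv⟩ := h.mid p (l s + 1) (by omega) (by omega)
      obtain ⟨s', _, h2, h3⟩ := h.up s v hv
      obtain ⟨m, hm⟩ := ih s' (by omega) (by rw [h2]; omega)
      rw [h2, zpow_add₀ (by norm_num)] at hm
      rcases h3 with h3 | h3
      · exact ⟨2 * m, by rw [hm, h3]; push_cast; ring⟩
      · exact ⟨2 * m + 1, by rw [hm, h3]; push_cast; ring⟩

/-- ceiling facts -/
theorem ceil_parity (n : ℤ) (j : ℕ) :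
    ⌈((-2 * n - 1 : ℤ) : ℚ) / 2 ^ (j + 1)⌉ = ⌈((-2 * n : ℤ) : ℚ) / 2 ^ (j + 1)⌉ := by
  have key : ∀ N : ℤ, ⌈((-2 * n - 1 : ℤ) : ℚ) / 2 ^ (j + 1)⌉ ≤ N ↔
      ⌈((-2 * n : ℤ) : ℚ) / 2 ^ (j + 1)⌉ ≤ N := by
    intro N
    rw [Int.ceil_le, Int.ceil_le, div_le_iff₀ (by positivity), div_le_iff₀ (by positivity)]
    have e : (N : ℚ) * 2 ^ (j + 1) = ((2 * (N * 2 ^ j) : ℤ) : ℚ) := by push_cast; ring
    rw [e, Int.cast_le, Int.cast_le]
    constructor <;> intro h <;> omega
  exact le_antisymm ((key _).2 le_rfl) ((key _).1 le_rfl)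

theorem lip : S_LIP := by
  intro LATT X G l q h
  have main : ∀ s t c, Edge (l s) (q s) (l t) (q t) → l s ≤ l c → l t ≤ l c →
      |P l q c s - P l q c t| + |l s - l t| ≤ 1 := by
    intro s t c hE hs ht
    have h2 : (0 : ℚ) < 2 ^ l c := by positivity
    rcases hE with ⟨h3, h4⟩ | ⟨h3, h4 | h4⟩
    · have e : (q t - q c) / 2 ^ l c = (q s - q c) / 2 ^ l c + 2 ^ l s / 2 ^ l c := by
        rw [h4]; ring
      have e1 : (0 : ℚ) < 2 ^ l s / 2 ^ l c := by positivity
      have e2 : (2 : ℚ) ^ l s / 2 ^ l c ≤ 1 := by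
        rw [div_le_one h2]
        exact zpow_le_zpow_right₀ (by norm_num) hs
      have e3 : P l q c s ≤ P l q c t := by
        apply Int.ceil_mono; rw [e]; linarith
      have e4 : P l q c t ≤ P l q c s + 1 := by
        show ⌈(q t - q c) / 2 ^ l c⌉ ≤ _
        rw [Int.ceil_le, e]
        have := Int.le_ceil ((q s - q c) / 2 ^ l c)
        push_cast
        show _ ≤ ((⌈(q s - q c) / 2 ^ l c⌉ : ℤ) : ℚ) + 1
        linarith
      have e5 : |P l q c s - P l q c t| ≤ 1 := by rw [abs_le]; omega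
      rw [h3]; simpa using e5
    · have : P l q c s = P l q c t := by unfold P; rw [h4]
      rw [this, h3]; simp
    · obtain ⟨n, hn⟩ := (LATT X G l q h t c ht).2
      obtain ⟨j, hj⟩ := Int.eq_ofNat_of_zero_le (sub_nonneg.2 ht)
      have hc : (2 : ℚ) ^ l c = 2 ^ l s * 2 ^ (j + 1) := by
        have : l c = l s + ((j + 1 : ℕ) : ℤ) := by push_cast; push_cast at hj; omega
        rw [this, zpow_add₀ (by norm_num), zpow_natCast]
      have hlt : (2 : ℚ) ^ l t = 2 ^ l s * 2 := by
        rw [h3, zpow_add₀ (by norm_num), zpow_one]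
      have hpos : (2 : ℚ) ^ l s ≠ 0 := by positivity
      have this : P l q c s = P l q c t := by
        unfold P
        have a1 : (q s - q c) / 2 ^ l c = ((-2 * n - 1 : ℤ) : ℚ) / 2 ^ (j + 1) := by
          rw [hn, hlt, hc, h4]; field_simp; push_cast; ring
        have a2 : (q t - q c) / 2 ^ l c = ((-2 * n : ℤ) : ℚ) / 2 ^ (j + 1) := by
          rw [hn, hlt, hc]; field_simp; push_cast; ring
        rw [a1, a2]
        exact ceil_parity n j
      rw [this, h3]; simp
  intro s t c hadj hs ht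
  rcases h.adj s t hadj with hE | hE
  · exact main s t c hE hs ht
  · rw [abs_sub_comm (P l q c s), abs_sub_comm (l s)]
    exact main t s c hE ht hs

theorem half : S_HALF := by
  intro LATT X G l q h
  refine ⟨?_, ?_⟩
  · intro c c' s t hc
    obtain ⟨m, hm⟩ := (LATT X G l q h c c' (by omega)).2
    have h2 : (2 : ℚ) ^ l c ≠ 0 := by positivity
    have key : ∀ s, P l q c' s = ⌈((P l q c s - m : ℤ) : ℚ) / 2⌉ := by
      intro s
      have e : (q s - q c') / 2 ^ l c' = ((q s - q c) / 2 ^ l c - m) / 2 := by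
        rw [hc, zpow_add₀ (by norm_num), zpow_one, hm]; field_simp; ring
      have k : ∀ N : ℤ, P l q c' s ≤ N ↔ ⌈((P l q c s - m : ℤ) : ℚ) / 2⌉ ≤ N := by
        intro N
        unfold P
        rw [Int.ceil_le, Int.ceil_le, e, div_le_iff₀ (by norm_num), div_le_iff₀ (by norm_num),
          sub_le_iff_le_add]
        have e2 : (N : ℚ) * 2 + m = ((N * 2 + m : ℤ) : ℚ) := by push_cast; ring
        have e3 : (N : ℚ) * 2 = ((N * 2 : ℤ) : ℚ) := by push_cast; ring
        rw [e2, ← Int.ceil_le, e3, Int.cast_le]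
        constructor <;> intro h <;> omega
      exact le_antisymm ((k _).2 le_rfl) ((k _).1 le_rfl)
    have half2 : ∀ A : ℤ, ⌈(A : ℚ) / 2⌉ = (A + 1) / 2 := by
      intro A
      have k : ∀ N : ℤ, ⌈(A : ℚ) / 2⌉ ≤ N ↔ (A + 1) / 2 ≤ N := by
        intro N
        rw [Int.ceil_le, div_le_iff₀ (by norm_num)]
        have e3 : (N : ℚ) * 2 = ((N * 2 : ℤ) : ℚ) := by push_cast; ring
        rw [e3, Int.cast_le]
        omega
      exact le_antisymm ((k _).2 le_rfl) ((k _).1 le_rfl)
    rw [key s, key t, half2, half2]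
    rcases abs_cases (P l q c s - P l q c t) with ⟨h1, _⟩ | ⟨h1, _⟩ <;>
    rcases abs_cases ((P l q c s - m + 1) / 2 - (P l q c t - m + 1) / 2) with ⟨h2, _⟩ | ⟨h2, _⟩ <;>
    rw [h1, h2] <;> omega
  · intro c c' s t hc
    obtain ⟨m, hm⟩ := (LATT X G l q h c c' (by omega)).2
    have h2 : (2 : ℚ) ^ l c ≠ 0 := by positivity
    have key : ∀ s, P l q c' s = P l q c s - m := by
      intro s
      unfold P
      rw [← Int.ceil_sub_intCast]
      congr 1
      rw [hc, hm]; field_simp; ring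
    rw [key, key]; ring

end Pool.Agent.Q281.BK
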