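import Pool.Agent.Q281.BK.Tow1

set_option autoImplicit false

namespace Pool.Agent.Q281.BK

variable {X : Type} {G : SimpleGraph X} {l : X → ℤ} {q : X → ℚ}

theorem LIP' (h : Tower G l q) (s t c : X) (hst : G.Adj s t) (hs : l s ≤ l c) (ht : l t ≤ l c) :
    |P l q c s - P l q c t| + |l s - l t| ≤ 1 := lip latt X G l q h s t c hst hs ht

theorem LATT' (h : Tower G l q) (s c : X) (hs : l s ≤ l c) : ∃ n : ℤ, q c = q s + n * 2 ^ l s :=
  (latt X G l q h s c hs).2

theorem MID' (h : Tower G l q) (s c : X) (k : ℤ) (hs : l s ≤ k) (hc : k ≤ l c) : ∃ v, l v = k :=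
  (latt X G l q h s c (hs.trans hc)).1 k hs hc

/-- Lipschitz along walks -/
theorem lip_walk (h : Tower G l q) {s t : X} (p : G.Walk s t) (c : X)
    (hp : ∀ v ∈ p.support, l v ≤ l c) : |P l q c s - P l q c t| + |l s - l t| ≤ p.length := by
  induction p with
  | nil => simp
  | @cons u v w' hadj p ih =>
    have h1 := ih (fun v hv => hp v (by rw [SimpleGraph.Walk.support_cons]; exact List.mem_cons_of_mem _ hv))
    have h2 := LIP' h u v c hadj (hp u (by simp)) (hp v (by simp))
    have h3 := abs_sub_le (P l q c u) (P l q c v) (P l q c w')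
    have h4 := abs_sub_le (l u) (l v) (l w')
    rw [SimpleGraph.Walk.length_cons]
    push_cast
    linarith

theorem lowb_aux (h : Tower G l q) : ∀ s t, ∃ c, l s ≤ l c ∧ l t ≤ l c ∧
    |P l q c s - P l q c t| + (l c - l s) + (l c - l t) ≤ (G.dist s t : ℤ) := by
  classical
  intro s t
  obtain ⟨p, hp⟩ := h.conn.exists_walk_length_eq_dist s t
  obtain ⟨c, hc, hmax⟩ := Finset.exists_max_image p.support.toFinset l ⟨s, by simp⟩
  rw [List.mem_toFinset] at hc
  have hm : ∀ v ∈ p.support, l v ≤ l c := fun v hv => hmax v (by rw [List.mem_toFinset]; exact hv)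
  refine ⟨c, hm s (by simp), hm t (by simp), ?_⟩
  have h1 := lip_walk h (p.takeUntil c hc) c
    (fun v hv => hm v (SimpleGraph.Walk.support_takeUntil_subset p hc hv))
  have h2 := lip_walk h (p.dropUntil c hc) c
    (fun v hv => hm v (SimpleGraph.Walk.support_dropUntil_subset p hc hv))
  have h3 : (p.takeUntil c hc).length + (p.dropUntil c hc).length = p.length := by
    conv_rhs => rw [← SimpleGraph.Walk.take_spec p hc]
    rw [SimpleGraph.Walk.length_append]
  have h4 := abs_sub_le (P l q c s) (P l q c c) (P l q c t)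
  have h5 : |l s - l c| = l c - l s := by
    rw [abs_sub_comm]; exact abs_of_nonneg (by have := hm s (by simp); omega)
  have h6 : |l c - l t| = l c - l t := abs_of_nonneg (by have := hm t (by simp); omega)
  rw [h5] at h1
  rw [h6] at h2
  rw [← hp, ← h3]
  push_cast
  linarith

theorem lowb : S_LOWB := by
  intro _ X G l q h
  exact lowb_aux h

/-- going up -/
theorem climb (h : Tower G l q) (s c : X) (hs : l s ≤ l c) :
    ∃ v, l v = l c ∧ (G.dist s v : ℤ) ≤ l c - l s ∧ P l q c v = P l q c s := by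
  obtain ⟨n, hn⟩ := Int.eq_ofNat_of_zero_le (sub_nonneg.2 hs)
  induction n generalizing s with
  | zero =>
    have : l s = l c := by simp at hn; omega
    exact ⟨s, this, by rw [SimpleGraph.dist_self]; push_cast; omega, rfl⟩
  | succ n ih =>
    push_cast at hn
    obtain ⟨v, hv⟩ := MID' h s c (l s + 1) (by omega) (by omega)
    obtain ⟨s', h1, h2, _⟩ := h.up s v hv
    obtain ⟨w, hw1, hw2, hw3⟩ := ih s' (by omega) (by rw [h2]; omega)
    have h3 := LIP' h s s' c h1 hs (by omega)
    have h4 : |l s - l s'| = 1 := by rw [h2]; simp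
    have h5 : |P l q c s - P l q c s'| ≤ 0 := by rw [h4] at h3; linarith
    have h6 : P l q c s = P l q c s' := by
      have := abs_nonpos_iff.1 h5
      linarith
    refine ⟨w, hw1, ?_, by rw [hw3, h6]⟩
    have h7 := h.conn.dist_triangle (u := s) (v := s') (w := w)
    have h8 : G.dist s s' = 1 := SimpleGraph.dist_eq_one_iff_adj.2 h1
    have h9 : (G.dist s w : ℤ) ≤ G.dist s s' + G.dist s' w := by exact_mod_cast h7
    rw [h8] at h9
    push_cast at h9
    linarith

/-- going right `n` steps -/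
theorem right_steps (h : Tower G l q) (v : X) (n : ℕ) :
    ∃ w, l w = l v ∧ q w = q v + n * 2 ^ l v ∧ G.dist v w ≤ n ∧
      ∃ p : G.Walk v w, ∀ u ∈ p.support, l u = l v := by
  induction n with
  | zero => exact ⟨v, rfl, by simp, by simp, SimpleGraph.Walk.nil, by simp⟩
  | succ n ih =>
    obtain ⟨w, h1, h2, h3, p, hp⟩ := ih
    obtain ⟨w', h4, h5, h6⟩ := h.right w
    refine ⟨w', by rw [h5, h1], ?_, ?_, p.concat h4, ?_⟩
    · rw [h6, h2, h1]; push_cast; ring
    · have h7 := h.conn.dist_triangle (u := v) (v := w) (w := w')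
      have h8 : G.dist w w' = 1 := SimpleGraph.dist_eq_one_iff_adj.2 h4
      omega
    · intro u hu
      rw [SimpleGraph.Walk.support_concat] at hu
      simp only [List.concat_eq_append, List.mem_append, List.mem_singleton] at hu
      rcases hu with hu | hu
      · exact hp u hu
      · rw [hu, h5, h1]

theorem horiz (h : Tower G l q) (v w : X) (hvw : l w = l v) (n : ℤ)
    (hn : q w = q v + n * 2 ^ l v) : (G.dist v w : ℤ) ≤ |n| := by
  rcases le_total 0 n with h0 | h0
  · obtain ⟨m, rfl⟩ := Int.eq_ofNat_of_zero_le h0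
    obtain ⟨w', h1, h2, h3, _⟩ := right_steps h v m
    have : w = w' := h.inj _ _ (by rw [hvw, h1]) (by rw [hn, h2]; push_cast; rfl)
    rw [this, abs_of_nonneg h0]
    exact_mod_cast h3
  · obtain ⟨m, hm⟩ := Int.eq_ofNat_of_zero_le (neg_nonneg.2 h0)
    obtain ⟨w', h1, h2, h3, _⟩ := right_steps h w m
    have hn' : n = -(m : ℤ) := by omega
    have : v = w' := h.inj _ _ (by rw [← hvw, h1]) (by rw [h2, hn, hn', hvw]; push_cast; ring)
    rw [this, SimpleGraph.dist_comm, hn', abs_neg, abs_of_nonneg (by positivity)]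
    exact_mod_cast h3

theorem upb_aux (h : Tower G l q) (s t c : X) (hs : l s ≤ l c) (ht : l t ≤ l c) :
    (G.dist s t : ℤ) ≤ |P l q c s - P l q c t| + (l c - l s) + (l c - l t) := by
  obtain ⟨v, hv1, hv2, hv3⟩ := climb h s c hs
  obtain ⟨w, hw1, hw2, hw3⟩ := climb h t c ht
  obtain ⟨n, hn⟩ := h.lat v w (by rw [hv1, hw1])
  have h1 := horiz h v w (by rw [hv1, hw1]) n hn
  have h2 : (2 : ℚ) ^ l c ≠ 0 := by positivity
  have h3 : P l q c w = P l q c v + n := by
    unfold P
    rw [← Int.ceil_add_intCast]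
    congr 1
    rw [hn, hv1]; field_simp; ring
  have h4 : |n| = |P l q c s - P l q c t| := by
    rw [← hv3, ← hw3, h3, abs_sub_comm]; congr 1; ring
  have h5 := h.conn.dist_triangle (u := s) (v := v) (w := t)
  have h6 := h.conn.dist_triangle (u := v) (v := w) (w := t)
  have h7 : G.dist w t = G.dist t w := SimpleGraph.dist_comm
  rw [← h4]
  have h5' : (G.dist s t : ℤ) ≤ G.dist s v + G.dist v t := by exact_mod_cast h5
  have h6' : (G.dist v t : ℤ) ≤ G.dist v w + G.dist t w := by rw [← h7]; exact_mod_cast h6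
  linarith

theorem upb : S_UPB := by
  intro _ _ X G l q h
  exact upb_aux h

end Pool.Agent.Q281.BK
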