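import Pool.Agent.Q281.BK.Tow2
import Pool.Agent.Q281.BK.Bot

set_option autoImplicit false

namespace Pool.Agent.Q281.BK

universe u

variable {X : Type} {G : SimpleGraph X} {l : X → ℤ} {q : X → ℚ}

theorem lev_walk (h : Tower G l q) {s t : X} (p : G.Walk s t) : |l s - l t| ≤ p.length := by
  induction p with
  | nil => simp
  | @cons u v w' hadj p ih =>
    have h1 := h.lev hadj
    have h2 := abs_sub_le (l u) (l v) (l w')
    rw [SimpleGraph.Walk.length_cons]
    push_cast
    linarith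

theorem lev_dist (h : Tower G l q) (s t : X) : |l s - l t| ≤ (G.dist s t : ℤ) := by
  obtain ⟨p, hp⟩ := h.conn.exists_walk_length_eq_dist s t
  rw [← hp]; exact lev_walk h p

theorem step_q (h : Tower G l q) {s v : X} (hsv : G.Adj s v) : |q v - q s| ≤ 2 ^ l s := by
  have h0 : (0 : ℚ) < 2 ^ l s := by positivity
  rcases h.adj s v hsv with h1 | h1
  · rcases h1 with ⟨_, h2⟩ | ⟨_, h2 | h2⟩
    · rw [h2, add_sub_cancel_left, abs_of_pos h0]
    · rw [h2, sub_self, abs_zero]; exact h0.le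
    · rw [h2, add_sub_cancel_left, abs_of_pos h0]
  · have h3 : l v ≤ l s := by
      rcases h1 with ⟨h2, _⟩ | ⟨h2, _⟩ <;> omega
    have h4 : (2 : ℚ) ^ l v ≤ 2 ^ l s := zpow_le_zpow_right₀ (by norm_num) h3
    have h5 : (0 : ℚ) < 2 ^ l v := by positivity
    rw [abs_sub_comm]
    rcases h1 with ⟨_, h2⟩ | ⟨_, h2 | h2⟩
    · rw [h2, add_sub_cancel_left, abs_of_pos h5]; exact h4
    · rw [h2, sub_self, abs_zero]; exact h0.le
    · rw [h2, add_sub_cancel_left, abs_of_pos h5]; exact h4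

theorem walk_q (h : Tower G l q) {s t : X} (p : G.Walk s t) :
    |q t - q s| ≤ p.length * 2 ^ (l s + p.length) := by
  induction p with
  | nil => simp
  | @cons u v w' hadj p ih =>
    have h1 := step_q h hadj
    have h2 := h.lev hadj
    rw [abs_le] at h2
    have h3 : |q w' - q u| ≤ |q w' - q v| + |q v - q u| := abs_sub_le _ _ _
    have h4 : (2 : ℚ) ^ (l v + p.length) ≤ 2 ^ (l u + (p.length + 1 : ℤ)) :=
      zpow_le_zpow_right₀ (by norm_num) (by omega)
    have h5 : (2 : ℚ) ^ (l u) ≤ 2 ^ (l u + (p.length + 1 : ℤ)) :=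
      zpow_le_zpow_right₀ (by norm_num) (by omega)
    have h6 : (p.length : ℚ) * 2 ^ (l v + p.length) ≤ p.length * 2 ^ (l u + (p.length + 1 : ℤ)) :=
      mul_le_mul_of_nonneg_left h4 (by positivity)
    rw [SimpleGraph.Walk.length_cons]
    push_cast
    linarith

theorem far (h : Tower G l q) (x y : X) (n : ℕ) (hq : q y = q x + 2 ^ n * 2 ^ l x) :
    n ≤ 2 * G.dist x y := by
  obtain ⟨p, hp⟩ := h.conn.exists_walk_length_eq_dist x y
  have h1 := walk_q h p
  rw [hp, hq, add_sub_cancel_left, abs_of_pos (by positivity)] at h1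
  set d := G.dist x y
  have h2 : (2 : ℚ) ^ (l x + (d : ℤ)) = 2 ^ l x * 2 ^ d := by
    rw [zpow_add₀ (by norm_num), zpow_natCast]
  rw [h2] at h1
  have h3 : (0 : ℚ) < 2 ^ l x := by positivity
  have h4 : (2 : ℚ) ^ n ≤ d * 2 ^ d := by
    have h5 : (2 : ℚ) ^ l x * 2 ^ n ≤ 2 ^ l x * (d * 2 ^ d) := by
      calc (2 : ℚ) ^ l x * 2 ^ n = 2 ^ n * 2 ^ l x := by ring
        _ ≤ d * (2 ^ l x * 2 ^ d) := h1
        _ = 2 ^ l x * (d * 2 ^ d) := by ring
    exact le_of_mul_le_mul_left h5 h3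
  have h5 : (2 : ℕ) ^ n ≤ d * 2 ^ d := by exact_mod_cast h4
  have h6 : d * 2 ^ d ≤ 2 ^ d * 2 ^ d := Nat.mul_le_mul_right _ (Nat.lt_two_pow_self).le
  have h7 : (2 : ℕ) ^ n ≤ 2 ^ (2 * d) := by
    rw [two_mul, pow_add]; exact h5.trans h6
  exact (Nat.pow_le_pow_iff_right (by norm_num)).1 h7

theorem tree_not (h : Tower G l q) (r : ℕ → X) (hr : ∀ i, G.Adj (r i) (r (i + 1)))
    (hl : ∀ i, l (r i) = l (r 0) + i) (hq : ∀ i, q (r i) = q (r 0)) : ¬ QITree.{u} G := by
  rintro ⟨W, T, f, hT, hf, _⟩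
  obtain ⟨Δ, hΔ⟩ := bot X G W T f h.conn hT hf
  obtain ⟨B, hB⟩ := hΔ (Δ + 1)
  set k := l (r 0) with hk
  set n := 2 * B with hn
  -- the base walk
  obtain ⟨y, hy1, hy2, _, w₂, hw₂⟩ := right_steps h (r 0) (2 ^ n)
  have hy2' : q y = q (r 0) + 2 ^ n * 2 ^ k := by rw [hy2]; push_cast; rfl
  -- the left vertical walk
  have left : ∀ n : ℕ, ∃ p : G.Walk (r 0) (r n), ∀ v ∈ p.support, ∃ i : ℕ, l v = k + i ∧
      G.dist v (r 0) ≤ i := by
    intro n
    induction n with
    | zero =>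
      refine ⟨SimpleGraph.Walk.nil, ?_⟩
      intro v hv
      simp only [SimpleGraph.Walk.support_nil, List.mem_singleton] at hv
      exact ⟨0, by rw [hv]; simp [hk], by rw [hv, SimpleGraph.dist_self]⟩
    | succ n ih =>
      obtain ⟨p, hp⟩ := ih
      refine ⟨p.concat (hr n), ?_⟩
      intro v hv
      rw [SimpleGraph.Walk.support_concat] at hv
      simp only [List.mem_append, List.mem_singleton] at hv
      rcases hv with hv | hv
      · exact hp v hv
      · refine ⟨n + 1, by rw [hv, hl], ?_⟩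
        obtain ⟨i, hi1, hi2⟩ := hp (r n) (SimpleGraph.Walk.end_mem_support _)
        rw [hl] at hi1
        have hin : i = n := by omega
        subst hin
        have h1 := h.conn.dist_triangle (u := r (i + 1)) (v := r i) (w := r 0)
        have h2 : G.dist (r (i + 1)) (r i) = 1 := SimpleGraph.dist_eq_one_iff_adj.2 (hr i).symm
        rw [hv]
        omega
  -- the right vertical walk
  have right : ∀ j : ℕ, j ≤ n → ∃ v, l v = k + j ∧ q v = q y ∧ ∃ p : G.Walk v y,
      ∀ v ∈ p.support, ∃ i : ℕ, l v = k + i ∧ G.dist v y ≤ i := by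
    intro j
    induction j with
    | zero =>
      intro _
      refine ⟨y, by rw [hy1]; simp [hk], rfl, SimpleGraph.Walk.nil, ?_⟩
      intro v hv
      simp only [SimpleGraph.Walk.support_nil, List.mem_singleton] at hv
      exact ⟨0, by rw [hv, hy1]; simp [hk], by rw [hv, SimpleGraph.dist_self]⟩
    | succ j ih =>
      intro hj
      obtain ⟨v, hv1, hv2, p, hp⟩ := ih (by omega)
      obtain ⟨s', h1, h2, h3⟩ := h.up v (r (j + 1)) (by rw [hl, hv1]; push_cast; ring)
      obtain ⟨m, hm⟩ := h.lat (r (j + 1)) s' (by rw [hl, h2, hv1]; push_cast; ring)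
      have h4 : q s' = q y := by
        rcases h3 with h3 | h3
        · rw [h3, hv2]
        · exfalso
          have hA : (2 : ℚ) ^ n * 2 ^ k + 2 ^ (k + j) = m * 2 ^ (k + j + 1) := by
            have e1 : q s' = q (r 0) + 2 ^ n * 2 ^ k + 2 ^ (k + j) := by
              rw [h3, hv2, hy2', hv1]
            have e2 : q s' = q (r 0) + m * 2 ^ (k + j + 1) := by
              rw [hm, hq, hl]; push_cast; ring_nf
            linarith
          obtain ⟨i, hi⟩ := Nat.exists_eq_add_of_le hj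
          have e3 : (2 : ℚ) ^ (k + (j : ℤ)) = 2 ^ k * 2 ^ j := by
            rw [zpow_add₀ (by norm_num), zpow_natCast]
          have e4 : (2 : ℚ) ^ (k + (j : ℤ) + 1) = 2 ^ k * 2 ^ j * 2 := by
            rw [zpow_add₀ (by norm_num), e3, zpow_one]
          have e5 : (2 : ℚ) ^ n = 2 ^ j * 2 * 2 ^ i := by
            rw [hi, pow_add, pow_add, pow_one]
          rw [e3, e4, e5] at hA
          have e6 : (2 : ℚ) ^ k * 2 ^ j ≠ 0 := by positivity
          have e7 : (2 : ℚ) ^ k * 2 ^ j * (2 * 2 ^ i + 1) = 2 ^ k * 2 ^ j * (m * 2) := by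
            linear_combination hA
          have e8 := mul_left_cancel₀ e6 e7
          have e9 : (2 : ℤ) * 2 ^ i + 1 = m * 2 := by exact_mod_cast e8
          omega
      refine ⟨s', by rw [h2, hv1]; push_cast; ring, h4, SimpleGraph.Walk.cons h1.symm p, ?_⟩
      intro w hw
      rw [SimpleGraph.Walk.support_cons] at hw
      rcases List.mem_cons.1 hw with hw | hw
      · refine ⟨j + 1, by rw [hw, h2, hv1]; push_cast; ring, ?_⟩
        obtain ⟨i, hi1, hi2⟩ := hp v (SimpleGraph.Walk.start_mem_support _)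
        have hij : i = j := by omega
        subst hij
        have h5 := h.conn.dist_triangle (u := s') (v := v) (w := y)
        have h6 : G.dist s' v = 1 := SimpleGraph.dist_eq_one_iff_adj.2 h1.symm
        rw [hw]
        omega
      · exact hp w hw
  obtain ⟨p1, hp1⟩ := left n
  obtain ⟨v, hv1, hv2, p2, hp2⟩ := right n le_rfl
  obtain ⟨v', hv3, hv4, hv5⟩ := h.right (r n)
  have hvv : v' = v := by
    apply h.inj
    · rw [hv4, hl, hv1]
    · rw [hv5, hv2, hy2', hq, hl, zpow_add₀ (by norm_num), zpow_natCast]; ring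
  rw [hvv] at hv3
  let w₁ : G.Walk (r 0) y := (p1.concat hv3).append p2
  have hw₁ : ∀ a ∈ w₁.support, ∃ i : ℕ, l a = k + i ∧ (G.dist a (r 0) ≤ i ∨ G.dist a y ≤ i) := by
    intro a ha
    rw [SimpleGraph.Walk.mem_support_append_iff, SimpleGraph.Walk.support_concat] at ha
    simp only [List.mem_append, List.mem_singleton] at ha
    rcases ha with (ha | ha) | ha
    · obtain ⟨i, hi1, hi2⟩ := hp1 a ha
      exact ⟨i, hi1, Or.inl hi2⟩
    · obtain ⟨i, hi1, hi2⟩ := hp2 a (by rw [ha]; exact SimpleGraph.Walk.start_mem_support _)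
      exact ⟨i, hi1, Or.inr hi2⟩
    · obtain ⟨i, hi1, hi2⟩ := hp2 a ha
      exact ⟨i, hi1, Or.inr hi2⟩
  have hdist : B ≤ G.dist (r 0) y := by
    have := far h (r 0) y n (by rw [hy2'])
    omega
  obtain ⟨a, ha, b, hb, hab, hK1, hK2⟩ := hB (r 0) y hdist w₁ w₂
  obtain ⟨i, hi1, hi2⟩ := hw₁ a ha
  have hb1 := hw₂ b hb
  have h1 := lev_dist h a b
  rw [hi1, hb1, abs_le] at h1
  have h2 : i ≤ Δ := by omega
  rcases hi2 with hi2 | hi2 <;> omega

end Pool.Agent.Q281.BK
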